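import Pool.Agent.Helper37.ChoreoGeom

set_option autoImplicit false

namespace Pool.Agent.Helper37.Choreo

section dynamics

variable {E : Type*} [NormedAddCommGroup E] [InnerProductSpace ℝ E]

/-- position of body `k` at time `t` -/
noncomputable def pos (n : ℕ) (x : ℝ → E) (T t : ℝ) (k : ZMod n) : E := x (t + (k.val : ℝ) * T / n)

/-- the equations of a choreography, indexed by `ZMod n` -/
structure Dyn (n : ℕ) [NeZero n] (μ : ZMod n → ℝ) (x : ℝ → E) (T : ℝ) : Prop where
  T_pos : 0 < T
  smooth : ContDiff ℝ 2 x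
  per : Function.Periodic x T
  inj : ∀ t, Function.Injective (pos n x T t)
  newton : ∀ t (i : ZMod n), deriv (deriv x) (t + (i.val : ℝ) * T / n)
    = ∑ j, μ j • att (pos n x T t j - pos n x T t i)

variable {n : ℕ} [NeZero n] {μ : ZMod n → ℝ} {x : ℝ → E} {T : ℝ}

omit [NormedAddCommGroup E] [InnerProductSpace ℝ E] in
theorem pos_shift (hx : Function.Periodic x T) (t : ℝ) (j k : ZMod n) :
    pos n x T (t + (j.val : ℝ) * T / n) k = pos n x T t (j + k) := by
  unfold pos
  have hn : (n : ℝ) ≠ 0 := by exact_mod_cast NeZero.ne n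
  have h1 : ((j + k).val : ℝ) + n * (((j.val + k.val) / n : ℕ) : ℝ) = j.val + k.val := by
    rw [ZMod.val_add]
    exact_mod_cast Nat.mod_add_div _ _
  have h2 : t + (j.val : ℝ) * T / n + (k.val : ℝ) * T / n
      = (t + ((j + k).val : ℝ) * T / n) + (((j.val + k.val) / n : ℕ) : ℝ) * T := by
    field_simp
    linear_combination (-T) * h1
  rw [h2]
  exact hx.nat_mul _ _

omit [NormedAddCommGroup E] [InnerProductSpace ℝ E] [NeZero n] in
theorem pos_zero (t : ℝ) : pos n x T t 0 = x t := by
  unfold pos; simp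

/-- pull of body `k` on body `0` -/
noncomputable def G (n : ℕ) (x : ℝ → E) (T t : ℝ) (k : ZMod n) : E :=
  att (pos n x T t k - pos n x T t 0)

theorem G_shift (hx : Function.Periodic x T) (t : ℝ) (i k : ZMod n) :
    G n x T (t + (i.val : ℝ) * T / n) k = att (pos n x T t (i + k) - pos n x T t i) := by
  unfold G
  rw [pos_shift hx, pos_shift hx, add_zero]

theorem Dyn.H1 (h : Dyn n μ x T) (t : ℝ) (i : ZMod n) :
    deriv (deriv x) t = ∑ k, μ (i + k) • G n x T t k := by
  have h1 := h.newton (t - (i.val : ℝ) * T / n) i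
  have h2 : t - (i.val : ℝ) * T / n + (i.val : ℝ) * T / n = t := by ring
  rw [h2] at h1
  rw [h1, ← Equiv.sum_comp (Equiv.addLeft i)]
  refine Finset.sum_congr rfl fun k _ => ?_
  rw [Equiv.coe_addLeft]
  congr 1
  have h3 := G_shift h.per (t - (i.val : ℝ) * T / n) i k
  rw [h2] at h3
  rw [h3]

/-- `c` is a zero force charge vector, with all its shifts, at all times -/
def KK (n : ℕ) [NeZero n] (x : ℝ → E) (T : ℝ) (c : ZMod n → ℝ) : Prop :=
  ∀ t l, ∑ k, c (l + k) • G n x T t k = 0

theorem KK.static {c : ZMod n → ℝ} (h : KK n x T c) (hx : Function.Periodic x T) (t : ℝ) (i l : ZMod n) :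
    ∑ k, c (l + k) • att (pos n x T t (i + k) - pos n x T t i) = 0 := by
  have h1 := h (t + (i.val : ℝ) * T / n) l
  simp only [G_shift hx] at h1
  exact h1

theorem KK.lin {c c' : ZMod n → ℝ} (h : KK n x T c) (h' : KK n x T c') (a b : ℝ) :
    KK n x T (fun k => a * c k + b * c' k) := by
  intro t l
  have h1 := h t l
  have h2 := h' t l
  calc ∑ k, (a * c (l + k) + b * c' (l + k)) • G n x T t k
      = a • (∑ k, c (l + k) • G n x T t k) + b • (∑ k, c' (l + k) • G n x T t k) := by
        rw [Finset.smul_sum, Finset.smul_sum, ← Finset.sum_add_distrib]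
        refine Finset.sum_congr rfl fun k _ => ?_
        rw [add_smul, mul_smul, mul_smul]
    _ = 0 := by rw [h1, h2, smul_zero, smul_zero, add_zero]

theorem Dyn.mean (h : Dyn n μ x T) (t : ℝ) :
    (n : ℝ) • deriv (deriv x) t = (∑ j, μ j) • ∑ k, G n x T t k := by
  have h1 : ∑ _i : ZMod n, deriv (deriv x) t = ∑ i, ∑ k, μ (i + k) • G n x T t k :=
    Finset.sum_congr rfl fun i _ => h.H1 t i
  rw [Finset.sum_const, Finset.card_univ, ZMod.card, Finset.sum_comm] at h1
  rw [← Nat.cast_smul_eq_nsmul ℝ] at h1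
  rw [h1, Finset.smul_sum]
  refine Finset.sum_congr rfl fun k _ => ?_
  rw [← Finset.sum_smul]
  congr 1
  exact Equiv.sum_comp (Equiv.addRight k) μ

theorem const_of_deriv2 (Y : ℝ → E) (T : ℝ) (hT : 0 < T) (h1 : Differentiable ℝ Y)
    (h2 : Differentiable ℝ (deriv Y)) (h3 : ∀ t, deriv (deriv Y) t = 0)
    (hper : ∀ t, Y (t + T) = Y t) (t s : ℝ) : Y t = Y s := by
  have hc : ∀ a b, deriv Y a = deriv Y b := fun a b => is_const_of_deriv_eq_zero h2 h3 a b
  have hZ : ∀ a b, Y a - a • deriv Y 0 = Y b - b • deriv Y 0 := by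
    apply is_const_of_deriv_eq_zero
    · exact h1.sub (differentiable_id.smul_const _)
    · intro a
      have : HasDerivAt (fun a => Y a - a • deriv Y 0) (deriv Y a - (1 : ℝ) • deriv Y 0) a :=
        (h1 a).hasDerivAt.sub ((hasDerivAt_id a).smul_const _)
      rw [this.deriv, one_smul, hc a 0, sub_self]
  have hv : deriv Y 0 = 0 := by
    have e1 := hZ (0 + T) 0
    rw [hper 0, zero_add, zero_smul] at e1
    have e2 : T • deriv Y 0 = 0 := by
      have := sub_right_inj.1 e1
      exact this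
    exact (smul_eq_zero.1 e2).resolve_left hT.ne'
  have := hZ t s
  rw [hv, smul_zero, smul_zero, sub_zero, sub_zero] at this
  exact this

theorem Dyn.diff (h : Dyn n μ x T) : Differentiable ℝ x ∧ Differentiable ℝ (deriv x) := by
  have h2 : ContDiff ℝ (1 + 1) x := by
    have : (1 + 1 : WithTop ℕ∞) = 2 := by norm_num
    rw [this]; exact h.smooth
  have h3 := contDiff_succ_iff_deriv.1 h2
  exact ⟨h3.1, h3.2.2.differentiable (by norm_num)⟩

theorem Dyn.Y_const (h : Dyn n μ x T) (c : ZMod n → ℝ)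
    (hc : ∀ t, ∑ k, c k • deriv (deriv x) (t + (k.val : ℝ) * T / n) = 0) (t s : ℝ) :
    ∑ k, c k • pos n x T t k = ∑ k, c k • pos n x T s k := by
  obtain ⟨d1, d2⟩ := h.diff
  have e1 : ∀ t, HasDerivAt (fun t => ∑ k, c k • pos n x T t k)
      (∑ k, c k • deriv x (t + (k.val : ℝ) * T / n)) t := by
    intro t
    apply HasDerivAt.fun_sum
    intro k _
    apply HasDerivAt.const_smul
    exact ((d1 _).hasDerivAt).comp_add_const _ _
  have e2 : ∀ t, HasDerivAt (fun t => ∑ k, c k • deriv x (t + (k.val : ℝ) * T / n))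
      (∑ k, c k • deriv (deriv x) (t + (k.val : ℝ) * T / n)) t := by
    intro t
    apply HasDerivAt.fun_sum
    intro k _
    apply HasDerivAt.const_smul
    exact ((d2 _).hasDerivAt).comp_add_const _ _
  have e3 : deriv (fun t => ∑ k, c k • pos n x T t k)
      = fun t => ∑ k, c k • deriv x (t + (k.val : ℝ) * T / n) := funext fun t => (e1 t).deriv
  refine const_of_deriv2 (fun t => ∑ k, c k • pos n x T t k) T h.T_pos
    (fun t => (e1 t).differentiableAt) ?_ ?_ ?_ t s
  · rw [e3]; exact fun t => (e2 t).differentiableAt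
  · intro t; rw [e3, (e2 t).deriv]; exact hc t
  · intro t
    refine Finset.sum_congr rfl fun k _ => ?_
    congr 1
    unfold pos
    have : t + T + (k.val : ℝ) * T / n = (t + (k.val : ℝ) * T / n) + T := by ring
    rw [this]; exact h.per _

theorem Dyn.sumD2 (h : Dyn n μ x T) (c : ZMod n → ℝ) (t : ℝ) :
    (n : ℝ) • ∑ k, c k • deriv (deriv x) (t + (k.val : ℝ) * T / n)
      = (∑ j, μ j) • ∑ k, ∑ j, c k • att (pos n x T t j - pos n x T t k) := by
  rw [Finset.smul_sum, Finset.smul_sum]
  refine Finset.sum_congr rfl fun k _ => ?_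
  rw [smul_comm, h.mean, smul_comm]
  congr 1
  rw [← Finset.smul_sum]
  congr 1
  simp only [G_shift h.per]
  exact Equiv.sum_comp (Equiv.addLeft k) (fun j => att (pos n x T t j - pos n x T t k))

theorem Dyn.center_const (h : Dyn n μ x T) (t s : ℝ) :
    ∑ k, pos n x T t k = ∑ k, pos n x T s k := by
  have hn : (n : ℝ) ≠ 0 := by exact_mod_cast NeZero.ne n
  have := h.Y_const (fun _ => 1) (fun t => ?_) t s
  · simpa using this
  · have h1 := h.sumD2 (fun _ => 1) t
    have h2 : ∑ k, ∑ j, (1 : ℝ) • att (pos n x T t j - pos n x T t k) = 0 := by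
      have h3 : ∑ k, ∑ j, (1 : ℝ) • att (pos n x T t j - pos n x T t k)
          = - ∑ k, ∑ j, (1 : ℝ) • att (pos n x T t j - pos n x T t k) := by
        conv_lhs => rw [Finset.sum_comm]
        rw [← Finset.sum_neg_distrib]
        refine Finset.sum_congr rfl fun k _ => ?_
        rw [← Finset.sum_neg_distrib]
        refine Finset.sum_congr rfl fun j _ => ?_
        rw [← smul_neg, ← att_neg, neg_sub]
      generalize (∑ k, ∑ j, (1 : ℝ) • att (pos n x T t j - pos n x T t k)) = S at h3 ⊢
      have h4 : (2 : ℝ) • S = 0 := by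
        rw [two_smul]
        nth_rewrite 1 [h3]
        exact neg_add_cancel S
      exact (smul_eq_zero.1 h4).resolve_left (by norm_num)
    rw [h2, smul_zero] at h1
    exact (smul_eq_zero.1 h1).resolve_left hn

theorem Dyn.moment (h : Dyn n μ x T) {c : ZMod n → ℝ} (hK : KK n x T c) (hc : ∑ k, c k = 0) (t : ℝ) :
    ∑ k, c k • pos n x T t k = 0 := by
  have hn : (n : ℝ) ≠ 0 := by exact_mod_cast NeZero.ne n
  have hconst : ∀ t s, ∑ k, c k • pos n x T t k = ∑ k, c k • pos n x T s k := by
    refine h.Y_const c fun t => ?_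
    have h1 := h.sumD2 c t
    have h2 : ∑ k, ∑ j, c k • att (pos n x T t j - pos n x T t k) = 0 := by
      rw [Finset.sum_comm]
      refine Finset.sum_eq_zero fun j _ => ?_
      have h3 := hK.static h.per t j j
      have h4 : ∑ k, c k • att (pos n x T t j - pos n x T t k)
          = - ∑ k, c (j + k) • att (pos n x T t (j + k) - pos n x T t j) := by
        rw [← Equiv.sum_comp (Equiv.addLeft j), ← Finset.sum_neg_distrib]
        refine Finset.sum_congr rfl fun k _ => ?_
        rw [Equiv.coe_addLeft, ← smul_neg, ← att_neg, neg_sub]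
      rw [h4, h3, neg_zero]
    rw [h2, smul_zero] at h1
    exact (smul_eq_zero.1 h1).resolve_left hn
  -- average over the shifts
  have h5 : ∑ i : ZMod n, ∑ k, c k • pos n x T (t + (i.val : ℝ) * T / n) k = 0 := by
    have h6 : ∀ i : ZMod n, ∑ k, c k • pos n x T (t + (i.val : ℝ) * T / n) k
        = ∑ k, c (k - i) • pos n x T t k := by
      intro i
      rw [← Equiv.sum_comp (Equiv.addLeft i) (fun k => c (k - i) • pos n x T t k)]
      refine Finset.sum_congr rfl fun k _ => ?_
      rw [pos_shift h.per, Equiv.coe_addLeft]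
      congr 2
      ring
    simp only [h6]
    rw [Finset.sum_comm]
    refine Finset.sum_eq_zero fun k _ => ?_
    rw [← Finset.sum_smul]
    have : ∑ i, c (k - i) = ∑ i, c i := Equiv.sum_comp (Equiv.subLeft k) c
    rw [this, hc, zero_smul]
  have h7 : ∑ i : ZMod n, ∑ k, c k • pos n x T (t + (i.val : ℝ) * T / n) k
      = (n : ℝ) • ∑ k, c k • pos n x T t k := by
    rw [Finset.sum_congr rfl fun i _ => hconst (t + (i.val : ℝ) * T / n) t]
    rw [Finset.sum_const, Finset.card_univ, ZMod.card, Nat.cast_smul_eq_nsmul]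
  rw [h7] at h5
  exact (smul_eq_zero.1 h5).resolve_left hn

end dynamics

end Pool.Agent.Helper37.Choreo
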