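import Pool.Agent.Helper37.ChoreoDyn

set_option autoImplicit false

namespace Pool.Agent.Helper37.Choreo

section chars

variable {n : ℕ} [NeZero n]

omit [NeZero n] in
theorem pow_mod_n {ζ : ℂ} (h : ζ ^ n = 1) (a : ℕ) : ζ ^ (a % n) = ζ ^ a := by
  conv_rhs => rw [← Nat.mod_add_div a n, pow_add, pow_mul, h, one_pow, mul_one]

theorem chi_add {ζ : ℂ} (h : ζ ^ n = 1) (a b : ZMod n) :
    ζ ^ (a + b).val = ζ ^ a.val * ζ ^ b.val := by
  rw [ZMod.val_add, pow_mod_n h, pow_add]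

theorem chi_neg_mul {ζ : ℂ} (h : ζ ^ n = 1) (a : ZMod n) : ζ ^ (-a).val * ζ ^ a.val = 1 := by
  rw [← chi_add h, neg_add_cancel, ZMod.val_zero, pow_zero]

theorem chi_sum {ζ : ℂ} (h : ζ ^ n = 1) (h1 : ζ ≠ 1) : ∑ k : ZMod n, ζ ^ k.val = 0 := by
  have e : ∀ a : ZMod n, ζ ^ a.val * ∑ k : ZMod n, ζ ^ k.val = ∑ k : ZMod n, ζ ^ k.val := by
    intro a
    rw [Finset.mul_sum, ← Equiv.sum_comp (Equiv.addLeft a) (fun k : ZMod n => ζ ^ k.val)]
    refine Finset.sum_congr rfl fun k _ => ?_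
    rw [Equiv.coe_addLeft, chi_add h]
  have e1 : ζ ^ (1 : ZMod n).val = ζ := by
    rw [ZMod.val_one_eq_one_mod, pow_mod_n h, pow_one]
  have e2 := e 1
  rw [e1] at e2
  have e3 : (ζ - 1) * ∑ k : ZMod n, ζ ^ k.val = 0 := by rw [sub_mul, e2, one_mul, sub_self]
  exact (mul_eq_zero.1 e3).resolve_left (sub_ne_zero.2 h1)

theorem chi_conj {ζ : ℂ} (h : ζ ^ n = 1) (a : ZMod n) :
    (starRingEnd ℂ) (ζ ^ (-a).val) = ζ ^ a.val := by
  have hn : ‖ζ‖ = 1 := Complex.norm_eq_one_of_pow_eq_one h (NeZero.ne n)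
  have h1 : ‖ζ ^ (-a).val‖ = 1 := by rw [norm_pow, hn, one_pow]
  have h2 : ζ ^ (-a).val ≠ 0 := by
    intro h3; rw [h3, norm_zero] at h1; exact zero_ne_one h1
  have h3 : ζ ^ (-a).val * (starRingEnd ℂ) (ζ ^ (-a).val) = 1 := by
    rw [Complex.mul_conj, Complex.normSq_eq_norm_sq, h1]; norm_num
  have h4 := chi_neg_mul h a
  exact mul_left_cancel₀ h2 (h3.trans h4.symm)

/-- if the transform of the masses does not vanish at `ζ`, that of the forces does -/
theorem transform_zero {μ γ : ZMod n → ℝ} {δ : ℝ} (hγ : ∀ i, ∑ k, μ (i + k) * γ k = δ)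
    {ζ : ℂ} (h : ζ ^ n = 1) (h1 : ζ ≠ 1) (hA : ∑ j : ZMod n, ζ ^ j.val * (μ j : ℂ) ≠ 0) :
    ∑ k : ZMod n, ζ ^ k.val * (γ k : ℂ) = 0 := by
  have e1 : ∑ i : ZMod n, ζ ^ i.val * (∑ k : ZMod n, (μ (i + k) : ℂ) * γ k) = 0 := by
    have : ∀ i : ZMod n, (∑ k : ZMod n, (μ (i + k) : ℂ) * γ k) = (δ : ℂ) := by
      intro i; rw [← hγ i]; push_cast; rfl
    simp only [this]
    rw [← Finset.sum_mul, chi_sum h h1, zero_mul]
  have e2 : ∑ i : ZMod n, ζ ^ i.val * (∑ k : ZMod n, (μ (i + k) : ℂ) * γ k)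
      = (∑ j : ZMod n, ζ ^ j.val * (μ j : ℂ)) * ∑ k : ZMod n, ζ ^ (-k).val * (γ k : ℂ) := by
    simp only [Finset.mul_sum]
    rw [Finset.sum_comm]
    refine Finset.sum_congr rfl fun k _ => ?_
    rw [Finset.sum_mul, ← Equiv.sum_comp (Equiv.addRight k)
      (fun j : ZMod n => ζ ^ j.val * (μ j : ℂ) * (ζ ^ (-k).val * (γ k : ℂ)))]
    refine Finset.sum_congr rfl fun i _ => ?_
    rw [Equiv.coe_addRight, chi_add h]
    linear_combination (-(ζ ^ i.val * (μ (i + k) : ℂ) * γ k)) * chi_neg_mul h k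
  rw [e2] at e1
  have e3 := (mul_eq_zero.1 e1).resolve_left hA
  have e4 := congrArg (starRingEnd ℂ) e3
  rw [map_sum, map_zero] at e4
  rw [← e4]
  refine Finset.sum_congr rfl fun k _ => ?_
  rw [map_mul, chi_conj h, Complex.conj_ofReal]

variable {E : Type*} [NormedAddCommGroup E] [InnerProductSpace ℝ E]
variable {μ : ZMod n → ℝ} {x : ℝ → E} {T : ℝ}

theorem Dyn.gamma (h : Dyn n μ x T) (t : ℝ) (e : E) (i : ZMod n) :
    ∑ k, μ (i + k) * inner ℝ e (G n x T t k) = inner ℝ e (deriv (deriv x) t) := by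
  rw [h.H1 t i, inner_sum]
  refine Finset.sum_congr rfl fun k _ => ?_
  rw [real_inner_smul_right]

theorem Dyn.KK_re_im (h : Dyn n μ x T) {ζ : ℂ} (hζ : ζ ^ n = 1) (h1 : ζ ≠ 1)
    (hA : ∑ j : ZMod n, ζ ^ j.val * (μ j : ℂ) ≠ 0) :
    KK n x T (fun k => (ζ ^ k.val).re) ∧ KK n x T (fun k => (ζ ^ k.val).im) := by
  have key : ∀ t l (e : E), ∑ k : ZMod n, ζ ^ (l + k).val * ((inner ℝ e (G n x T t k) : ℝ) : ℂ) = 0 := by
    intro t l e
    have h2 := transform_zero (h.gamma t e) hζ h1 hA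
    calc ∑ k : ZMod n, ζ ^ (l + k).val * ((inner ℝ e (G n x T t k) : ℝ) : ℂ)
        = ζ ^ l.val * ∑ k : ZMod n, ζ ^ k.val * ((inner ℝ e (G n x T t k) : ℝ) : ℂ) := by
          rw [Finset.mul_sum]
          refine Finset.sum_congr rfl fun k _ => ?_
          rw [chi_add hζ, mul_assoc]
      _ = 0 := by rw [h2, mul_zero]
  have vz : ∀ v : E, (∀ e : E, (inner ℝ e v : ℝ) = 0) → v = 0 := fun v hv =>
    inner_self_eq_zero.1 (hv v)
  constructor
  · intro t l
    refine vz _ fun e => ?_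
    have h3 := congrArg Complex.re (key t l e)
    rw [Complex.re_sum, Complex.zero_re] at h3
    rw [inner_sum, ← h3]
    refine Finset.sum_congr rfl fun k _ => ?_
    rw [real_inner_smul_right, Complex.re_mul_ofReal]
  · intro t l
    refine vz _ fun e => ?_
    have h3 := congrArg Complex.im (key t l e)
    rw [Complex.im_sum, Complex.zero_im] at h3
    rw [inner_sum, ← h3]
    refine Finset.sum_congr rfl fun k _ => ?_
    rw [real_inner_smul_right, Complex.im_mul_ofReal]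

theorem fourier_inj (w : ZMod n → ℂ) (h : ∀ ζ : ℂ, ζ ^ n = 1 → ∑ k : ZMod n, ζ ^ k.val * w k = 0) :
    w = 0 := by
  have h1 : ZMod.dft w = 0 := by
    funext k
    rw [ZMod.dft_apply, Pi.zero_apply]
    have h2 : ∀ j : ZMod n, ZMod.stdAddChar (-(j * k)) = (ZMod.stdAddChar (-k) : ℂ) ^ j.val := by
      intro j
      rw [← AddChar.map_nsmul_eq_pow]
      congr 1
      rw [nsmul_eq_mul, ZMod.natCast_zmod_val]
      ring
    have h3 : (ZMod.stdAddChar (-k) : ℂ) ^ n = 1 := by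
      rw [← AddChar.map_nsmul_eq_pow, nsmul_eq_mul, ZMod.natCast_self, zero_mul, AddChar.map_zero_eq_one]
    have h4 := h _ h3
    rw [← h4]
    refine Finset.sum_congr rfl fun j _ => ?_
    rw [h2, smul_eq_mul]
  exact (LinearEquiv.map_eq_zero_iff ZMod.dft).1 h1

theorem periodic_of (v : ZMod n → ℂ) (r : ZMod n)
    (h : ∀ ζ : ℂ, ζ ^ n = 1 → ζ ^ r.val ≠ 1 → ∑ k : ZMod n, ζ ^ k.val * v k = 0) (k : ZMod n) :
    v (r + k) = v k := by
  have h1 : (fun k => v (r + k) - v k) = 0 := by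
    apply fourier_inj
    intro ζ hζ
    have h2 : ζ ^ r.val * ∑ k : ZMod n, ζ ^ k.val * v (r + k) = ∑ k : ZMod n, ζ ^ k.val * v k := by
      rw [Finset.mul_sum, ← Equiv.sum_comp (Equiv.addLeft r) (fun k : ZMod n => ζ ^ k.val * v k)]
      refine Finset.sum_congr rfl fun k _ => ?_
      rw [Equiv.coe_addLeft, chi_add hζ]; ring
    have h3 : ζ ^ r.val ≠ 0 := by
      have := chi_neg_mul hζ r
      intro h4; rw [h4, mul_zero] at this; exact zero_ne_one this
    simp only [mul_sub, Finset.sum_sub_distrib]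
    by_cases hr : ζ ^ r.val = 1
    · rw [hr, one_mul] at h2
      rw [h2, sub_self]
    · rw [h ζ hζ hr] at h2 ⊢
      rw [(mul_eq_zero.1 h2).resolve_left h3, sub_zero]
  exact sub_eq_zero.1 (congrFun h1 k)

/-- energy identity -/
theorem energy (X : ZMod n → E) (c : ZMod n → ℝ) (hc : ∀ k, c (-k) = c k)
    (h : ∀ i, ∑ k, c k • att (X (i + k) - X i) = 0) :
    ∑ i, ∑ k, c k * ‖X (i + k) - X i‖⁻¹ = 0 := by
  have e1 : ∑ i, ∑ k, c k * inner ℝ (X i) (att (X (i + k) - X i)) = 0 := by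
    refine Finset.sum_eq_zero fun i _ => ?_
    have := congrArg (fun v => (inner ℝ (X i) v : ℝ)) (h i)
    simp only [inner_sum, real_inner_smul_right, inner_zero_right] at this
    exact this
  have e2 : ∑ i, ∑ k, c k * inner ℝ (X (i + k)) (att (X (i + k) - X i)) = 0 := by
    have : ∑ i, ∑ k, c k * inner ℝ (X (i + k)) (att (X (i + k) - X i))
        = - ∑ i, ∑ k, c k * inner ℝ (X i) (att (X (i + k) - X i)) := by
      rw [← Finset.sum_neg_distrib]
      have s1 : ∀ (f : ZMod n → ZMod n → ℝ), ∑ i, ∑ k, f i k = ∑ i, ∑ k, f (i + k) (-k) := by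
        intro f
        rw [Finset.sum_comm (f := fun i k => f (i + k) (-k)), Finset.sum_comm (f := fun i k => f i k)]
        rw [← Equiv.sum_comp (Equiv.neg (ZMod n))]
        refine Finset.sum_congr rfl fun k _ => ?_
        rw [Equiv.neg_apply]
        exact (Equiv.sum_comp (Equiv.addRight k) (fun i => f i (-k))).symm
      rw [s1]
      refine Finset.sum_congr rfl fun i _ => ?_
      rw [← Finset.sum_neg_distrib]
      refine Finset.sum_congr rfl fun k _ => ?_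
      rw [hc, add_neg_cancel_right, ← neg_sub (X (i + k)) (X i), att_neg, inner_neg_right]
      ring
    rw [this, e1, neg_zero]
  have e3 : ∑ i, ∑ k, c k * ‖X (i + k) - X i‖⁻¹
      = ∑ i, ∑ k, c k * inner ℝ (X (i + k)) (att (X (i + k) - X i))
        - ∑ i, ∑ k, c k * inner ℝ (X i) (att (X (i + k) - X i)) := by
    rw [← Finset.sum_sub_distrib]
    refine Finset.sum_congr rfl fun i _ => ?_
    rw [← Finset.sum_sub_distrib]
    refine Finset.sum_congr rfl fun k _ => ?_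
    rw [← mul_sub, ← inner_sub_left, inner_self_att]
  rw [e3, e2, e1, sub_zero]

end chars

end Pool.Agent.Helper37.Choreo
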