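import Mathlib

set_option autoImplicit false

namespace Pool.Agent.Helper37.Choreo

/-- the key linear lower bound -/
theorem lin_bound (u t : ℝ) (ht : 0 < t) (h1 : t ^ 2 ≤ 2 * u) (h2 : u ≤ t) :
    485 / 1372 - 125 / 686 * (u - 1) + 11 / 50 * (2 * u - t ^ 2) ≤ u / t ^ 3 := by
  have ht3 : 0 < t ^ 3 := by positivity
  rw [le_div_iff₀ ht3]
  -- affine in u : D(u) = u - (α - λ (u-1) + γ (2u - t^2)) t^3
  have e1 : 0 ≤ t ^ 2 / 2 - (485 / 1372 - 125 / 686 * (t ^ 2 / 2 - 1)) * t ^ 3 := by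
    have : t ^ 2 / 2 - (485 / 1372 - 125 / 686 * (t ^ 2 / 2 - 1)) * t ^ 3
        = t ^ 2 * (125 / 1372 * ((t - 7 / 5) ^ 2 * (t + 14 / 5))) := by ring
    rw [this]; positivity
  have e2 : 0 ≤ t - (485 / 1372 - 125 / 686 * (t - 1) + 11 / 50 * (2 * t - t ^ 2)) * t ^ 3 := by
    have h3 : 0 ≤ 1 - 15 / 28 * t ^ 2 + (125 / 686 - 11 / 25) * t ^ 3 + 11 / 50 * t ^ 4 := by
      nlinarith [sq_nonneg (t ^ 2 - 13 / 5), sq_nonneg (t * (t - 13/8)), sq_nonneg (t - 13/8),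
        mul_nonneg ht.le (sq_nonneg (t - 13/8)), sq_nonneg (t^2 - 21/13 * t), sq_nonneg (t ^ 2 - 2 / 5 * t - 2)]
    have : t - (485 / 1372 - 125 / 686 * (t - 1) + 11 / 50 * (2 * t - t ^ 2)) * t ^ 3
        = t * (1 - 15 / 28 * t ^ 2 + (125 / 686 - 11 / 25) * t ^ 3 + 11 / 50 * t ^ 4) := by ring
    rw [this]; positivity
  by_cases hs : 0 ≤ 1 - (- 125 / 686 + 11 / 25) * t ^ 3
  · nlinarith [mul_nonneg hs (sub_nonneg.2 h1)]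
  · push Not at hs
    nlinarith [mul_nonneg (neg_nonneg.2 hs.le) (sub_nonneg.2 h2)]

theorem inv_le_89 (n D d : ℝ) (hn : 0 < n) (h : n ^ 2 = 3 - 2 * D + 3 * d) (hd : 0 ≤ d)
    (hD : D ≤ 433 / 500) : n⁻¹ ≤ 8 / 9 := by
  have h1 : 9 / 8 ≤ n := by
    by_contra hc
    push Not at hc
    nlinarith
  rw [inv_le_comm₀ hn (by norm_num)]
  linarith

theorem q54 (q : ℝ) (hq2 : 2 ≤ q) : (9 - 2 * q) / q ^ 2 ≤ 5 / 4 := by
  rw [div_le_iff₀ (by positivity)]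
  nlinarith [mul_nonneg (sub_nonneg.2 hq2) (sub_nonneg.2 hq2)]

theorem qle (q : ℝ) (hq2 : 2 ≤ q) (h : 1455 / 1372 ≤ (9 - 2 * q) / q ^ 2) : q ≤ 54 / 25 := by
  by_contra hc
  push Not at hc
  rw [le_div_iff₀ (by positivity)] at h
  nlinarith [mul_pos (sub_pos.2 hc) (sub_pos.2 hc)]

theorem zle (q z2 : ℝ) (hq : q = z2 * (3 - z2)) (h : q ≤ 54 / 25) (h2 : z2 ≤ 3 / 2) : z2 ≤ 6 / 5 := by
  by_contra hc
  push Not at hc
  nlinarith [mul_pos (sub_pos.2 hc) (by linarith : (0:ℝ) < 9 / 5 - z2)]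

theorem bz (z r : ℝ) (h0 : 0 < z) (h1 : z ≤ r) : z / r ^ 3 ≤ (z ^ 2)⁻¹ := by
  have hr : 0 < r := by linarith
  rw [div_le_iff₀ (by positivity)]
  have : z ^ 3 ≤ r ^ 3 := by gcongr
  have h2 : (z ^ 2)⁻¹ * z ^ 3 ≤ (z ^ 2)⁻¹ * r ^ 3 := by gcongr
  have h3 : (z ^ 2)⁻¹ * z ^ 3 = z := by field_simp
  linarith

theorem core6 (z2 z4 s2 s4 r02 r04 r24 u1 u3 u5 t1 t3 t5 s1 s3 s5 n13 n35 n15 EPN : ℝ)
    (hz : z2 + z4 = 3) (hle : z2 ≤ z4)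
    (hr02 : z2 ≤ r02) (hr04 : z4 ≤ r04) (hr24 : z4 - z2 ≤ r24) 
    (hs24 : s2 = 3 - 2 * z4 + s4) (hs2 : 0 ≤ s2) (hs4 : s4 ≤ 1)
    (hA : z2 / r02 ^ 3 + z4 / r04 ^ 3 = u1 / t1 ^ 3 + u3 / t3 ^ 3 + u5 / t5 ^ 3)
    (hu : u1 + u3 + u5 = 3)
    (ht1 : 0 < t1) (ht3 : 0 < t3) (ht5 : 0 < t5)
    (hut1 : u1 ≤ t1) (hut3 : u3 ≤ t3) (hut5 : u5 ≤ t5)
    (e1 : t1 ^ 2 = 2 * u1 - 1 + s1) (e3 : t3 ^ 2 = 2 * u3 - 1 + s3) (e5 : t5 ^ 2 = 2 * u5 - 1 + s5)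
    (hs1 : s1 ≤ 1) (hs3 : s3 ≤ 1) (hs5 : s5 ≤ 1)
    (hn13 : 0 < n13) (hn35 : 0 < n35) (hn15 : 0 < n15)
    (f13 : n13 ^ 2 = 2 * s1 + 2 * s3 - s5) (f35 : n35 ^ 2 = 2 * s3 + 2 * s5 - s1)
    (f15 : n15 ^ 2 = 2 * s1 + 2 * s5 - s3)
    (hE : 81 / 8 - 81 / 128 * ((1 + s2 + s4) + (s1 + s3 + s5)) ≤ EPN)
    (hB : r02⁻¹ + r04⁻¹ + r24⁻¹ + n13⁻¹ + n35⁻¹ + n15⁻¹ = EPN) : False := by
  have hz2 : 1 ≤ z2 := by linarith only [hz, hs24, hs2, hs4]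
  have hz4 : z4 ≤ 2 := by linarith only [hz, hz2]
  have hz2' : z2 ≤ 3 / 2 := by linarith only [hz, hle]
  have p02 : 0 < r02 := by linarith only [hz2, hr02]
  have p04 : 0 < r04 := by linarith only [hz2, hle, hr04]
  -- upper bound for the P part
  have hP : z2 / r02 ^ 3 + z4 / r04 ^ 3 ≤ (z2 ^ 2)⁻¹ + (z4 ^ 2)⁻¹ :=
    add_le_add (bz z2 r02 (by linarith only [hz2]) hr02) (bz z4 r04 (by linarith only [hz2, hle]) hr04)
  -- q = z2 z4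
  have hz4' : z4 = 3 - z2 := by linarith only [hz]
  obtain ⟨q, hq⟩ : ∃ q, q = z2 * z4 := ⟨_, rfl⟩
  have hq2 : 2 ≤ q := by
    rw [hq, hz4']
    nlinarith only [mul_nonneg (sub_nonneg.2 hz2) (by linarith only [hz2'] : (0 : ℝ) ≤ 2 - z2)]
  have hPq : (z2 ^ 2)⁻¹ + (z4 ^ 2)⁻¹ = (9 - 2 * q) / q ^ 2 := by
    have h2 : z2 ≠ 0 := by intro h; linarith only [h, hz2]
    have h4 : z4 ≠ 0 := by intro h; linarith only [h, hz2, hle]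
    rw [hq]
    field_simp
    rw [hz4']; ring
  -- lower bound for the N part
  have l1 := lin_bound u1 t1 ht1 (by linarith only [e1, hs1]) hut1
  have l3 := lin_bound u3 t3 ht3 (by linarith only [e3, hs3]) hut3
  have l5 := lin_bound u5 t5 ht5 (by linarith only [e5, hs5]) hut5
  obtain ⟨D, hD⟩ : ∃ D, D = (1 - s1) + (1 - s3) + (1 - s5) := ⟨_, rfl⟩
  have hN : 1455 / 1372 + 11 / 50 * D ≤ (9 - 2 * q) / q ^ 2 := by
    rw [← hPq]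
    rw [hA] at hP
    generalize u1 / t1 ^ 3 = A1 at *
    generalize u3 / t3 ^ 3 = A3 at *
    generalize u5 / t5 ^ 3 = A5 at *
    generalize (z2 ^ 2)⁻¹ + (z4 ^ 2)⁻¹ = A2 at *
    linarith only [l1, l3, l5, hP, e1, e3, e5, hD, hu]
  have hD0 : 0 ≤ D := by rw [hD]; linarith only [hs1, hs3, hs5]
  have hq54 := q54 q hq2
  have hDle : D ≤ 433 / 500 := by linarith only [hN, hq54]
  have hqle : q ≤ 54 / 25 := qle q hq2 (by linarith only [hN, hD0])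
  have hz65 : z2 ≤ 6 / 5 := zle q z2 (by rw [hq, hz4']) hqle hz2'
  -- E_NN
  have g13 : n13⁻¹ ≤ 8 / 9 := inv_le_89 n13 D (1 - s5) hn13 (by rw [f13, hD]; ring) (by linarith only [hs5]) hDle
  have g35 : n35⁻¹ ≤ 8 / 9 := inv_le_89 n35 D (1 - s1) hn35 (by rw [f35, hD]; ring) (by linarith only [hs1]) hDle
  have g15 : n15⁻¹ ≤ 8 / 9 := inv_le_89 n15 D (1 - s3) hn15 (by rw [f15, hD]; ring) (by linarith only [hs3]) hDle
  -- E_PP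
  have g02 : r02⁻¹ ≤ z2⁻¹ := inv_anti₀ (by linarith only [hz2]) hr02
  have g04 : r04⁻¹ ≤ z4⁻¹ := inv_anti₀ (by linarith only [hz2, hle]) hr04
  have gz : z2⁻¹ + z4⁻¹ ≤ 3 / 2 := by
    have : z2⁻¹ + z4⁻¹ = 3 / q := by
      have h2 : z2 ≠ 0 := by intro h; linarith only [h, hz2]
      have h4 : z4 ≠ 0 := by intro h; linarith only [h, hz2, hle]
      rw [hq]; field_simp; linarith only [hz]
    rw [this, div_le_div_iff₀ (by linarith only [hq2]) (by norm_num)]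
    linarith only [hq2]
  have g24 : r24⁻¹ ≤ 5 / 3 := by
    have : 3 / 5 ≤ r24 := by linarith only [hr24, hz, hz65]
    calc r24⁻¹ ≤ (3 / 5 : ℝ)⁻¹ := inv_anti₀ (by norm_num) this
      _ = 5 / 3 := by norm_num
  have hs2' : s2 ≤ 2 / 5 := by linarith only [hs24, hs4, hz, hz65]
  linarith only [hB, hE, g13, g35, g15, g02, g04, gz, g24, hs2', hs4, hs1, hs3, hs5]

section geometry

variable {E : Type*} [NormedAddCommGroup E] [InnerProductSpace ℝ E]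

/-- the Newtonian attraction `u / |u|^3` -/
noncomputable def att (u : E) : E := (‖u‖ ^ (-3 : ℤ)) • u

theorem att_zero : att (0 : E) = 0 := by simp [att]

theorem att_neg (u : E) : att (-u) = - att u := by simp [att]

theorem att_smul (r : ℝ) (hr : 0 < r) (u : E) : att (r • u) = (r ^ 2)⁻¹ • att u := by
  unfold att
  rw [norm_smul, Real.norm_of_nonneg hr.le, smul_smul, smul_smul, mul_zpow]
  congr 1
  have : r ^ (-3 : ℤ) = (r ^ 3)⁻¹ := by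
    rw [zpow_neg]; norm_cast
  rw [this]
  field_simp

theorem att_ne_zero {u : E} (hu : u ≠ 0) : att u ≠ 0 := by
  unfold att
  intro h
  rcases smul_eq_zero.1 h with h | h
  · exact (zpow_ne_zero _ (norm_ne_zero_iff.2 hu)) h
  · exact hu h

theorem inner_att (v u : E) : inner ℝ v (att u) = inner ℝ v u / ‖u‖ ^ 3 := by
  unfold att
  rw [real_inner_smul_right]
  have : ‖u‖ ^ (-3 : ℤ) = (‖u‖ ^ 3)⁻¹ := by
    rw [zpow_neg]; norm_cast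
  rw [this]
  field_simp

theorem inner_self_att (u : E) : inner ℝ u (att u) = ‖u‖⁻¹ := by
  rw [inner_att, real_inner_self_eq_norm_sq]
  by_cases h : ‖u‖ = 0
  · simp [h]
  · field_simp

theorem inv_tangent (r : ℝ) (hr : 0 < r) : 9 / 8 - 27 / 128 * r ^ 2 ≤ r⁻¹ := by
  have h1 : 0 ≤ (3 * r - 4) ^ 2 * (3 * r + 8) := by positivity
  have h2 : (9 / 8 - 27 / 128 * r ^ 2) * r ≤ 1 := by nlinarith
  have h3 : (9 / 8 - 27 / 128 * r ^ 2) * r * r⁻¹ ≤ 1 * r⁻¹ := by gcongr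
  have h4 : (9 / 8 - 27 / 128 * r ^ 2) * r * r⁻¹ = 9 / 8 - 27 / 128 * r ^ 2 := by field_simp
  linarith

theorem six_aux (p0 p2 p4 y1 y3 y5 : E) (h0 : ‖p0‖ = 1) (h4 : ‖p4‖ ≤ 1)
    (k1 : ‖y1‖ ≤ 1) (k3 : ‖y3‖ ≤ 1) (k5 : ‖y5‖ ≤ 1)
    (hP : p0 + p2 + p4 = 0) (hN : y1 + y3 + y5 = 0)
    (d10 : y1 ≠ p0) (d12 : y1 ≠ p2) (d14 : y1 ≠ p4)
    (d30 : y3 ≠ p0) (d32 : y3 ≠ p2) (d34 : y3 ≠ p4)
    (d50 : y5 ≠ p0) (d52 : y5 ≠ p2) (d54 : y5 ≠ p4)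
    (d13 : y3 ≠ y1) (d35 : y5 ≠ y3) (d15 : y5 ≠ y1)
    (hA : att (p2 - p0) + att (p4 - p0) = att (y1 - p0) + att (y3 - p0) + att (y5 - p0))
    (hB : ‖p2 - p0‖⁻¹ + ‖p4 - p0‖⁻¹ + ‖p4 - p2‖⁻¹ + ‖y3 - y1‖⁻¹ + ‖y5 - y3‖⁻¹ + ‖y5 - y1‖⁻¹
      = ‖y1 - p0‖⁻¹ + ‖y1 - p2‖⁻¹ + ‖y1 - p4‖⁻¹ + ‖y3 - p0‖⁻¹ + ‖y3 - p2‖⁻¹ + ‖y3 - p4‖⁻¹
        + ‖y5 - p0‖⁻¹ + ‖y5 - p2‖⁻¹ + ‖y5 - p4‖⁻¹)
    (hle : (inner ℝ p0 p4 : ℝ) ≤ inner ℝ p0 p2) : False := by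
  have i0 : (inner ℝ p0 p0 : ℝ) = 1 := by rw [real_inner_self_eq_norm_sq, h0]; norm_num
  have hg : 1 + (inner ℝ p0 p2 : ℝ) + inner ℝ p0 p4 = 0 := by
    have : (inner ℝ p0 (p0 + p2 + p4) : ℝ) = 0 := by rw [hP, inner_zero_right]
    rw [inner_add_right, inner_add_right, i0] at this
    exact this
  have ha : (inner ℝ p0 y1 : ℝ) + inner ℝ p0 y3 + inner ℝ p0 y5 = 0 := by
    have : (inner ℝ p0 (y1 + y3 + y5) : ℝ) = 0 := by rw [hN, inner_zero_right]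
    rw [inner_add_right, inner_add_right] at this
    exact this
  have hin : (inner ℝ y1 p0 : ℝ) + inner ℝ y1 p2 + inner ℝ y1 p4 + (inner ℝ y3 p0 + inner ℝ y3 p2 + inner ℝ y3 p4)
      + (inner ℝ y5 p0 + inner ℝ y5 p2 + inner ℝ y5 p4) = 0 := by
    have : (inner ℝ (y1 + y3 + y5) (p0 + p2 + p4) : ℝ) = 0 := by rw [hN, inner_zero_left]
    simp only [inner_add_left, inner_add_right] at this
    linarith only [this]
  -- inner product of hA with -p0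
  have tm : ∀ y : E, inner ℝ (-p0) (att (y - p0)) = (1 - (inner ℝ p0 y : ℝ)) / ‖y - p0‖ ^ 3 := by
    intro y
    rw [inner_att, inner_neg_left, inner_sub_right, i0]
    congr 1
    ring
  have hA' : (1 - (inner ℝ p0 p2 : ℝ)) / ‖p2 - p0‖ ^ 3 + (1 - (inner ℝ p0 p4 : ℝ)) / ‖p4 - p0‖ ^ 3
      = (1 - (inner ℝ p0 y1 : ℝ)) / ‖y1 - p0‖ ^ 3 + (1 - (inner ℝ p0 y3 : ℝ)) / ‖y3 - p0‖ ^ 3
        + (1 - (inner ℝ p0 y5 : ℝ)) / ‖y5 - p0‖ ^ 3 := by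
    have h := congrArg (fun v => (inner ℝ (-p0) v : ℝ)) hA
    simp only [inner_add_right, tm] at h
    exact h
  -- Cauchy-Schwarz
  have cs : ∀ y : E, 1 - (inner ℝ p0 y : ℝ) ≤ ‖y - p0‖ := by
    intro y
    have h := real_inner_le_norm p0 (p0 - y)
    rw [h0, one_mul, inner_sub_right, i0, norm_sub_rev] at h
    exact h
  have cs2 : (1 - (inner ℝ p0 p4 : ℝ)) - (1 - (inner ℝ p0 p2 : ℝ)) ≤ ‖p4 - p2‖ := by
    have h := real_inner_le_norm p0 (p2 - p4)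
    rw [h0, one_mul, inner_sub_right, norm_sub_rev] at h
    linarith only [h]
  have sq : ∀ y : E, ‖y - p0‖ ^ 2 = 2 * (1 - (inner ℝ p0 y : ℝ)) - 1 + ‖y‖ ^ 2 := by
    intro y
    rw [norm_sub_sq_real, h0, real_inner_comm]; ring
  have hs24 : ‖p2‖ ^ 2 = 3 - 2 * (1 - (inner ℝ p0 p4 : ℝ)) + ‖p4‖ ^ 2 := by
    have h2 : p2 = -(p0 + p4) := by
      have : p2 = (p0 + p2 + p4) - (p0 + p4) := by abel
      rw [this, hP, zero_sub]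
    rw [h2, norm_neg, norm_add_sq_real, h0]; ring
  have fn : ∀ a b c : E, a + b + c = 0 → ‖b - a‖ ^ 2 = 2 * ‖a‖ ^ 2 + 2 * ‖b‖ ^ 2 - ‖c‖ ^ 2 := by
    intro a b c h
    have h2 : c = -(a + b) := by
      have : c = (a + b + c) - (a + b) := by abel
      rw [this, h, zero_sub]
    rw [h2, norm_neg, norm_add_sq_real, norm_sub_sq_real, real_inner_comm]; ring
  have sqle : ∀ y : E, ‖y‖ ≤ 1 → ‖y‖ ^ 2 ≤ 1 := by
    intro y h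
    have := norm_nonneg y
    nlinarith
  have pos : ∀ a b : E, a ≠ b → 0 < ‖a - b‖ := fun a b h => norm_pos_iff.2 (sub_ne_zero.2 h)
  refine core6 (1 - (inner ℝ p0 p2 : ℝ)) (1 - (inner ℝ p0 p4 : ℝ)) (‖p2‖ ^ 2) (‖p4‖ ^ 2)
    ‖p2 - p0‖ ‖p4 - p0‖ ‖p4 - p2‖ (1 - (inner ℝ p0 y1 : ℝ)) (1 - (inner ℝ p0 y3 : ℝ)) (1 - (inner ℝ p0 y5 : ℝ))
    ‖y1 - p0‖ ‖y3 - p0‖ ‖y5 - p0‖ (‖y1‖ ^ 2) (‖y3‖ ^ 2) (‖y5‖ ^ 2) ‖y3 - y1‖ ‖y5 - y3‖ ‖y5 - y1‖ _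
    (by linarith only [hg]) (by linarith only [hle]) (cs p2) (cs p4) cs2 hs24 (by positivity) (sqle p4 h4)
    hA' (by linarith only [ha]) (pos _ _ d10) (pos _ _ d30) (pos _ _ d50) (cs y1) (cs y3) (cs y5)
    (sq y1) (sq y3) (sq y5) (sqle _ k1) (sqle _ k3) (sqle _ k5) (pos _ _ d13) (pos _ _ d35) (pos _ _ d15)
    (fn y1 y3 y5 hN) (fn y3 y5 y1 (by rw [← hN]; abel)) (fn y1 y5 y3 (by rw [← hN]; abel)) ?_ hB
  have q := fun (a b : E) (h : a ≠ b) => inv_tangent ‖a - b‖ (pos a b h)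
  have t1 := q _ _ d10
  have t2 := q _ _ d12
  have t3 := q _ _ d14
  have t4 := q _ _ d30
  have t5 := q _ _ d32
  have t6 := q _ _ d34
  have t7 := q _ _ d50
  have t8 := q _ _ d52
  have t9 := q _ _ d54
  rw [norm_sub_sq_real] at t1 t2 t3 t4 t5 t6 t7 t8 t9
  rw [h0] at t1 t4 t7
  linarith only [t1, t2, t3, t4, t5, t6, t7, t8, t9, hin]

theorem six_static (p0 p2 p4 y1 y3 y5 : E) (h0 : ‖p0‖ = 1) (h2 : ‖p2‖ ≤ 1) (h4 : ‖p4‖ ≤ 1)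
    (k1 : ‖y1‖ ≤ 1) (k3 : ‖y3‖ ≤ 1) (k5 : ‖y5‖ ≤ 1)
    (hP : p0 + p2 + p4 = 0) (hN : y1 + y3 + y5 = 0)
    (d10 : y1 ≠ p0) (d12 : y1 ≠ p2) (d14 : y1 ≠ p4)
    (d30 : y3 ≠ p0) (d32 : y3 ≠ p2) (d34 : y3 ≠ p4)
    (d50 : y5 ≠ p0) (d52 : y5 ≠ p2) (d54 : y5 ≠ p4)
    (d13 : y3 ≠ y1) (d35 : y5 ≠ y3) (d15 : y5 ≠ y1)
    (hA : att (p2 - p0) + att (p4 - p0) = att (y1 - p0) + att (y3 - p0) + att (y5 - p0))
    (hB : ‖p2 - p0‖⁻¹ + ‖p4 - p0‖⁻¹ + ‖p4 - p2‖⁻¹ + ‖y3 - y1‖⁻¹ + ‖y5 - y3‖⁻¹ + ‖y5 - y1‖⁻¹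
      = ‖y1 - p0‖⁻¹ + ‖y1 - p2‖⁻¹ + ‖y1 - p4‖⁻¹ + ‖y3 - p0‖⁻¹ + ‖y3 - p2‖⁻¹ + ‖y3 - p4‖⁻¹
        + ‖y5 - p0‖⁻¹ + ‖y5 - p2‖⁻¹ + ‖y5 - p4‖⁻¹) : False := by
  rcases le_total (inner ℝ p0 p4 : ℝ) (inner ℝ p0 p2) with hle | hle
  · exact six_aux p0 p2 p4 y1 y3 y5 h0 h4 k1 k3 k5 hP hN d10 d12 d14 d30 d32 d34 d50 d52 d54 d13 d35 d15
      hA hB hle
  · refine six_aux p0 p4 p2 y1 y3 y5 h0 h2 k1 k3 k5 (by rw [← hP]; abel) hN d10 d14 d12 d30 d34 d32 d50 d54 d52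
      d13 d35 d15 (by rw [← hA]; abel) ?_ hle
    rw [norm_sub_rev p2 p4]
    linarith only [hB]

theorem four_core (a b p q g : ℝ) (ha : 0 < a) (hb : 0 < b) (hp : 0 < p) (hq : 0 < q)
    (hp2 : p ^ 2 = (a ^ 2 + b ^ 2 - 2 * g) / 4) (hq2 : q ^ 2 = (a ^ 2 + b ^ 2 + 2 * g) / 4)
    (e0 : a⁻¹ = (a ^ 2 - g) / 2 / p ^ 3 + (a ^ 2 + g) / 2 / q ^ 3)
    (e1 : b⁻¹ = (b ^ 2 + g) / 2 / q ^ 3 + (b ^ 2 - g) / 2 / p ^ 3)
    (hpa : p ≤ (a + b) / 2) (hqa : q ≤ (a + b) / 2) : False := by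
  have hsub : a⁻¹ - b⁻¹ = (a ^ 2 - b ^ 2) * ((p ^ 3)⁻¹ / 2 + (q ^ 3)⁻¹ / 2) := by
    rw [e0, e1]; field_simp; ring
  have hpos : 0 < (p ^ 3)⁻¹ / 2 + (q ^ 3)⁻¹ / 2 := by positivity
  have hab : a = b := by
    rcases lt_trichotomy a b with h | h | h
    · have h1 : b⁻¹ < a⁻¹ := by
        rw [inv_lt_inv₀ hb ha]; exact h
      have h2 : a ^ 2 - b ^ 2 < 0 := by nlinarith
      have := mul_neg_of_neg_of_pos h2 hpos
      linarith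
    · exact h
    · have h1 : a⁻¹ < b⁻¹ := by
        rw [inv_lt_inv₀ ha hb]; exact h
      have h2 : 0 < a ^ 2 - b ^ 2 := by nlinarith
      have := mul_pos h2 hpos
      linarith
  subst hab
  have h1 : (a ^ 2 - g) / 2 = p ^ 2 := by rw [hp2]; ring
  have h2 : (a ^ 2 + g) / 2 = q ^ 2 := by rw [hq2]; ring
  rw [h1, h2] at e0
  have h3 : p ^ 2 / p ^ 3 = p⁻¹ := by field_simp
  have h4 : q ^ 2 / q ^ 3 = q⁻¹ := by field_simp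
  rw [h3, h4] at e0
  have h5 : a⁻¹ ≤ p⁻¹ := inv_anti₀ hp (by linarith)
  have h6 : a⁻¹ ≤ q⁻¹ := inv_anti₀ hq (by linarith)
  have h7 : 0 < a⁻¹ := by positivity
  linarith

/-- four points: two pairs with the same midpoint and equal pulls -/
theorem four_pts (w0 w1 w2 w3 : E) (hM : w0 + w2 = w1 + w3)
    (d01 : w1 ≠ w0) (d02 : w2 ≠ w0) (d03 : w3 ≠ w0) (d13 : w3 ≠ w1)
    (h0 : att (w2 - w0) = att (w1 - w0) + att (w3 - w0))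
    (h1 : att (w3 - w1) = att (w2 - w1) + att (w0 - w1)) : False := by
  obtain ⟨U, hU⟩ : ∃ U, U = w2 - w0 := ⟨_, rfl⟩
  obtain ⟨V, hV⟩ : ∃ V, V = w3 - w1 := ⟨_, rfl⟩
  have r1 : w1 - w0 = (1 / 2 : ℝ) • (U - V) := by
    have : U - V = (2 : ℝ) • (w1 - w0) := by
      rw [hU, hV, two_smul]
      have : w2 = w1 + w3 - w0 := by rw [← hM]; abel
      rw [this]; abel
    rw [this, smul_smul]; norm_num
  have r2 : w3 - w0 = (1 / 2 : ℝ) • (U + V) := by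
    have : U + V = (2 : ℝ) • (w3 - w0) := by
      rw [hU, hV, two_smul]
      have : w2 = w1 + w3 - w0 := by rw [← hM]; abel
      rw [this]; abel
    rw [this, smul_smul]; norm_num
  have r3 : w2 - w1 = (1 / 2 : ℝ) • (U + V) := by
    rw [← r2]
    have : w2 = w1 + w3 - w0 := by rw [← hM]; abel
    rw [this]; abel
  have r4 : w0 - w1 = (1 / 2 : ℝ) • (V - U) := by
    have : w0 - w1 = - (w1 - w0) := by abel
    rw [this, r1, ← smul_neg]; congr 1; abel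
  have nU : U ≠ 0 := by rw [hU]; exact sub_ne_zero.2 d02
  have nV : V ≠ 0 := by rw [hV]; exact sub_ne_zero.2 d13
  have nm : (1 / 2 : ℝ) • (U - V) ≠ 0 := by rw [← r1]; exact sub_ne_zero.2 d01
  have np : (1 / 2 : ℝ) • (U + V) ≠ 0 := by rw [← r2]; exact sub_ne_zero.2 d03
  rw [← hU, r1, r2] at h0
  rw [← hV, r3, r4] at h1
  have e0 := congrArg (fun v => (inner ℝ U v : ℝ)) h0
  have e1 := congrArg (fun v => (inner ℝ V v : ℝ)) h1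
  simp only [inner_add_right, inner_self_att, inner_att, real_inner_smul_right, inner_sub_right,
    real_inner_self_eq_norm_sq] at e0 e1
  have nVU : ‖(1 / 2 : ℝ) • (V - U)‖ = ‖(1 / 2 : ℝ) • (U - V)‖ := by
    rw [norm_smul, norm_smul, norm_sub_rev]
  rw [nVU, real_inner_comm U V] at e1
  refine four_core ‖U‖ ‖V‖ ‖(1 / 2 : ℝ) • (U - V)‖ ‖(1 / 2 : ℝ) • (U + V)‖ (inner ℝ U V)
    (norm_pos_iff.2 nU) (norm_pos_iff.2 nV) (norm_pos_iff.2 nm) (norm_pos_iff.2 np) ?_ ?_ ?_ ?_ ?_ ?_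
  · rw [norm_smul, mul_pow, norm_sub_sq_real]; norm_num; ring
  · rw [norm_smul, mul_pow, norm_add_sq_real]; norm_num; ring
  · rw [e0]; ring
  · rw [e1]; ring
  · rw [norm_smul]; have := norm_sub_le U V; norm_num; linarith
  · rw [norm_smul]; have := norm_add_le U V; norm_num; linarith

theorem neg_inner (b v : E) (hb : b ≠ 0) (hv : v ≠ 0) (hbv : b + v ≠ 0)
    (h : att (b + v) = att b + att v) : (inner ℝ b v : ℝ) < 0 := by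
  by_contra hc
  push Not at hc
  have e := congrArg (fun w => (inner ℝ v w : ℝ)) h
  simp only [inner_add_right, inner_self_att, inner_att, real_inner_self_eq_norm_sq] at e
  rw [real_inner_comm b v] at e
  have pb := norm_pos_iff.2 hb
  have pv := norm_pos_iff.2 hv
  have pbv := norm_pos_iff.2 hbv
  have hs := norm_add_sq_real b v
  have l1 : ‖b‖ ≤ ‖b + v‖ := by nlinarith
  have l2 : ‖v‖ < ‖b + v‖ := by nlinarith
  have l3 : ‖b‖ ^ 3 ≤ ‖b + v‖ ^ 3 := by gcongr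
  have l4 : ‖v‖ ^ 3 < ‖b + v‖ ^ 3 := by gcongr
  have m1 : inner ℝ b v / ‖b + v‖ ^ 3 ≤ inner ℝ b v / ‖b‖ ^ 3 := by gcongr
  have m2 : ‖v‖ ^ 2 / ‖b + v‖ ^ 3 < ‖v‖ ^ 2 / ‖v‖ ^ 3 := by gcongr
  have m3 : ‖v‖ ^ 2 / ‖v‖ ^ 3 = ‖v‖⁻¹ := by field_simp
  rw [add_div] at e
  linarith

/-- order six -/
theorem order_six (X : ZMod 6 → E) (hX : Function.Injective X)
    (hM : ∀ i, X i - X (i + 2) - X (i + 3) + X (i + 5) = 0)
    (hE : ∀ i, att (X (i + 5) - X i) = att (X (i + 2) - X i) + att (X (i + 3) - X i)) : False := by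
  have ne : ∀ i k : ZMod 6, k ≠ 0 → X (i + k) - X i ≠ 0 := by
    intro i k hk h
    have := hX (sub_eq_zero.1 h)
    exact hk (by simpa using this)
  have hv : ∀ i, X (i + 5) - X (i + 2) = X (i + 3) - X i := by
    intro i
    have h : X (i + 5) - X (i + 2) - (X (i + 3) - X i) = X i - X (i + 2) - X (i + 3) + X (i + 5) := by abel
    rw [hM i] at h
    exact sub_eq_zero.1 h
  have hneg : ∀ i, (inner ℝ (X (i + 2) - X i) (X (i + 3) - X i) : ℝ) < 0 := by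
    intro i
    have hs : X (i + 5) - X i = (X (i + 2) - X i) + (X (i + 3) - X i) := by rw [← hv i]; abel
    have h := hE i
    rw [hs] at h
    refine neg_inner _ _ (ne i 2 (by decide)) (ne i 3 (by decide)) ?_ h
    rw [← hs]; exact ne i 5 (by decide)
  have h0 := hneg 0
  have h2 := hneg 2
  have h4 := hneg 4
  have v0 := hv 0
  have v2 := hv 2
  rw [show (0 + 5 : ZMod 6) = 5 by decide, show (0 + 2 : ZMod 6) = 2 by decide,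
    show (0 + 3 : ZMod 6) = 3 by decide] at v0
  rw [show (2 + 5 : ZMod 6) = 1 by decide, show (2 + 2 : ZMod 6) = 4 by decide,
    show (2 + 3 : ZMod 6) = 5 by decide] at v2
  rw [show (0 + 2 : ZMod 6) = 2 by decide, show (0 + 3 : ZMod 6) = 3 by decide] at h0
  rw [show (2 + 2 : ZMod 6) = 4 by decide, show (2 + 3 : ZMod 6) = 5 by decide, v0] at h2
  rw [show (4 + 2 : ZMod 6) = 0 by decide, show (4 + 3 : ZMod 6) = 1 by decide, v2, v0] at h4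
  have hs : (inner ℝ (X 2 - X 0) (X 3 - X 0) : ℝ) + inner ℝ (X 4 - X 2) (X 3 - X 0)
      + inner ℝ (X 0 - X 4) (X 3 - X 0) = 0 := by
    rw [← inner_add_left, ← inner_add_left]
    have : X 2 - X 0 + (X 4 - X 2) + (X 0 - X 4) = 0 := by abel
    rw [this, inner_zero_left]
  linarith

end geometry

end Pool.Agent.Helper37.Choreo
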