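import Pool.Agent.Helper37.ChoreoSmall2

set_option autoImplicit false

namespace Pool.Agent.Helper37.Choreo

section main1

variable {E : Type*} [NormedAddCommGroup E] [InnerProductSpace ℝ E]
variable {n : ℕ} [NeZero n] {μ : ZMod n → ℝ} {x : ℝ → E} {T : ℝ}

theorem Dyn.stat (h : Dyn n μ x T) {ζ : ℂ} (hζ : ζ ^ n = 1) (h1 : ζ ≠ 1)
    (hA : ∑ j : ZMod n, ζ ^ j.val * (μ j : ℂ) ≠ 0) (t : ℝ) : Stat n (pos n x T t) ζ := by
  obtain ⟨Kr, Ki⟩ := h.KK_re_im hζ h1 hA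
  have hs := chi_sum hζ h1
  have sr : ∑ k : ZMod n, (ζ ^ k.val).re = 0 := by
    have := congrArg Complex.re hs
    rwa [Complex.re_sum, Complex.zero_re] at this
  have si : ∑ k : ZMod n, (ζ ^ k.val).im = 0 := by
    have := congrArg Complex.im hs
    rwa [Complex.im_sum, Complex.zero_im] at this
  refine ⟨h.inj t, fun i => ?_, fun i => ?_, fun i => ?_, fun i => ?_⟩
  · have := Kr.static h.per t i 0
    simpa only [zero_add] using this
  · have := Ki.static h.per t i 0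
    simpa only [zero_add] using this
  · have := h.moment Kr sr (t + (i.val : ℝ) * T / n)
    simpa only [pos_shift h.per] using this
  · have := h.moment Ki si (t + (i.val : ℝ) * T / n)
    simpa only [pos_shift h.per] using this

/-- the dynamical case `n = 6`, `ζ = -1` -/
theorem six_neg {μ : ZMod 6 → ℝ} (h : Dyn 6 μ x T)
    (hA : ∑ j : ZMod 6, (-1 : ℂ) ^ j.val * (μ j : ℂ) ≠ 0) : False := by
  have hst : ∀ t, Stat 6 (pos 6 x T t) (-1) := fun t =>
    h.stat (by norm_num) (by norm_num) hA t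
  -- the centre
  obtain ⟨C, hC⟩ : ∃ C : E, C = (1 / 6 : ℝ) • ∑ k, pos 6 x T 0 k := ⟨_, rfl⟩
  have hC' : ∀ t, ∑ k, pos 6 x T t k = (6 : ℝ) • C := by
    intro t
    rw [hC, smul_smul, h.center_const t 0]; norm_num
  have v0 : (0 : ZMod 6).val = 0 := rfl
  have v1 : (1 : ZMod 6).val = 1 := rfl
  have v2 : (2 : ZMod 6).val = 2 := rfl
  have v3 : (3 : ZMod 6).val = 3 := rfl
  have v4 : (4 : ZMod 6).val = 4 := rfl
  have v5 : (5 : ZMod 6).val = 5 := rfl
  have p0 : ((-1 : ℂ) ^ 0).re = 1 := by norm_num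
  have p1 : ((-1 : ℂ) ^ 1).re = -1 := by norm_num
  have p2 : ((-1 : ℂ) ^ 2).re = 1 := by norm_num
  have p3 : ((-1 : ℂ) ^ 3).re = -1 := by norm_num
  have p4 : ((-1 : ℂ) ^ 4).re = 1 := by norm_num
  have p5 : ((-1 : ℂ) ^ 5).re = -1 := by norm_num
  -- maximise the distance to the centre
  have hcont : Continuous fun t => ‖x t - C‖ := (h.smooth.continuous.sub continuous_const).norm
  have hper : Function.Periodic (fun t => ‖x t - C‖) T := fun t => by simp only; rw [h.per t]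
  obtain ⟨t0, ht0⟩ : ∃ t0, ∀ t, ‖x t - C‖ ≤ ‖x t0 - C‖ := by
    obtain ⟨t0, _, ht0⟩ := (isCompact_Icc (a := (0 : ℝ)) (b := T)).exists_isMaxOn
      ⟨0, by simp [h.T_pos.le]⟩ hcont.continuousOn
    refine ⟨t0, fun t => ?_⟩
    obtain ⟨s, hs, hs2⟩ := hper.exists_mem_Ico₀ h.T_pos t
    have hs2' : ‖x t - C‖ = ‖x s - C‖ := hs2
    rw [hs2']
    exact ht0 ⟨hs.1, hs.2.le⟩
  obtain ⟨R, hR⟩ : ∃ R, R = ‖x t0 - C‖ := ⟨_, rfl⟩
  obtain ⟨X, hX⟩ : ∃ X : ZMod 6 → E, X = pos 6 x T t0 := ⟨_, rfl⟩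
  have hXb : ∀ k, ‖X k - C‖ ≤ R := by
    intro k; rw [hX, hR]; exact ht0 _
  have hX0 : ‖X 0 - C‖ = R := by rw [hX, pos_zero, hR]
  have S : Stat 6 X (-1) := hX ▸ hst t0
  have hinj := S.inj
  have hRpos : 0 < R := by
    rcases (norm_nonneg (x t0 - C)).lt_or_eq with h0 | h0
    · rw [hR]; exact h0
    · exfalso
      have hz : ∀ k, X k = C := by
        intro k
        have := hXb k
        rw [hR, ← h0] at this
        exact sub_eq_zero.1 (norm_le_zero_iff.1 this)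
      exact absurd (hinj ((hz 0).trans (hz 1).symm)) (by decide)
  -- centres of the triples
  have hsumX : ∑ k, X k = (6 : ℝ) • C := by rw [hX]; exact hC' t0
  have hm := S.Mre 0
  rw [sum6, v0, v1, v2, v3, v4, v5, p0, p1, p2, p3, p4, p5] at hm
  rw [sum6] at hsumX
  simp only [zero_add, add_zero] at hm
  have hE0 : X 0 + X 2 + X 4 = (3 : ℝ) • C := by
    have e : X 0 + X 2 + X 4 = (1 / 2 : ℝ) • ((X 0 + X 1 + X 2 + X 3 + X 4 + X 5) +
      ((1 : ℝ) • X 0 + (-1 : ℝ) • X 1 + (1 : ℝ) • X 2 + (-1 : ℝ) • X 3 + (1 : ℝ) • X 4 + (-1 : ℝ) • X 5)) := by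
      module
    rw [e, hm, hsumX, add_zero, smul_smul]; norm_num
  have hO0 : X 1 + X 3 + X 5 = (3 : ℝ) • C := by
    have e : X 1 + X 3 + X 5 = (1 / 2 : ℝ) • ((X 0 + X 1 + X 2 + X 3 + X 4 + X 5) -
      ((1 : ℝ) • X 0 + (-1 : ℝ) • X 1 + (1 : ℝ) • X 2 + (-1 : ℝ) • X 3 + (1 : ℝ) • X 4 + (-1 : ℝ) • X 5)) := by
      module
    rw [e, hm, hsumX, sub_zero, smul_smul]; norm_num
  -- the scaled configuration
  have hRinv : 0 < R⁻¹ := inv_pos.2 hRpos
  have hd : ∀ i j, R⁻¹ • (X i - C) - R⁻¹ • (X j - C) = R⁻¹ • (X i - X j) := by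
    intro i j; rw [← smul_sub]; congr 1; abel
  have hne : ∀ i j, i ≠ j → R⁻¹ • (X i - C) ≠ R⁻¹ • (X j - C) := by
    intro i j hij he
    have := sub_eq_zero.2 he
    rw [hd] at this
    have h2 := (smul_eq_zero.1 this).resolve_left hRinv.ne'
    exact hij (hinj (sub_eq_zero.1 h2))
  have hnb : ∀ i, ‖R⁻¹ • (X i - C)‖ ≤ 1 := by
    intro i
    rw [norm_smul, Real.norm_of_nonneg hRinv.le]
    have : R⁻¹ * ‖X i - C‖ ≤ R⁻¹ * R := by gcongr; exact hXb i
    rwa [inv_mul_cancel₀ hRpos.ne'] at this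
  have hni : ∀ i j, ‖R⁻¹ • (X i - C) - R⁻¹ • (X j - C)‖⁻¹ = R * ‖X i - X j‖⁻¹ := by
    intro i j
    rw [hd, norm_smul, Real.norm_of_nonneg hRinv.le, mul_inv, inv_inv]
  have hatt : ∀ i j, att (R⁻¹ • (X i - C) - R⁻¹ • (X j - C)) = (R ^ 2) • att (X i - X j) := by
    intro i j
    rw [hd, att_smul _ hRinv]
    congr 1
    rw [inv_pow, inv_inv]
  have ha0 := S.Ere 0
  rw [sum6, v0, v1, v2, v3, v4, v5, p0, p1, p2, p3, p4, p5] at ha0
  simp only [zero_add, add_zero, sub_self, att_zero, smul_zero] at ha0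
  have hc : ∀ k : ZMod 6, ((-1 : ℂ) ^ (-k).val).re = ((-1 : ℂ) ^ k.val).re := by
    intro k
    have := chi_conj (n := 6) (ζ := -1) (by norm_num) k
    have h2 := congrArg Complex.re this
    rw [Complex.conj_re] at h2
    exact h2
  have en := energy X (fun k => ((-1 : ℂ) ^ k.val).re) hc S.Ere
  simp only [sum6] at en
  rw [v0, v1, v2, v3, v4, v5, p0, p1, p2, p3, p4, p5] at en
  simp only [zero_add, add_zero, sub_self, norm_zero, inv_zero, mul_zero, one_mul,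
    show (1 + 1 : ZMod 6) = 2 by decide, show (1 + 2 : ZMod 6) = 3 by decide,
    show (1 + 3 : ZMod 6) = 4 by decide, show (1 + 4 : ZMod 6) = 5 by decide,
    show (1 + 5 : ZMod 6) = 0 by decide,
    show (2 + 1 : ZMod 6) = 3 by decide, show (2 + 2 : ZMod 6) = 4 by decide,
    show (2 + 3 : ZMod 6) = 5 by decide, show (2 + 4 : ZMod 6) = 0 by decide,
    show (2 + 5 : ZMod 6) = 1 by decide,
    show (3 + 1 : ZMod 6) = 4 by decide, show (3 + 2 : ZMod 6) = 5 by decide,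
    show (3 + 3 : ZMod 6) = 0 by decide, show (3 + 4 : ZMod 6) = 1 by decide,
    show (3 + 5 : ZMod 6) = 2 by decide,
    show (4 + 1 : ZMod 6) = 5 by decide, show (4 + 2 : ZMod 6) = 0 by decide,
    show (4 + 3 : ZMod 6) = 1 by decide, show (4 + 4 : ZMod 6) = 2 by decide,
    show (4 + 5 : ZMod 6) = 3 by decide,
    show (5 + 1 : ZMod 6) = 0 by decide, show (5 + 2 : ZMod 6) = 1 by decide,
    show (5 + 3 : ZMod 6) = 2 by decide, show (5 + 4 : ZMod 6) = 3 by decide,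
    show (5 + 5 : ZMod 6) = 4 by decide] at en
  refine six_static (R⁻¹ • (X 0 - C)) (R⁻¹ • (X 2 - C)) (R⁻¹ • (X 4 - C)) (R⁻¹ • (X 1 - C))
    (R⁻¹ • (X 3 - C)) (R⁻¹ • (X 5 - C)) ?_ (hnb 2) (hnb 4) (hnb 1) (hnb 3) (hnb 5) ?_ ?_
    (hne _ _ (by decide)) (hne _ _ (by decide)) (hne _ _ (by decide)) (hne _ _ (by decide))
    (hne _ _ (by decide)) (hne _ _ (by decide)) (hne _ _ (by decide)) (hne _ _ (by decide))
    (hne _ _ (by decide)) (hne _ _ (by decide)) (hne _ _ (by decide)) (hne _ _ (by decide)) ?_ ?_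
  · rw [norm_smul, Real.norm_of_nonneg hRinv.le, hX0, inv_mul_cancel₀ hRpos.ne']
  · rw [← smul_add, ← smul_add]
    have : X 0 - C + (X 2 - C) + (X 4 - C) = (X 0 + X 2 + X 4) - (3 : ℝ) • C := by module
    rw [this, hE0, sub_self, smul_zero]
  · rw [← smul_add, ← smul_add]
    have : X 1 - C + (X 3 - C) + (X 5 - C) = (X 1 + X 3 + X 5) - (3 : ℝ) • C := by module
    rw [this, hO0, sub_self, smul_zero]
  · rw [hatt, hatt, hatt, hatt, hatt, ← smul_add, ← smul_add, ← smul_add]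
    congr 1
    have e : att (X 2 - X 0) + att (X 4 - X 0) - (att (X 1 - X 0) + att (X 3 - X 0) + att (X 5 - X 0))
      = (-1 : ℝ) • att (X 1 - X 0) + (1 : ℝ) • att (X 2 - X 0) + (-1 : ℝ) • att (X 3 - X 0)
        + (1 : ℝ) • att (X 4 - X 0) + (-1 : ℝ) • att (X 5 - X 0) := by module
    exact sub_eq_zero.1 (e.trans ha0)
  · simp only [hni]
    have n01 := norm_sub_rev (X 0) (X 1)
    have n02 := norm_sub_rev (X 0) (X 2)
    have n03 := norm_sub_rev (X 0) (X 3)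
    have n04 := norm_sub_rev (X 0) (X 4)
    have n05 := norm_sub_rev (X 0) (X 5)
    have n12 := norm_sub_rev (X 1) (X 2)
    have n13 := norm_sub_rev (X 1) (X 3)
    have n14 := norm_sub_rev (X 1) (X 4)
    have n15 := norm_sub_rev (X 1) (X 5)
    have n23 := norm_sub_rev (X 2) (X 3)
    have n24 := norm_sub_rev (X 2) (X 4)
    have n25 := norm_sub_rev (X 2) (X 5)
    have n34 := norm_sub_rev (X 3) (X 4)
    have n35 := norm_sub_rev (X 3) (X 5)
    have n45 := norm_sub_rev (X 4) (X 5)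
    rw [n01, n02, n03, n04, n05, n12, n13, n14, n15, n23, n24, n25, n34, n35, n45] at en
    rw [n12, n14, n34]
    linear_combination (R / 2) * en

end main1

end Pool.Agent.Helper37.Choreo
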