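import Pool.Agent.Helper37.ChoreoMain

set_option autoImplicit false

namespace Pool.Agent.Helper37.Choreo

section main2

variable {E : Type*} [NormedAddCommGroup E] [InnerProductSpace ℝ E]
variable {n : ℕ} [NeZero n] {μ : ZMod n → ℝ} {x : ℝ → E} {T : ℝ}

theorem const_of_step {v : ZMod n → ℝ} (h : ∀ k, v (1 + k) = v k) (i j : ZMod n) : v i = v j := by
  have h0 : ∀ a : ℕ, v (a : ZMod n) = v 0 := by
    intro a
    induction a with
    | zero => rw [Nat.cast_zero]
    | succ a ih => rw [Nat.cast_succ, add_comm, h, ih]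
  have h1 : ∀ i : ZMod n, v i = v 0 := by
    intro i
    have := h0 i.val
    rwa [ZMod.natCast_zmod_val] at this
  rw [h1 i, h1 j]

theorem const_of_inactive (hA : ∀ ζ : ℂ, ζ ^ n = 1 → ζ ≠ 1 → ∑ j : ZMod n, ζ ^ j.val * (μ j : ℂ) = 0)
    (i j : ZMod n) : μ i = μ j := by
  refine const_of_step (v := μ) (fun k => ?_) i j
  have := periodic_of (fun k => (μ k : ℂ)) 1 (fun ζ hζ h1 => hA ζ hζ ?_) k
  · exact_mod_cast this
  · intro h2
    apply h1
    rw [h2, one_pow]

theorem Dyn.small (h : Dyn n μ x T) (hn : n ≤ 6) (i j : ZMod n) : μ i = μ j := by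
  refine const_of_inactive (fun ζ hζ h1 => ?_) i j
  by_contra hA
  have hst : Stat n (pos n x T 0) ζ := h.stat hζ h1 hA 0
  have h1' : ζ - 1 ≠ 0 := sub_ne_zero.2 h1
  have hn0 : n ≠ 0 := NeZero.ne n
  interval_cases n
  · exact hn0 rfl
  · exact h1 (by simpa using hζ)
  · have : ζ = -1 := by
      have e : (ζ - 1) * (ζ + 1) = 0 := by linear_combination hζ
      exact eq_neg_of_add_eq_zero_left ((mul_eq_zero.1 e).resolve_left h1')
    subst this
    exact stat2 _ hst
  · have : ζ ^ 2 + ζ + 1 = 0 := by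
      have e : (ζ - 1) * (ζ ^ 2 + ζ + 1) = 0 := by linear_combination hζ
      exact (mul_eq_zero.1 e).resolve_left h1'
    exact stat3 _ ζ this hst
  · have e : (ζ - 1) * ((ζ + 1) * (ζ ^ 2 + 1)) = 0 := by linear_combination hζ
    rcases mul_eq_zero.1 ((mul_eq_zero.1 e).resolve_left h1') with e1 | e1
    · have : ζ = -1 := eq_neg_of_add_eq_zero_left e1
      subst this
      exact stat4_neg _ hst
    · exact stat4_i _ ζ (eq_neg_of_add_eq_zero_left e1) hst
  · exact stat5 _ ζ hζ h1 hst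
  · have e : (ζ - 1) * ((ζ + 1) * ((ζ ^ 2 + ζ + 1) * (ζ ^ 2 - ζ + 1))) = 0 := by linear_combination hζ
    rcases mul_eq_zero.1 ((mul_eq_zero.1 e).resolve_left h1') with e1 | e1
    · have : ζ = -1 := eq_neg_of_add_eq_zero_left e1
      subst this
      exact six_neg h hA
    · rcases mul_eq_zero.1 e1 with e2 | e2
      · exact stat6_b _ ζ e2 hst
      · exact stat6_a _ ζ e2 hst

theorem Dyn.exists_inactive (h : Dyn n μ x T) (p : ℕ) (hp : p.Prime) (hpn : p ∣ n) :
    ∃ ζ : ℂ, ζ ^ n = 1 ∧ ζ ^ (n / p) ≠ 1 ∧ ∑ j : ZMod n, ζ ^ j.val * (μ j : ℂ) = 0 := by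
  by_contra hc
  push Not at hc
  have hn : 0 < n := Nat.pos_of_ne_zero (NeZero.ne n)
  have hlt : n / p < n := Nat.div_lt_self hn hp.one_lt
  have hpos : 0 < n / p := Nat.div_pos (Nat.le_of_dvd hn hpn) hp.pos
  have hval : ((n / p : ℕ) : ZMod n).val = n / p := ZMod.val_cast_of_lt hlt
  have hr : ((n / p : ℕ) : ZMod n) ≠ 0 := by
    intro h0
    rw [h0, ZMod.val_zero] at hval
    omega
  have hG : G n x T 0 ((n / p : ℕ) : ZMod n) = 0 := by
    refine inner_self_eq_zero (𝕜 := ℝ).1 ?_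
    have key : ∀ e : E, (inner ℝ e (G n x T 0 ((n / p : ℕ) : ZMod n)) : ℝ) = 0 := by
      intro e
      have h2 := periodic_of (fun k => ((inner ℝ e (G n x T 0 k) : ℝ) : ℂ)) ((n / p : ℕ) : ZMod n)
        (fun ζ hζ h1 => ?_) 0
      · simp only [add_zero] at h2
        have h3 : G n x T 0 0 = 0 := by unfold G; rw [sub_self, att_zero]
        rw [h3, inner_zero_right] at h2
        exact_mod_cast h2
      · rw [hval] at h1
        refine transform_zero (h.gamma 0 e) hζ ?_ (hc ζ hζ h1)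
        intro h4; apply h1; rw [h4, one_pow]
    exact key _
  have hne : pos n x T 0 ((n / p : ℕ) : ZMod n) - pos n x T 0 0 ≠ 0 := by
    intro h0
    exact hr (h.inj 0 (sub_eq_zero.1 h0))
  exact att_ne_zero hne hG

theorem Dyn.one_odd (h : Dyn n μ x T) (i0 : ZMod n) (b : ℝ) (hb : ∀ i, i ≠ i0 → μ i = b) (i j : ZMod n) :
    μ i = μ j := by
  by_cases hn1 : n = 1
  · subst hn1
    have : i = j := Subsingleton.elim (α := Fin 1) i j
    rw [this]
  obtain ⟨p, hp, hpn⟩ := Nat.exists_prime_and_dvd hn1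
  obtain ⟨ζ, hζ, hζ1, hs⟩ := h.exists_inactive p hp hpn
  have h1 : ζ ≠ 1 := by intro h4; apply hζ1; rw [h4, one_pow]
  have hs0 := chi_sum hζ h1
  have e : ζ ^ i0.val * ((μ i0 - b : ℝ) : ℂ) = 0 := by
    have e1 : ∑ j : ZMod n, ζ ^ j.val * (((μ j - b : ℝ)) : ℂ) = 0 := by
      have : ∀ j : ZMod n, ζ ^ j.val * (((μ j - b : ℝ)) : ℂ) = ζ ^ j.val * (μ j : ℂ) - ζ ^ j.val * (b : ℂ) := by
        intro j; push_cast; ring
      simp only [this]
      rw [Finset.sum_sub_distrib, hs, ← Finset.sum_mul, hs0, zero_mul, sub_zero]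
    rw [← e1, Finset.sum_eq_single i0]
    · intro j _ hj
      rw [hb j hj, sub_self, Complex.ofReal_zero, mul_zero]
    · intro h; exact absurd (Finset.mem_univ _) h
  have hz : ζ ^ i0.val ≠ 0 := by
    apply pow_ne_zero
    intro h0
    rw [h0, zero_pow (NeZero.ne n)] at hζ
    exact zero_ne_one hζ
  have e2 := (mul_eq_zero.1 e).resolve_left hz
  have e3 : μ i0 - b = 0 := by exact_mod_cast e2
  have e4 : ∀ i, μ i = b := by
    intro i
    by_cases hi : i = i0
    · rw [hi]; linarith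
    · exact hb i hi
  rw [e4 i, e4 j]

theorem Dyn.prime_power (h : Dyn n μ x T) (p a : ℕ) (hp : p.Prime) (hn : n = p ^ (a + 1))
    (q : ZMod n → ℚ) (c : ℝ) (hc : c ≠ 0) (hq : ∀ i, μ i = q i * c) (i j : ZMod n)
    (hij : i.val % p ^ a = j.val % p ^ a) : μ i = μ j := by
  have hpa : n / p = p ^ a := by
    rw [hn, pow_succ, Nat.mul_div_cancel _ hp.pos]
  obtain ⟨ζ, hζ, hζ1, hs⟩ := h.exists_inactive p hp (by rw [hn]; exact dvd_pow_self p (Nat.succ_ne_zero a))
  rw [hpa] at hζ1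
  have prim : ∀ η : ℂ, η ^ n = 1 → η ^ (p ^ a) ≠ 1 → IsPrimitiveRoot η n := by
    intro η h1 h2
    have : Fact p.Prime := ⟨hp⟩
    have h3 : orderOf η = p ^ (a + 1) := orderOf_eq_prime_pow h2 (hn ▸ h1)
    rw [hn, ← h3]
    exact IsPrimitiveRoot.orderOf η
  obtain ⟨P, hP⟩ : ∃ P : Polynomial ℚ, P = ∑ k : ZMod n, Polynomial.C (q k) * Polynomial.X ^ k.val := ⟨_, rfl⟩
  have hPe : ∀ η : ℂ, Polynomial.aeval η P = ∑ k : ZMod n, η ^ k.val * (q k : ℂ) := by
    intro η
    rw [hP, map_sum]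
    refine Finset.sum_congr rfl fun k _ => ?_
    rw [map_mul, map_pow, Polynomial.aeval_X, Polynomial.aeval_C, mul_comm]
    rfl
  have hz : Polynomial.aeval ζ P = 0 := by
    rw [hPe]
    have : (∑ k : ZMod n, ζ ^ k.val * (q k : ℂ)) * (c : ℂ) = 0 := by
      rw [← hs, Finset.sum_mul]
      refine Finset.sum_congr rfl fun k _ => ?_
      rw [hq k]; push_cast; ring
    exact (mul_eq_zero.1 this).resolve_right (by exact_mod_cast hc)
  have hnpos : 0 < n := Nat.pos_of_ne_zero (NeZero.ne n)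
  have hdvd : Polynomial.cyclotomic n ℚ ∣ P := by
    rw [Polynomial.cyclotomic_eq_minpoly_rat (prim ζ hζ hζ1) hnpos]
    exact minpoly.dvd ℚ ζ hz
  have hall : ∀ η : ℂ, η ^ n = 1 → η ^ (p ^ a) ≠ 1 → ∑ k : ZMod n, η ^ k.val * (q k : ℂ) = 0 := by
    intro η h1 h2
    rw [← hPe]
    obtain ⟨Q, hQ⟩ := hdvd
    rw [hQ, map_mul]
    have : Polynomial.aeval η (Polynomial.cyclotomic n ℚ) = 0 := by
      have h3 := (prim η h1 h2).isRoot_cyclotomic hnpos
      rw [Polynomial.IsRoot.def] at h3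
      rw [← Polynomial.eval_map_algebraMap, Polynomial.map_cyclotomic, h3]
    rw [this, zero_mul]
  have hlt : p ^ a < n := by rw [← hpa]; exact Nat.div_lt_self hnpos hp.one_lt
  have hval : ((p ^ a : ℕ) : ZMod n).val = p ^ a := ZMod.val_cast_of_lt hlt
  have hper : ∀ k, q ((p ^ a : ℕ) + k) = q k := by
    intro k
    have := periodic_of (fun k => (q k : ℂ)) ((p ^ a : ℕ) : ZMod n) (fun η h1 h2 => hall η h1 (by rwa [hval] at h2)) k
    exact_mod_cast this
  have hper2 : ∀ (b : ℕ) k, q ((b * p ^ a : ℕ) + k) = q k := by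
    intro b k
    induction b with
    | zero => simp
    | succ b ih =>
      have : (((b + 1) * p ^ a : ℕ) : ZMod n) + k = (p ^ a : ℕ) + ((b * p ^ a : ℕ) + k) := by
        push_cast; ring
      rw [this, hper, ih]
  have hred : ∀ i : ZMod n, q i = q ((i.val % p ^ a : ℕ) : ZMod n) := by
    intro i
    have h1 : i = ((i.val / p ^ a * p ^ a : ℕ) : ZMod n) + ((i.val % p ^ a : ℕ) : ZMod n) := by
      rw [← Nat.cast_add, Nat.div_add_mod', ZMod.natCast_zmod_val]
    conv_lhs => rw [h1]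
    exact hper2 _ _
  rw [hq i, hq j, hred i, hred j, hij]

end main2

end Pool.Agent.Helper37.Choreo
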