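import Pool.Agent.Helper37.ChoreoFourier

set_option autoImplicit false

namespace Pool.Agent.Helper37.Choreo

section small

variable {E : Type*} [NormedAddCommGroup E] [InnerProductSpace ℝ E]

/-- static consequences at one time of an active root of unity -/
structure Stat (n : ℕ) [NeZero n] (X : ZMod n → E) (ζ : ℂ) : Prop where
  inj : Function.Injective X
  Ere : ∀ i, ∑ k : ZMod n, (ζ ^ k.val).re • att (X (i + k) - X i) = 0
  Eim : ∀ i, ∑ k : ZMod n, (ζ ^ k.val).im • att (X (i + k) - X i) = 0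
  Mre : ∀ i, ∑ k : ZMod n, (ζ ^ k.val).re • X (i + k) = 0
  Mim : ∀ i, ∑ k : ZMod n, (ζ ^ k.val).im • X (i + k) = 0

theorem Stat.ne {n : ℕ} [NeZero n] {X : ZMod n → E} {ζ : ℂ} (h : Stat n X ζ) (i k : ZMod n) (hk : k ≠ 0) :
    X (i + k) ≠ X i := by
  intro h1
  exact hk (by simpa using h.inj h1)

theorem Stat.att_ne {n : ℕ} [NeZero n] {X : ZMod n → E} {ζ : ℂ} (h : Stat n X ζ) (i k : ZMod n) (hk : k ≠ 0) :
    att (X (i + k) - X i) ≠ 0 := att_ne_zero (sub_ne_zero.2 (h.ne i k hk))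

theorem sum2 {M : Type*} [AddCommMonoid M] (f : ZMod 2 → M) : ∑ k, f k = f 0 + f 1 :=
  Fin.sum_univ_two f
theorem sum3 {M : Type*} [AddCommMonoid M] (f : ZMod 3 → M) : ∑ k, f k = f 0 + f 1 + f 2 :=
  Fin.sum_univ_three f
theorem sum4 {M : Type*} [AddCommMonoid M] (f : ZMod 4 → M) : ∑ k, f k = f 0 + f 1 + f 2 + f 3 :=
  Fin.sum_univ_four f
theorem sum5 {M : Type*} [AddCommMonoid M] (f : ZMod 5 → M) : ∑ k, f k = f 0 + f 1 + f 2 + f 3 + f 4 :=
  Fin.sum_univ_five f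
theorem sum6 {M : Type*} [AddCommMonoid M] (f : ZMod 6 → M) :
    ∑ k, f k = f 0 + f 1 + f 2 + f 3 + f 4 + f 5 :=
  Fin.sum_univ_six f

theorem stat2 (X : ZMod 2 → E) (h : Stat 2 X (-1)) : False := by
  have h1 := h.Ere 0
  rw [sum2] at h1
  have v0 : (0 : ZMod 2).val = 0 := rfl
  have v1 : (1 : ZMod 2).val = 1 := rfl
  rw [v0, v1] at h1
  simp only [add_zero, sub_self, att_zero, smul_zero, zero_add, pow_one, Complex.neg_re, Complex.one_re,
    neg_smul, one_smul, neg_eq_zero] at h1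
  have := h.att_ne 0 1 (by decide)
  rw [zero_add] at this
  exact this h1

theorem re_im_of {ζ w : ℂ} (h : ζ = w) : ζ.re = w.re ∧ ζ.im = w.im := by rw [h]; exact ⟨rfl, rfl⟩

/-- primitive cube roots of unity -/
theorem cube_facts {ζ : ℂ} (h : ζ ^ 2 + ζ + 1 = 0) :
    ζ.re = -1 / 2 ∧ (ζ ^ 2).re = -1 / 2 ∧ (ζ ^ 2).im = - ζ.im ∧ ζ.im ≠ 0 ∧ ζ ^ 3 = 1 := by
  have h2 : ζ ^ 2 = -1 - ζ := by linear_combination h
  have h3 : ζ ^ 3 = 1 := by linear_combination (ζ - 1) * h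
  obtain ⟨r, i⟩ := re_im_of h2
  rw [sq, Complex.mul_re] at r
  rw [sq, Complex.mul_im] at i
  simp only [Complex.sub_re, Complex.neg_re, Complex.one_re, Complex.sub_im, Complex.neg_im, Complex.one_im] at r i
  have him : ζ.im ≠ 0 := by
    intro h0
    rw [h0] at r
    nlinarith [sq_nonneg (ζ.re + 1 / 2)]
  have hre : ζ.re = -1 / 2 := by
    have : ζ.im * (2 * ζ.re + 1) = 0 := by linear_combination i
    have := (mul_eq_zero.1 this).resolve_left him
    linarith
  refine ⟨hre, ?_, ?_, him, h3⟩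
  · rw [h2]; simp only [Complex.sub_re, Complex.neg_re, Complex.one_re, hre]; norm_num
  · rw [h2]; simp only [Complex.sub_im, Complex.neg_im, Complex.one_im]; ring

theorem stat3 (X : ZMod 3 → E) (ζ : ℂ) (hζ : ζ ^ 2 + ζ + 1 = 0) (h : Stat 3 X ζ) : False := by
  obtain ⟨a, b, c, d, _⟩ := cube_facts hζ
  have h1 := h.Ere 0
  have h2 := h.Eim 0
  rw [sum3] at h1 h2
  have v0 : (0 : ZMod 3).val = 0 := rfl
  have v1 : (1 : ZMod 3).val = 1 := rfl
  have v2 : (2 : ZMod 3).val = 2 := rfl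
  rw [v0, v1, v2] at h1 h2
  simp only [pow_zero, pow_one, a, b, c, add_zero, sub_self, att_zero, smul_zero, zero_add] at h1 h2
  have e1 : ζ.im • (att (X 1 - X 0) - att (X 2 - X 0)) = 0 := by
    rw [smul_sub, ← h2, neg_smul]; abel
  have e2 := sub_eq_zero.1 ((smul_eq_zero.1 e1).resolve_left d)
  rw [← e2, ← add_smul] at h1
  have := (smul_eq_zero.1 h1).resolve_left (by norm_num)
  have h3 := h.att_ne 0 1 (by decide)
  rw [zero_add] at h3
  exact h3 this

theorem stat4_i (X : ZMod 4 → E) (ζ : ℂ) (hζ : ζ ^ 2 = -1) (h : Stat 4 X ζ) : False := by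
  have hre : ζ.re = 0 := by
    obtain ⟨r, i⟩ := re_im_of hζ
    rw [sq, Complex.mul_re] at r
    rw [sq, Complex.mul_im] at i
    simp only [Complex.neg_re, Complex.one_re, Complex.neg_im, Complex.one_im] at r i
    have : ζ.re * ζ.im = 0 := by linarith
    rcases mul_eq_zero.1 this with h | h
    · exact h
    · rw [h] at r; nlinarith [sq_nonneg ζ.re]
  have h3 : ζ ^ 3 = - ζ := by linear_combination ζ * hζ
  have h1 := h.Ere 0
  rw [sum4] at h1
  have v0 : (0 : ZMod 4).val = 0 := rfl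
  have v1 : (1 : ZMod 4).val = 1 := rfl
  have v2 : (2 : ZMod 4).val = 2 := rfl
  have v3 : (3 : ZMod 4).val = 3 := rfl
  rw [v0, v1, v2, v3, hζ, h3] at h1
  simp only [add_zero, sub_self, att_zero, smul_zero, zero_add, pow_one, Complex.neg_re, Complex.one_re, hre,
    neg_zero, zero_smul, neg_smul, one_smul, neg_eq_zero] at h1
  have := h.att_ne 0 2 (by decide)
  rw [zero_add] at this
  exact this h1

theorem stat4_neg (X : ZMod 4 → E) (h : Stat 4 X (-1)) : False := by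
  have v0 : (0 : ZMod 4).val = 0 := rfl
  have v1 : (1 : ZMod 4).val = 1 := rfl
  have v2 : (2 : ZMod 4).val = 2 := rfl
  have v3 : (3 : ZMod 4).val = 3 := rfl
  have p0 : ((-1 : ℂ) ^ 0).re = 1 := by norm_num
  have p1 : ((-1 : ℂ) ^ 1).re = -1 := by norm_num
  have p2 : ((-1 : ℂ) ^ 2).re = 1 := by norm_num
  have p3 : ((-1 : ℂ) ^ 3).re = -1 := by norm_num
  have a0 := h.Ere 0
  have a1 := h.Ere 1
  have m0 := h.Mre 0
  rw [sum4, v0, v1, v2, v3, p0, p1, p2, p3] at a0 a1 m0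
  simp only [add_zero, sub_self, att_zero, smul_zero, zero_add, neg_smul, one_smul,
    show (1 + 1 : ZMod 4) = 2 by decide, show (1 + 2 : ZMod 4) = 3 by decide,
    show (1 + 3 : ZMod 4) = 0 by decide] at a0 a1 m0
  refine four_pts (X 0) (X 1) (X 2) (X 3) ?_ (h.inj.ne (by decide)) (h.inj.ne (by decide)) (h.inj.ne (by decide))
    (h.inj.ne (by decide)) ?_ ?_
  · have : X 0 + X 2 - (X 1 + X 3) = X 0 + -X 1 + X 2 + -X 3 := by abel
    exact sub_eq_zero.1 (this.trans m0)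
  · have : att (X 2 - X 0) - (att (X 1 - X 0) + att (X 3 - X 0))
        = -att (X 1 - X 0) + att (X 2 - X 0) + -att (X 3 - X 0) := by abel
    exact sub_eq_zero.1 (this.trans a0)
  · have : att (X 3 - X 1) - (att (X 2 - X 1) + att (X 0 - X 1))
        = -att (X 2 - X 1) + att (X 3 - X 1) + -att (X 0 - X 1) := by abel
    exact sub_eq_zero.1 (this.trans a1)

end small

end Pool.Agent.Helper37.Choreo
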