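import Pool.Agent.Helper37.ChoreoSmall

set_option autoImplicit false

namespace Pool.Agent.Helper37.Choreo

section small2

variable {E : Type*} [NormedAddCommGroup E] [InnerProductSpace ℝ E]

theorem sixth_facts {ζ : ℂ} (h : ζ ^ 2 - ζ + 1 = 0) :
    ζ.re = 1 / 2 ∧ (ζ ^ 2).re = -1 / 2 ∧ (ζ ^ 2).im = ζ.im ∧ ζ.im ≠ 0 ∧ ζ ^ 3 = -1 := by
  have h2 : ζ ^ 2 = ζ - 1 := by linear_combination h
  have h3 : ζ ^ 3 = -1 := by linear_combination (ζ + 1) * h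
  obtain ⟨r, i⟩ := re_im_of h2
  rw [sq, Complex.mul_re] at r
  rw [sq, Complex.mul_im] at i
  simp only [Complex.sub_re, Complex.one_re, Complex.sub_im, Complex.one_im] at r i
  have him : ζ.im ≠ 0 := by
    intro h0
    rw [h0] at r
    nlinarith [sq_nonneg (ζ.re - 1 / 2)]
  have hre : ζ.re = 1 / 2 := by
    have : ζ.im * (2 * ζ.re - 1) = 0 := by linear_combination i
    have := (mul_eq_zero.1 this).resolve_left him
    linarith
  refine ⟨hre, ?_, ?_, him, h3⟩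
  · rw [h2]; simp only [Complex.sub_re, Complex.one_re, hre]; norm_num
  · rw [h2]; simp only [Complex.sub_im, Complex.one_im]; ring

theorem stat6_a (X : ZMod 6 → E) (ζ : ℂ) (hζ : ζ ^ 2 - ζ + 1 = 0) (h : Stat 6 X ζ) : False := by
  obtain ⟨a, b, c, d, h3⟩ := sixth_facts hζ
  have h4 : ζ ^ 4 = - ζ := by linear_combination ζ * h3
  have h5 : ζ ^ 5 = - ζ ^ 2 := by linear_combination ζ ^ 2 * h3
  have v0 : (0 : ZMod 6).val = 0 := rfl
  have v1 : (1 : ZMod 6).val = 1 := rfl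
  have v2 : (2 : ZMod 6).val = 2 := rfl
  have v3 : (3 : ZMod 6).val = 3 := rfl
  have v4 : (4 : ZMod 6).val = 4 := rfl
  have v5 : (5 : ZMod 6).val = 5 := rfl
  have red : ∀ g : ZMod 6 → E, ∑ k : ZMod 6, (ζ ^ k.val).re • g k = 0 → ∑ k : ZMod 6, (ζ ^ k.val).im • g k = 0 →
      g 0 - g 2 - g 3 + g 5 = 0 := by
    intro g e1 e2
    rw [sum6, v0, v1, v2, v3, v4, v5, h3, h4, h5, pow_zero, pow_one] at e1 e2
    simp only [Complex.neg_re, Complex.neg_im, Complex.one_re, Complex.one_im, a, b, c] at e1 e2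
    have e3 : ζ.im • (g 1 + g 2 - g 4 - g 5) = 0 := by rw [← e2]; module
    have e4 := (smul_eq_zero.1 e3).resolve_left d
    have e5 : g 0 - g 2 - g 3 + g 5 = ((1 : ℝ) • g 0 + (1 / 2 : ℝ) • g 1 + (-1 / 2 : ℝ) • g 2 + (-1 : ℝ) • g 3
      + (-(1 / 2) : ℝ) • g 4 + (-(-1 / 2) : ℝ) • g 5) - (1 / 2 : ℝ) • (g 1 + g 2 - g 4 - g 5) := by module
    rw [e5, e1, e4, smul_zero, sub_zero]
  refine order_six X h.inj (fun i => ?_) fun i => ?_
  · have := red (fun k => X (i + k)) (h.Mre i) (h.Mim i)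
    simpa using this
  · have := red (fun k => att (X (i + k) - X i)) (h.Ere i) (h.Eim i)
    simp only [add_zero, sub_self, att_zero, zero_sub] at this
    have e : att (X (i + 5) - X i) - (att (X (i + 2) - X i) + att (X (i + 3) - X i))
      = -att (X (i + 2) - X i) - att (X (i + 3) - X i) + att (X (i + 5) - X i) := by abel
    exact sub_eq_zero.1 (e.trans this)

theorem stat6_b (X : ZMod 6 → E) (ζ : ℂ) (hζ : ζ ^ 2 + ζ + 1 = 0) (h : Stat 6 X ζ) : False := by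
  obtain ⟨a, b, c, d, h3⟩ := cube_facts hζ
  have h4 : ζ ^ 4 = ζ := by linear_combination ζ * h3
  have h5 : ζ ^ 5 = ζ ^ 2 := by linear_combination ζ ^ 2 * h3
  have v0 : (0 : ZMod 6).val = 0 := rfl
  have v1 : (1 : ZMod 6).val = 1 := rfl
  have v2 : (2 : ZMod 6).val = 2 := rfl
  have v3 : (3 : ZMod 6).val = 3 := rfl
  have v4 : (4 : ZMod 6).val = 4 := rfl
  have v5 : (5 : ZMod 6).val = 5 := rfl
  have red : ∀ g : ZMod 6 → E, ∑ k : ZMod 6, (ζ ^ k.val).re • g k = 0 → ∑ k : ZMod 6, (ζ ^ k.val).im • g k = 0 →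
      g 0 + g 3 = g 1 + g 4 ∧ g 0 + g 3 = g 2 + g 5 := by
    intro g e1 e2
    rw [sum6, v0, v1, v2, v3, v4, v5, h3, h4, h5, pow_zero, pow_one] at e1 e2
    simp only [Complex.one_re, Complex.one_im, a, b, c] at e1 e2
    have e3 : ζ.im • (g 1 - g 2 + g 4 - g 5) = 0 := by rw [← e2]; module
    have e4 := (smul_eq_zero.1 e3).resolve_left d
    constructor
    · have e5 : g 0 + g 3 - (g 1 + g 4) = ((1 : ℝ) • g 0 + (-1 / 2 : ℝ) • g 1 + (-1 / 2 : ℝ) • g 2 + (1 : ℝ) • g 3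
        + (-1 / 2 : ℝ) • g 4 + (-1 / 2 : ℝ) • g 5) - (1 / 2 : ℝ) • (g 1 - g 2 + g 4 - g 5) := by module
      rw [e1, e4, smul_zero, sub_zero] at e5
      exact sub_eq_zero.1 e5
    · have e5 : g 0 + g 3 - (g 2 + g 5) = ((1 : ℝ) • g 0 + (-1 / 2 : ℝ) • g 1 + (-1 / 2 : ℝ) • g 2 + (1 : ℝ) • g 3
        + (-1 / 2 : ℝ) • g 4 + (-1 / 2 : ℝ) • g 5) + (1 / 2 : ℝ) • (g 1 - g 2 + g 4 - g 5) := by module
      rw [e1, e4, smul_zero, add_zero] at e5
      exact sub_eq_zero.1 e5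
  have m0 := (red (fun k => X (0 + k)) (h.Mre 0) (h.Mim 0)).1
  have a0 := (red (fun k => att (X (0 + k) - X 0)) (h.Ere 0) (h.Eim 0)).1
  have a1 := (red (fun k => att (X (1 + k) - X 1)) (h.Ere 1) (h.Eim 1)).2
  simp only [add_zero, sub_self, att_zero, zero_add, show (1 + 2 : ZMod 6) = 3 by decide,
    show (1 + 3 : ZMod 6) = 4 by decide, show (1 + 5 : ZMod 6) = 0 by decide] at m0 a0 a1
  exact four_pts (X 0) (X 1) (X 3) (X 4) m0 (h.inj.ne (by decide)) (h.inj.ne (by decide))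
    (h.inj.ne (by decide)) (h.inj.ne (by decide)) a0 a1

/-- primitive fifth roots of unity -/
theorem fifth_facts {ζ : ℂ} (h : ζ ^ 5 = 1) (h1 : ζ ≠ 1) :
    ∃ θ : ℝ, θ ^ 2 + θ - 1 = 0 ∧ ζ.re = θ / 2 ∧ (ζ ^ 4).re = θ / 2 ∧ (ζ ^ 2).re = (θ ^ 2 - 2) / 2 ∧
      (ζ ^ 3).re = (θ ^ 2 - 2) / 2 ∧ ζ.im ≠ 0 ∧ (ζ ^ 4).im = - ζ.im ∧ (ζ ^ 2).im = θ * ζ.im ∧
      (ζ ^ 3).im = - (θ * ζ.im) := by
  have hn : ‖ζ‖ = 1 := Complex.norm_eq_one_of_pow_eq_one h (by norm_num)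
  have hs : ζ.re ^ 2 + ζ.im ^ 2 = 1 := by
    have := Complex.sq_norm ζ
    rw [hn, Complex.normSq_apply] at this
    nlinarith
  have hc : (starRingEnd ℂ) ζ * ζ = 1 := by
    rw [mul_comm, Complex.mul_conj, Complex.normSq_eq_norm_sq, hn]; norm_num
  have h4 : ζ ^ 4 = (starRingEnd ℂ) ζ := by
    linear_combination (starRingEnd ℂ) ζ * h - ζ ^ 4 * hc
  have h3 : ζ ^ 3 = (starRingEnd ℂ) (ζ ^ 2) := by
    rw [map_pow]
    linear_combination ((starRingEnd ℂ) ζ) ^ 2 * h - (ζ ^ 3 + ζ ^ 4 * (starRingEnd ℂ) ζ) * hc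
  have hsum : ζ ^ 4 + ζ ^ 3 + ζ ^ 2 + ζ + 1 = 0 := by
    have : (ζ - 1) * (ζ ^ 4 + ζ ^ 3 + ζ ^ 2 + ζ + 1) = 0 := by linear_combination h
    exact (mul_eq_zero.1 this).resolve_left (sub_ne_zero.2 h1)
  have q2r : (ζ ^ 2).re = ζ.re * ζ.re - ζ.im * ζ.im := by rw [sq, Complex.mul_re]
  have q2i : (ζ ^ 2).im = ζ.re * ζ.im + ζ.im * ζ.re := by rw [sq, Complex.mul_im]
  have q3r : (ζ ^ 3).re = (ζ ^ 2).re := by rw [h3, Complex.conj_re]
  have q3i : (ζ ^ 3).im = - (ζ ^ 2).im := by rw [h3, Complex.conj_im]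
  have q4r : (ζ ^ 4).re = ζ.re := by rw [h4, Complex.conj_re]
  have q4i : (ζ ^ 4).im = - ζ.im := by rw [h4, Complex.conj_im]
  have r := congrArg Complex.re hsum
  simp only [Complex.add_re, Complex.one_re, Complex.zero_re, q4r, q3r, q2r] at r
  refine ⟨2 * ζ.re, ?_, ?_, ?_, ?_, ?_, ?_, q4i, ?_, ?_⟩
  · nlinarith
  · ring
  · rw [q4r]; ring
  · rw [q2r]; nlinarith
  · rw [q3r, q2r]; nlinarith
  · intro h0
    rw [h0] at hs r
    nlinarith
  · rw [q2i]; ring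
  · rw [q3i, q2i]; ring

theorem stat5 (X : ZMod 5 → E) (ζ : ℂ) (hζ : ζ ^ 5 = 1) (hζ1 : ζ ≠ 1) (h : Stat 5 X ζ) : False := by
  obtain ⟨θ, hθ, r1, r4, r2, r3, him, i4, i2, i3⟩ := fifth_facts hζ hζ1
  have v0 : (0 : ZMod 5).val = 0 := rfl
  have v1 : (1 : ZMod 5).val = 1 := rfl
  have v2 : (2 : ZMod 5).val = 2 := rfl
  have v3 : (3 : ZMod 5).val = 3 := rfl
  have v4 : (4 : ZMod 5).val = 4 := rfl
  -- energy
  have hc : ∀ k : ZMod 5, (ζ ^ (-k).val).re = (ζ ^ k.val).re := by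
    intro k
    have := chi_conj (n := 5) hζ k
    have h2 := congrArg Complex.re this
    rw [Complex.conj_re] at h2
    exact h2
  have en := energy X (fun k => (ζ ^ k.val).re) hc h.Ere
  rw [Finset.sum_comm] at en
  obtain ⟨R, hR⟩ : ∃ R : ZMod 5 → ℝ, R = fun k => ∑ i, ‖X (i + k) - X i‖⁻¹ := ⟨_, rfl⟩
  have en2 : ∑ k : ZMod 5, (ζ ^ k.val).re * R k = 0 := by
    rw [← en]
    refine Finset.sum_congr rfl fun k _ => ?_
    rw [hR, Finset.mul_sum]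
  have R0 : R 0 = 0 := by rw [hR]; simp
  have Rsymm : ∀ k, R (-k) = R k := by
    intro k
    rw [hR]
    simp only
    rw [← Equiv.sum_comp (Equiv.addRight k) (fun i => ‖X (i + -k) - X i‖⁻¹)]
    refine Finset.sum_congr rfl fun i _ => ?_
    rw [Equiv.coe_addRight, add_neg_cancel_right, norm_sub_rev]
  have R4 : R 4 = R 1 := Rsymm 1
  have R3 : R 3 = R 2 := Rsymm 2
  rw [sum5, v0, v1, v2, v3, v4, pow_one, r1, r2, r3, r4, R0, R4, R3] at en2
  -- moments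
  have hm : ∀ i, X (i + 1) - X (i + 4) = -θ • (X (i + 2) - X (i + 3)) := by
    intro i
    have m := h.Mim i
    rw [sum5, v0, v1, v2, v3, v4, pow_one, pow_zero, i2, i3, i4, Complex.one_im] at m
    have e : ζ.im • ((X (i + 1) - X (i + 4)) + θ • (X (i + 2) - X (i + 3))) = 0 := by
      rw [← m]; module
    have e2 := (smul_eq_zero.1 e).resolve_left him
    rw [neg_smul]
    exact eq_neg_of_add_eq_zero_left e2
  have hR12 : R 1 = |θ| * R 2 := by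
    have hθ0 : θ ≠ 0 := by intro h0; rw [h0] at hθ; norm_num at hθ
    have t2 : R 1 = ∑ i, ‖X (i + 2) - X (i + 3)‖⁻¹ := by
      rw [← R4, hR]
      simp only
      rw [← Equiv.sum_comp (Equiv.addRight 3) (fun i => ‖X (i + 4) - X i‖⁻¹)]
      refine Finset.sum_congr rfl fun i _ => ?_
      rw [Equiv.coe_addRight, add_assoc, show (3 + 4 : ZMod 5) = 2 by decide]
    have t1 : R 2 = ∑ i, ‖X (i + 1) - X (i + 4)‖⁻¹ := by
      rw [hR]
      simp only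
      rw [← Equiv.sum_comp (Equiv.addRight 4) (fun i => ‖X (i + 2) - X i‖⁻¹)]
      refine Finset.sum_congr rfl fun i _ => ?_
      rw [Equiv.coe_addRight, add_assoc, show (4 + 2 : ZMod 5) = 1 by decide]
    rw [t1, t2, Finset.mul_sum]
    refine Finset.sum_congr rfl fun i _ => ?_
    rw [hm i, norm_smul, norm_neg, Real.norm_eq_abs, mul_inv]
    have : |θ| ≠ 0 := abs_ne_zero.2 hθ0
    field_simp
  have R2pos : 0 < R 2 := by
    rw [hR]
    refine Finset.sum_pos (fun i _ => ?_) Finset.univ_nonempty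
    exact inv_pos.2 (norm_pos_iff.2 (sub_ne_zero.2 (h.ne i 2 (by decide))))
  rw [hR12] at en2
  have e3 : R 2 * (θ * |θ| + θ ^ 2 - 2) = 0 := by linear_combination en2
  have e4 := (mul_eq_zero.1 e3).resolve_left R2pos.ne'
  rcases le_or_gt 0 θ with h0 | h0
  · rw [abs_of_nonneg h0] at e4
    nlinarith
  · rw [abs_of_neg h0] at e4
    nlinarith

end small2

end Pool.Agent.Helper37.Choreo
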