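import Mathlib

set_option autoImplicit false

open Complex Metric Set Filter Topology

namespace Pool.Agent.Helper37.Harm

lemma exists_log (f : C(ℂ, ℂ)) (hf : ∀ z, f z ≠ 0) : ∃ k : C(ℂ, ℂ), ∀ z, exp (k z) = f z := by
  obtain ⟨k, ⟨-, hk⟩, -⟩ := isCoveringMapOn_exp.existsUnique_continuousMap_lifts f (a₀ := 0)
    (exp_log (hf 0)) (fun z => hf z)
  exact ⟨k, fun z => congrFun hk z⟩

/-- no continuous logarithm of the identity on a large circle -/
lemma no_log_circle (w : ℂ) {R : ℝ} (hR : 0 < R) (k : C(ℂ, ℂ))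
    (hk : ∀ t : ℝ, exp (k (w + R * exp (t * I))) = R * exp (t * I)) : False := by
  set g : ℝ → ℂ := fun t => k (w + R * exp (t * I)) - t * I - Real.log R with hg
  have hgc : Continuous g := by
    simp only [hg]
    have : Continuous (fun t : ℝ => k (w + R * exp (t * I))) := k.continuous.comp (by fun_prop)
    fun_prop
  have hgexp : ∀ t, exp (g t) = 1 := by
    intro t
    simp only [hg]
    rw [exp_sub, exp_sub, hk, ← ofReal_exp, Real.exp_log hR]
    have h1 : (R:ℂ) ≠ 0 := by exact_mod_cast hR.ne'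
    have h2 := exp_ne_zero ((t:ℂ) * I)
    field_simp
  have hdisc : IsDiscrete ((AddSubgroup.zmultiples (2 * (Real.pi : ℂ) * I) : Set ℂ)) := by
    rw [isDiscrete_iff_discreteTopology]
    exact NormedSpace.discreteTopology_zmultiples _
  have hconst : g 0 = g (2 * Real.pi) := by
    refine isPreconnected_univ.constant_of_mapsTo hdisc hgc.continuousOn ?_ (mem_univ _) (mem_univ _)
    intro t _
    have h := hgexp t
    rw [exp_eq_one_iff] at h
    obtain ⟨n, hn⟩ := h
    refine ⟨n, ?_⟩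
    simp [hn]
  simp only [hg] at hconst
  have h1 : exp (((2 * Real.pi : ℝ) : ℂ) * I) = 1 := by
    push_cast; exact exp_two_pi_mul_I
  rw [h1] at hconst
  simp only [ofReal_zero, zero_mul, exp_zero, mul_one, sub_zero] at hconst
  have h2 : ((2 * Real.pi : ℝ) : ℂ) * I = 0 := by
    linear_combination hconst
  have h3 := congrArg Complex.im h2
  simp at h3

theorem surj_aux {φ F : ℂ → ℂ} (hφ : ContinuousOn φ (sphere (0:ℂ) 1))
    (hinj : InjOn φ (sphere (0:ℂ) 1)) (hF : ContinuousOn F (closedBall (0:ℂ) 1))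
    (hFs : ∀ z ∈ sphere (0:ℂ) 1, F z = φ z) {w : ℂ} (hw : w ∉ φ '' sphere (0:ℂ) 1)
    (hb : Bornology.IsBounded (connectedComponentIn (φ '' sphere (0:ℂ) 1)ᶜ w))
    (hne : ∀ z ∈ closedBall (0:ℂ) 1, F z ≠ w) : False := by
  set J := φ '' sphere (0:ℂ) 1 with hJ
  have hJc : IsCompact J := (isCompact_sphere (0:ℂ) 1).image_of_continuousOn hφ
  -- retraction
  have hret : Continuous (fun z : ℂ => ((max 1 ‖z‖)⁻¹ : ℝ) • z) := by
    have h1 : Continuous (fun z : ℂ => ((max 1 ‖z‖)⁻¹ : ℝ)) := by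
      apply Continuous.inv₀ (by fun_prop)
      intro z
      have : (1:ℝ) ≤ max 1 ‖z‖ := le_max_left _ _
      linarith
    exact h1.smul continuous_id
  have hretb : ∀ z : ℂ, ((max 1 ‖z‖)⁻¹ : ℝ) • z ∈ closedBall (0:ℂ) 1 := by
    intro z
    have h1 : (1:ℝ) ≤ max 1 ‖z‖ := le_max_left _ _
    have h2 : ‖z‖ ≤ max 1 ‖z‖ := le_max_right _ _
    rw [mem_closedBall_zero_iff, norm_smul, Real.norm_of_nonneg (by positivity), inv_mul_le_iff₀ (by linarith)]
    linarith
  have hrets : ∀ z ∈ closedBall (0:ℂ) 1, ((max 1 ‖z‖)⁻¹ : ℝ) • z = z := by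
    intro z hz
    rw [mem_closedBall_zero_iff] at hz
    rw [max_eq_left hz]; simp
  set G : C(ℂ, ℂ) := ⟨fun z => F (((max 1 ‖z‖)⁻¹ : ℝ) • z) - w,
    (hF.comp_continuous hret hretb).sub continuous_const⟩ with hG
  obtain ⟨k, hk⟩ := exists_log G (fun z => sub_ne_zero.2 (hne _ (hretb z)))
  -- the closed embedding
  set e : sphere (0:ℂ) 1 → ℂ := fun z => φ z with he
  have hec : Continuous e := continuousOn_iff_continuous_domRestrict.1 hφ
  have hei : Function.Injective e := by
    intro a b hab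
    exact Subtype.ext (hinj a.2 b.2 hab)
  have : CompactSpace (sphere (0:ℂ) 1) := isCompact_iff_compactSpace.1 (isCompact_sphere (0:ℂ) 1)
  have hemb : IsClosedEmbedding e := hec.isClosedEmbedding hei
  obtain ⟨g, hg⟩ := ContinuousMap.exists_extension' hemb
    (⟨fun z : sphere (0:ℂ) 1 => k (z : ℂ), k.continuous.comp continuous_subtype_val⟩ :
      C(sphere (0:ℂ) 1, ℂ))
  have hgJ : ∀ y ∈ J, exp (g y) = y - w := by
    rintro _ ⟨z, hz, rfl⟩
    have h1 : g (φ z) = k z := congrFun hg ⟨z, hz⟩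
    rw [h1, hk]
    have h2 : G z = F (((max 1 ‖z‖)⁻¹ : ℝ) • z) - w := rfl
    rw [h2, hrets z (sphere_subset_closedBall hz), hFs z hz]
  -- gluing
  set W := connectedComponentIn Jᶜ w with hW
  have hJo : IsOpen Jᶜ := hJc.isClosed.isOpen_compl
  have hWo : IsOpen W := hJo.connectedComponentIn
  have hwW : w ∈ W := mem_connectedComponentIn hw
  have hfr : frontier W ⊆ J := by
    intro a ha
    by_contra haJ
    have ha1 : a ∈ closure W := frontier_subset_closure ha
    have ha2 : a ∉ W := by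
      rw [hWo.frontier_eq] at ha
      exact ha.2
    have h2 : connectedComponentIn Jᶜ a ∈ 𝓝 a :=
      hJo.connectedComponentIn.mem_nhds (mem_connectedComponentIn haJ)
    obtain ⟨y, hy1, hy2⟩ := mem_closure_iff_nhds.1 ha1 _ h2
    have e1 := connectedComponentIn_eq hy1
    have e2 := connectedComponentIn_eq hy2
    apply ha2
    rw [hW, e2, ← e1]
    exact mem_connectedComponentIn haJ
  classical
  set H : ℂ → ℂ := W.piecewise (fun z => exp (g z)) (fun z => z - w) with hH
  have hHc : Continuous H := by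
    apply Continuous.piecewise
    · intro a ha
      exact hgJ a (hfr ha)
    · exact Complex.continuous_exp.comp g.continuous
    · fun_prop
  have hH0 : ∀ z, H z ≠ 0 := by
    intro z
    by_cases hz : z ∈ W
    · rw [hH, piecewise_eq_of_mem _ _ _ hz]
      exact exp_ne_zero _
    · rw [hH, piecewise_eq_of_notMem _ _ _ hz, sub_ne_zero]
      rintro rfl
      exact hz hwW
  obtain ⟨k₂, hk₂⟩ := exists_log ⟨H, hHc⟩ hH0
  obtain ⟨R, hR, hRb⟩ : ∃ R : ℝ, 0 < R ∧ W ⊆ ball w R := by
    obtain ⟨R, hR⟩ := hb.subset_ball w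
    exact ⟨max R 1, lt_max_of_lt_right one_pos, hR.trans (ball_subset_ball (le_max_left _ _))⟩
  apply no_log_circle w hR k₂
  intro t
  rw [hk₂]
  have hnot : w + R * exp (t * I) ∉ W := by
    intro hmem
    have := hRb hmem
    rw [mem_ball_iff_norm, add_sub_cancel_left, norm_mul, norm_exp_ofReal_mul_I, norm_real,
      Real.norm_of_nonneg hR.le, mul_one] at this
    exact lt_irrefl _ this
  show H (w + R * exp (t * I)) = _
  rw [hH, piecewise_eq_of_notMem _ _ _ hnot]
  ring

end Pool.Agent.Helper37.Harm
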