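import Pool.Agent.Helper37.HarmS

set_option autoImplicit false

open Complex Metric Set Filter Topology

namespace Pool.Agent.Helper37.Harm

theorem no_crit {h : ℂ → ℂ} (hd : AnalyticOnNhd ℂ h (ball 0 1))
    (hnc : ∀ z ∈ ball (0:ℂ) 1, ¬ ∀ᶠ w in 𝓝 z, h w = h z)
    {c : ℝ} {K : Set ℂ} (hK : LevelPiece h c K)
    {U : ℂ → ℝ} (hU : ContinuousOn U (closedBall 0 1)) (hUh : ∀ z ∈ ball (0:ℂ) 1, U z = (h z).re)
    {α β : ℂ} (hα : ‖α‖ = 1) (hβ : ‖β‖ = 1) (hUα : U α = c) (hUβ : U β = c)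
    (hcl : ∀ z : ℂ, ‖z‖ = 1 → z ∈ closure K → z = α ∨ z = β)
    {z₀ : ℂ} (hz₀ : z₀ ∈ K) : deriv h z₀ ≠ 0 := by
  intro hder
  have hz₀b := hK.sub hz₀
  obtain ⟨m, hm1, hm2, -, e, he, s₀, hs₀, hsign⟩ := sign_structure (hd z₀ hz₀b) (hnc z₀ hz₀b)
  have hm := hm2 hder
  obtain ⟨s₁, hs₁, hall⟩ := lemmaXS hd hnc hz₀b hm1 he hs₀ hsign
  obtain ⟨hmem, hne⟩ := hall K c hK hz₀ s₁ hs₁ le_rfl
  rcases lemmaY hd hnc hK hU hUh hα hβ hUα hUβ hcl (hmem 0) (hmem 1) (hmem 2) with h1 | h1 | h1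
  · exact hne 0 1 (by omega) (by omega) h1
  · exact hne 0 2 (by omega) (by omega) h1
  · exact hne 1 2 (by omega) (by omega) h1

lemma comp_mono {M M₁ : Set ℂ} (hMM : M ⊆ M₁) {a b : ℂ} (ha : a ∈ M)
    (h : connectedComponentIn M a = connectedComponentIn M b) :
    connectedComponentIn M₁ a = connectedComponentIn M₁ b := by
  have h1 : a ∈ connectedComponentIn M b := h ▸ mem_connectedComponentIn ha
  exact (connectedComponentIn_eq (connectedComponentIn_mono b hMM h1)).symm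

theorem no_two {h : ℂ → ℂ} (hd : AnalyticOnNhd ℂ h (ball 0 1))
    (hnc : ∀ z ∈ ball (0:ℂ) 1, ¬ ∀ᶠ w in 𝓝 z, h w = h z)
    {c : ℝ} {K K₁ : Set ℂ} (hK : LevelPiece h c K) (hK₁ : LevelPiece h c K₁) (hsub : K₁ ⊆ K)
    {U : ℂ → ℝ} (hU : ContinuousOn U (closedBall 0 1)) (hUh : ∀ z ∈ ball (0:ℂ) 1, U z = (h z).re)
    {α β : ℂ} (hα : ‖α‖ = 1) (hβ : ‖β‖ = 1) (hUα : U α = c) (hUβ : U β = c)
    (hcl : ∀ z : ℂ, ‖z‖ = 1 → z ∈ closure K → z = α ∨ z = β)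
    {z₁ z₂ : ℂ} (hz₁ : z₁ ∈ K₁) (hz₂ : z₂ ∈ K) (hz₂' : z₂ ∉ K₁) : False := by
  have hz₁b := hK₁.sub hz₁
  have hz₂b := hK.sub hz₂
  obtain ⟨m, hm1, -, -, e, he, s₀, hs₀, hsign⟩ := sign_structure (hd z₁ hz₁b) (hnc z₁ hz₁b)
  obtain ⟨s, hs, hall⟩ := lemmaXS hd hnc hz₁b hm1 he hs₀ hsign
  obtain ⟨m', hm1', -, -, e', he', s₀', hs₀', hsign'⟩ := sign_structure (hd z₂ hz₂b) (hnc z₂ hz₂b)
  obtain ⟨s', hs', hall'⟩ := lemmaXS hd hnc hz₂b hm1' he' hs₀' hsign'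
  obtain ⟨hmem, hne⟩ := hall K c hK (hsub hz₁) s hs le_rfl
  obtain ⟨hmem₁, hne₁⟩ := hall K₁ c hK₁ hz₁ s hs le_rfl
  obtain ⟨r, hr, hrb⟩ := Metric.isOpen_iff.1 hK₁.isOpen_compl z₂ ⟨hz₂b, hz₂'⟩
  set t := min s' (r / 2) with ht
  have ht0 : 0 < t := lt_min hs' (by positivity)
  obtain ⟨hmem', hne'⟩ := hall' K c hK hz₂ t ht0 (min_le_left _ _)
  set M := ball (0:ℂ) 1 \ K with hM
  set M₁ := ball (0:ℂ) 1 \ K₁ with hM₁
  have hMM : M ⊆ M₁ := fun z hz => ⟨hz.1, fun h1 => hz.2 (hsub h1)⟩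
  have hball : ∀ l : ℕ, z₂ + t * dir e' m' l ∈ ball z₂ r := by
    intro l
    rw [mem_ball_iff_norm, add_sub_cancel_left, norm_mul, norm_dir he', norm_real,
      Real.norm_of_nonneg ht0.le]
    have : t ≤ r / 2 := min_le_right _ _
    linarith
  have hjoin : connectedComponentIn M₁ (z₂ + t * dir e' m' 0)
      = connectedComponentIn M₁ (z₂ + t * dir e' m' 1) := by
    apply connectedComponentIn_eq
    exact (convex_ball z₂ r).isPreconnected.subset_connectedComponentIn (hball 0) hrb (hball 1)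
  have hp : connectedComponentIn M (z₁ + s * dir e m 0) ≠
      connectedComponentIn M (z₁ + s * dir e m 1) := hne 0 1 (by omega) (by omega)
  have hq : connectedComponentIn M (z₂ + t * dir e' m' 0) ≠
      connectedComponentIn M (z₂ + t * dir e' m' 1) := hne' 0 1 (by omega) (by omega)
  have hp₁ : connectedComponentIn M₁ (z₁ + s * dir e m 0) ≠
      connectedComponentIn M₁ (z₁ + s * dir e m 1) := hne₁ 0 1 (by omega) (by omega)
  have y1 := lemmaY hd hnc hK hU hUh hα hβ hUα hUβ hcl (hmem 0) (hmem 1) (hmem' 0)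
  have y2 := lemmaY hd hnc hK hU hUh hα hβ hUα hUβ hcl (hmem 0) (hmem 1) (hmem' 1)
  rcases y1 with h1 | h1 | h1
  · exact hp h1
  · rcases y2 with h2 | h2 | h2
    · exact hp h2
    · exact hq (h1.symm.trans h2)
    · apply hp₁
      rw [comp_mono hMM (hmem 0) h1, hjoin]
      exact (comp_mono hMM (hmem 1) h2).symm
  · rcases y2 with h2 | h2 | h2
    · exact hp h2
    · apply hp₁
      rw [comp_mono hMM (hmem 0) h2, ← hjoin]
      exact (comp_mono hMM (hmem 1) h1).symm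
    · exact hq (h1.symm.trans h2)

end Pool.Agent.Helper37.Harm
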