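import Mathlib

set_option autoImplicit false

open Complex Metric Set Filter Topology MeasureTheory

namespace Pool.Agent.Helper37.Harm

/-- the Poisson kernel in the form of the statement -/
noncomputable def pk (z : ℂ) (t : ℝ) : ℝ := (1 - ‖z‖ ^ 2) / ‖exp ((t : ℂ) * I) - z‖ ^ 2

lemma exp_sub_ne {z : ℂ} (hz : z ∈ ball (0:ℂ) 1) (t : ℝ) : exp ((t : ℂ) * I) - z ≠ 0 := by
  intro h
  rw [sub_eq_zero] at h
  rw [mem_ball_zero_iff, ← h, norm_exp_ofReal_mul_I] at hz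
  exact lt_irrefl _ hz

lemma pk_continuous {z : ℂ} (hz : z ∈ ball (0:ℂ) 1) : Continuous (pk z) := by
  unfold pk
  apply Continuous.div (by fun_prop) (by fun_prop)
  intro t
  have := norm_pos_iff.2 (exp_sub_ne hz t)
  positivity

lemma pk_nonneg {z : ℂ} (hz : z ∈ ball (0:ℂ) 1) (t : ℝ) : 0 ≤ pk z t := by
  unfold pk
  rw [mem_ball_zero_iff] at hz
  have : ‖z‖ ^ 2 ≤ 1 := by nlinarith [norm_nonneg z]
  apply div_nonneg (by linarith) (by positivity)

lemma phi_continuous {φ : ℂ → ℂ} (hφ : ContinuousOn φ (sphere (0:ℂ) 1)) :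
    Continuous (fun t : ℝ => φ (exp ((t : ℂ) * I))) := by
  apply hφ.comp_continuous (by fun_prop)
  intro t
  simp [norm_exp_ofReal_mul_I]

lemma pk_eq {z : ℂ} (t : ℝ) : poissonKernel 0 z (circleMap 0 1 t) = pk z t := by
  unfold pk poissonKernel
  simp [circleMap, norm_exp_ofReal_mul_I]

lemma pk_integral {z : ℂ} (hz : z ∈ ball (0:ℂ) 1) : ∫ t in (0:ℝ)..(2 * Real.pi), pk z t = 2 * Real.pi := by
  have h1 : DiffContOnCl ℂ (fun _ : ℂ => (1:ℂ)) (ball (0:ℂ) 1) := diffContOnCl_const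
  have h2 := h1.circleAverage_poissonKernel_smul hz
  rw [Real.circleAverage_def] at h2
  have h3 : (fun t : ℝ => (poissonKernel 0 z • fun _ : ℂ => (1:ℂ)) (circleMap 0 1 t))
      = fun t : ℝ => ((pk z t : ℝ) : ℂ) := by
    ext t
    simp only [Pi.smul_apply', pk_eq]
    simp
  rw [h3, intervalIntegral.integral_ofReal] at h2
  have hp := Real.pi_pos
  have h4 : (2 * Real.pi)⁻¹ * (∫ t in (0:ℝ)..(2 * Real.pi), pk z t) = 1 := by
    have := congrArg Complex.re h2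
    simpa using this
  field_simp at h4
  linarith

/-- The two Herglotz transforms. -/
lemma exists_herglotz {φ P : ℂ → ℂ} (hφ : ContinuousOn φ (sphere (0:ℂ) 1))
    (hP : ∀ z ∈ ball (0:ℂ) 1, P z = ((1 / (2 * Real.pi) : ℝ) : ℂ) *
      ∫ t in (0:ℝ)..(2 * Real.pi), ((pk z t : ℝ) : ℂ) * φ (exp ((t : ℂ) * I))) :
    ∃ h₁ h₂ : ℂ → ℂ, AnalyticOnNhd ℂ h₁ (ball 0 1) ∧ AnalyticOnNhd ℂ h₂ (ball 0 1) ∧
      (∀ z ∈ ball (0:ℂ) 1, (P z).re = (h₁ z).re) ∧ (∀ z ∈ ball (0:ℂ) 1, (P z).im = (h₂ z).re) := by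
  have hφc := phi_continuous hφ
  -- general fact for a real-linear functional
  have key : ∀ g : ℂ → ℝ, ContinuousOn g (sphere (0:ℂ) 1) → ∃ h : ℂ → ℂ,
      AnalyticOnNhd ℂ h (ball 0 1) ∧ ∀ z ∈ ball (0:ℂ) 1,
        (h z).re = (2 * Real.pi)⁻¹ * ∫ t in (0:ℝ)..(2 * Real.pi), pk z t * g (exp ((t : ℂ) * I)) := by
    intro g hg
    have hgi : CircleIntegrable g 0 1 := ContinuousOn.circleIntegrable zero_le_one hg
    have hgi' : CircleIntegrable (fun ζ => (g ζ : ℂ)) 0 1 :=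
      ContinuousOn.circleIntegrable zero_le_one (continuous_ofReal.comp_continuousOn hg)
    refine ⟨_, analyticOnNhd_circleAverage_herglotzRieszKernel_smul hgi', ?_⟩
    intro z hz
    have h1 := re_circleAverage_herglotzRieszKernel_smul hgi hz
    refine h1.trans ?_
    rw [← poissonKernel_eq_re_herglotzRieszKernel, Real.circleAverage_def, smul_eq_mul]
    congr 1
    apply intervalIntegral.integral_congr
    intro t _
    simp only [Pi.smul_apply', smul_eq_mul, pk_eq]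
    simp [circleMap]
  obtain ⟨h₁, h₁a, h₁e⟩ := key (fun ζ => (φ ζ).re) (Complex.continuous_re.comp_continuousOn hφ)
  obtain ⟨h₂, h₂a, h₂e⟩ := key (fun ζ => (φ ζ).im) (Complex.continuous_im.comp_continuousOn hφ)
  refine ⟨h₁, h₂, h₁a, h₂a, ?_, ?_⟩
  · intro z hz
    have hint : IntervalIntegrable (fun t : ℝ => ((pk z t : ℝ) : ℂ) * φ (exp ((t : ℂ) * I)))
        volume 0 (2 * Real.pi) :=
      ((continuous_ofReal.comp (pk_continuous hz)).mul hφc).intervalIntegrable _ _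
    have h2 := Complex.reCLM.intervalIntegral_comp_comm hint
    rw [h₁e z hz, hP z hz, re_ofReal_mul]
    have h3 : (∫ t in (0:ℝ)..(2 * Real.pi), ((pk z t : ℝ) : ℂ) * φ (exp ((t : ℂ) * I))).re
        = ∫ t in (0:ℝ)..(2 * Real.pi), pk z t * (φ (exp ((t : ℂ) * I))).re := by
      rw [← Complex.reCLM_apply, ← h2]
      apply intervalIntegral.integral_congr
      intro t _
      simp
    rw [h3]
    ring
  · intro z hz
    have hint : IntervalIntegrable (fun t : ℝ => ((pk z t : ℝ) : ℂ) * φ (exp ((t : ℂ) * I)))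
        volume 0 (2 * Real.pi) :=
      ((continuous_ofReal.comp (pk_continuous hz)).mul hφc).intervalIntegrable _ _
    have h2 := Complex.imCLM.intervalIntegral_comp_comm hint
    rw [h₂e z hz, hP z hz, im_ofReal_mul]
    have h3 : (∫ t in (0:ℝ)..(2 * Real.pi), ((pk z t : ℝ) : ℂ) * φ (exp ((t : ℂ) * I))).im
        = ∫ t in (0:ℝ)..(2 * Real.pi), pk z t * (φ (exp ((t : ℂ) * I))).im := by
      rw [← Complex.imCLM_apply, ← h2]
      apply intervalIntegral.integral_congr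
      intro t _
      simp
    rw [h3]
    ring

/-- The continuous extension to the closed disc. -/
noncomputable def ext (φ P : ℂ → ℂ) (z : ℂ) : ℂ := open Classical in if z ∈ ball (0:ℂ) 1 then P z else φ z

lemma ext_ball {φ P : ℂ → ℂ} {z : ℂ} (hz : z ∈ ball (0:ℂ) 1) : ext φ P z = P z := by
  unfold ext; rw [if_pos hz]

lemma ext_sphere {φ P : ℂ → ℂ} {z : ℂ} (hz : z ∈ sphere (0:ℂ) 1) : ext φ P z = φ z := by
  unfold ext
  rw [if_neg]
  rw [mem_sphere_zero_iff_norm] at hz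
  rw [mem_ball_zero_iff, hz]
  exact lt_irrefl _

lemma boundary_estimate {φ P : ℂ → ℂ} (hφ : ContinuousOn φ (sphere (0:ℂ) 1))
    (hP : ∀ z ∈ ball (0:ℂ) 1, P z = ((1 / (2 * Real.pi) : ℝ) : ℂ) *
      ∫ t in (0:ℝ)..(2 * Real.pi), ((pk z t : ℝ) : ℂ) * φ (exp ((t : ℂ) * I)))
    {ζ₀ : ℂ} (hζ₀ : ζ₀ ∈ sphere (0:ℂ) 1) {ε : ℝ} (hε : 0 < ε) :
    ∃ δ : ℝ, 0 < δ ∧ ∀ z ∈ ball (0:ℂ) 1, dist z ζ₀ < δ → dist (P z) (φ ζ₀) < ε := by
  have hφc := phi_continuous hφ
  obtain ⟨B, hB⟩ := (isCompact_sphere (0:ℂ) 1).exists_bound_of_continuousOn hφ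
  have hB0 : 0 ≤ B := (norm_nonneg _).trans (hB ζ₀ hζ₀)
  obtain ⟨δ, hδ, hδφ⟩ := Metric.continuousWithinAt_iff.1 (hφ ζ₀ hζ₀) (ε / 2) (by positivity)
  have hp := Real.pi_pos
  refine ⟨min (δ / 2) (ε * δ ^ 2 / (32 * (B + 1))), lt_min (by positivity) (by positivity), ?_⟩
  intro z hz hzd
  have hz1 : ‖z‖ < 1 := by simpa using hz
  have hd1 : dist z ζ₀ < δ / 2 := hzd.trans_le (min_le_left _ _)
  have hd2 : dist z ζ₀ < ε * δ ^ 2 / (32 * (B + 1)) := hzd.trans_le (min_le_right _ _)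
  set C : ℝ := 2 * B * ((1 - ‖z‖ ^ 2) / (δ / 2) ^ 2) with hC
  have hsq : ‖z‖ ^ 2 ≤ 1 := by nlinarith [norm_nonneg z]
  have hC0 : 0 ≤ C := by
    have : 0 ≤ 1 - ‖z‖ ^ 2 := by linarith
    positivity
  -- pointwise bound
  have hpt : ∀ t : ℝ, ‖((pk z t : ℝ) : ℂ) * (φ (exp ((t : ℂ) * I)) - φ ζ₀)‖ ≤ pk z t * (ε / 2) + C := by
    intro t
    have hts : exp ((t : ℂ) * I) ∈ sphere (0:ℂ) 1 := by simp [norm_exp_ofReal_mul_I]
    rw [norm_mul, norm_real, Real.norm_of_nonneg (pk_nonneg hz t)]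
    by_cases hclose : dist (exp ((t : ℂ) * I)) ζ₀ < δ
    · have h1 := (hδφ hts hclose).le
      rw [dist_eq_norm] at h1
      have h2 := mul_le_mul_of_nonneg_left h1 (pk_nonneg hz t)
      linarith
    · push Not at hclose
      have h1 : δ / 2 ≤ ‖exp ((t : ℂ) * I) - z‖ := by
        rw [← dist_eq_norm]
        have := dist_triangle (exp ((t : ℂ) * I)) z ζ₀
        linarith
      have h2 : pk z t ≤ (1 - ‖z‖ ^ 2) / (δ / 2) ^ 2 := by
        unfold pk
        apply div_le_div_of_nonneg_left (by linarith) (by positivity)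
        exact pow_le_pow_left₀ (by positivity) h1 2
      have h3 : ‖φ (exp ((t : ℂ) * I)) - φ ζ₀‖ ≤ 2 * B := by
        refine (norm_sub_le _ _).trans ?_
        have := hB _ hts
        have := hB _ hζ₀
        linarith
      have h4 := mul_le_mul h2 h3 (norm_nonneg _) (by
        have : 0 ≤ 1 - ‖z‖ ^ 2 := by linarith
        positivity)
      have h5 := mul_nonneg (pk_nonneg hz t) (by positivity : (0:ℝ) ≤ ε / 2)
      rw [hC]
      linarith
  -- the difference as an integral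
  have hint : IntervalIntegrable (fun t : ℝ => ((pk z t : ℝ) : ℂ) * φ (exp ((t : ℂ) * I)))
        volume 0 (2 * Real.pi) :=
      ((continuous_ofReal.comp (pk_continuous hz)).mul hφc).intervalIntegrable _ _
  have hint2 : IntervalIntegrable (fun t : ℝ => ((pk z t : ℝ) : ℂ) * φ ζ₀)
        volume 0 (2 * Real.pi) :=
      ((continuous_ofReal.comp (pk_continuous hz)).mul continuous_const).intervalIntegrable _ _
  have hdiff : P z - φ ζ₀ = ((1 / (2 * Real.pi) : ℝ) : ℂ) *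
      ∫ t in (0:ℝ)..(2 * Real.pi), ((pk z t : ℝ) : ℂ) * (φ (exp ((t : ℂ) * I)) - φ ζ₀) := by
    have h1 : (∫ t in (0:ℝ)..(2 * Real.pi), ((pk z t : ℝ) : ℂ) * (φ (exp ((t : ℂ) * I)) - φ ζ₀))
        = (∫ t in (0:ℝ)..(2 * Real.pi), ((pk z t : ℝ) : ℂ) * φ (exp ((t : ℂ) * I)))
          - ∫ t in (0:ℝ)..(2 * Real.pi), ((pk z t : ℝ) : ℂ) * φ ζ₀ := by
      rw [← intervalIntegral.integral_sub hint hint2]
      congr 1
      ext t
      ring
    have h2 : (∫ t in (0:ℝ)..(2 * Real.pi), ((pk z t : ℝ) : ℂ) * φ ζ₀)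
        = ((2 * Real.pi : ℝ) : ℂ) * φ ζ₀ := by
      rw [intervalIntegral.integral_mul_const, intervalIntegral.integral_ofReal, pk_integral hz]
    rw [h1, h2, mul_sub, ← hP z hz, ← mul_assoc]
    congr 1
    have : ((1 / (2 * Real.pi) : ℝ) : ℂ) * ((2 * Real.pi : ℝ) : ℂ) = 1 := by
      rw [← ofReal_mul]
      have : 1 / (2 * Real.pi) * (2 * Real.pi) = 1 := by field_simp
      rw [this, ofReal_one]
    rw [this, one_mul]
  have hbound : ‖∫ t in (0:ℝ)..(2 * Real.pi), ((pk z t : ℝ) : ℂ) * (φ (exp ((t : ℂ) * I)) - φ ζ₀)‖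
      ≤ 2 * Real.pi * (ε / 2) + C * (2 * Real.pi) := by
    have h1 : ‖∫ t in (0:ℝ)..(2 * Real.pi), ((pk z t : ℝ) : ℂ) * (φ (exp ((t : ℂ) * I)) - φ ζ₀)‖
        ≤ ∫ t in (0:ℝ)..(2 * Real.pi), (pk z t * (ε / 2) + C) := by
      apply intervalIntegral.norm_integral_le_of_norm_le (by positivity)
      · filter_upwards with t _ using hpt t
      · exact (((pk_continuous hz).mul continuous_const).add continuous_const).intervalIntegrable _ _
    refine h1.trans (le_of_eq ?_)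
    rw [intervalIntegral.integral_add]
    · rw [intervalIntegral.integral_mul_const, pk_integral hz, intervalIntegral.integral_const]
      simp
      ring
    · exact ((pk_continuous hz).mul continuous_const).intervalIntegrable _ _
    · exact continuous_const.intervalIntegrable _ _
  rw [dist_eq_norm, hdiff, norm_mul, norm_real, Real.norm_of_nonneg (by positivity)]
  have h3 : 1 / (2 * Real.pi) * (2 * Real.pi * (ε / 2) + C * (2 * Real.pi)) = ε / 2 + C := by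
    field_simp
  have h4 : C < ε / 2 := by
    have h5 : 1 - ‖z‖ ^ 2 ≤ 2 * dist z ζ₀ := by
      have h6 : 1 - ‖z‖ ≤ dist z ζ₀ := by
        rw [mem_sphere_zero_iff_norm] at hζ₀
        rw [dist_comm, dist_eq_norm, ← hζ₀]
        exact norm_sub_norm_le ζ₀ z
      nlinarith [norm_nonneg z]
    have h7 : C ≤ 16 * B * dist z ζ₀ / δ ^ 2 := by
      rw [hC]
      have : 2 * B * ((1 - ‖z‖ ^ 2) / (δ / 2) ^ 2) = 8 * B * (1 - ‖z‖ ^ 2) / δ ^ 2 := by
        field_simp; ring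
      rw [this]
      apply div_le_div_of_nonneg_right _ (by positivity)
      nlinarith
    have h8 : 16 * B * dist z ζ₀ / δ ^ 2 < ε / 2 := by
      rw [div_lt_iff₀ (by positivity)]
      rw [lt_div_iff₀ (by positivity)] at hd2
      nlinarith [dist_nonneg (x := z) (y := ζ₀)]
    linarith
  calc 1 / (2 * Real.pi) * ‖∫ t in (0:ℝ)..(2 * Real.pi),
        ((pk z t : ℝ) : ℂ) * (φ (exp ((t : ℂ) * I)) - φ ζ₀)‖
      ≤ 1 / (2 * Real.pi) * (2 * Real.pi * (ε / 2) + C * (2 * Real.pi)) := by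
        apply mul_le_mul_of_nonneg_left hbound (by positivity)
    _ = ε / 2 + C := h3
    _ < ε := by linarith

lemma ext_continuousOn {φ P : ℂ → ℂ} (hφ : ContinuousOn φ (sphere (0:ℂ) 1))
    (hP : ∀ z ∈ ball (0:ℂ) 1, P z = ((1 / (2 * Real.pi) : ℝ) : ℂ) *
      ∫ t in (0:ℝ)..(2 * Real.pi), ((pk z t : ℝ) : ℂ) * φ (exp ((t : ℂ) * I)))
    (hPc : ContinuousOn P (ball (0:ℂ) 1)) :
    ContinuousOn (ext φ P) (closedBall (0:ℂ) 1) := by
  intro z hz
  by_cases hzb : z ∈ ball (0:ℂ) 1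
  · apply ContinuousAt.continuousWithinAt
    have h1 : ContinuousAt P z := hPc.continuousAt (isOpen_ball.mem_nhds hzb)
    refine h1.congr ?_
    filter_upwards [isOpen_ball.mem_nhds hzb] with w hw
    rw [ext_ball hw]
  · have hzs : z ∈ sphere (0:ℂ) 1 := by
      rw [mem_closedBall_zero_iff] at hz
      rw [mem_ball_zero_iff] at hzb
      rw [mem_sphere_zero_iff_norm]
      linarith
    rw [Metric.continuousWithinAt_iff]
    intro ε hε
    obtain ⟨δ₁, hδ₁, h1⟩ := Metric.continuousWithinAt_iff.1 (hφ z hzs) ε hε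
    obtain ⟨δ₂, hδ₂, h2⟩ := boundary_estimate hφ hP hzs hε
    refine ⟨min δ₁ δ₂, lt_min hδ₁ hδ₂, ?_⟩
    intro w hw hwd
    rw [ext_sphere hzs]
    by_cases hwb : w ∈ ball (0:ℂ) 1
    · rw [ext_ball hwb]
      exact h2 w hwb (hwd.trans_le (min_le_right _ _))
    · have hws : w ∈ sphere (0:ℂ) 1 := by
        rw [mem_closedBall_zero_iff] at hw
        rw [mem_ball_zero_iff] at hwb
        rw [mem_sphere_zero_iff_norm]
        linarith
      rw [ext_sphere hws]
      exact h1 hws (hwd.trans_le (min_le_left _ _))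

end Pool.Agent.Helper37.Harm
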