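import Pool.Agent.Helper37.HarmC
import Pool.Agent.Helper37.HarmB
import Pool.Agent.Helper37.HarmP

set_option autoImplicit false

open Complex Metric Set Filter Topology

namespace Pool.Agent.Helper37.Harm

/-- Working hypotheses. -/
structure Setup (φ F h₁ h₂ : ℂ → ℂ) : Prop where
  hφ : ContinuousOn φ (sphere (0:ℂ) 1)
  hinj : InjOn φ (sphere (0:ℂ) 1)
  hF : ContinuousOn F (closedBall (0:ℂ) 1)
  hFs : ∀ z ∈ sphere (0:ℂ) 1, F z = φ z
  a₁ : AnalyticOnNhd ℂ h₁ (ball 0 1)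
  a₂ : AnalyticOnNhd ℂ h₂ (ball 0 1)
  re₁ : ∀ z ∈ ball (0:ℂ) 1, (F z).re = (h₁ z).re
  re₂ : ∀ z ∈ ball (0:ℂ) 1, (F z).im = (h₂ z).re
  hin : ∀ z ∈ ball (0:ℂ) 1, F z ∉ φ '' sphere (0:ℂ) 1 ∧
    Bornology.IsBounded (connectedComponentIn (φ '' sphere (0:ℂ) 1)ᶜ (F z))

variable {φ F h₁ h₂ : ℂ → ℂ}

/-- rays from a point of a bounded component hit `J` -/
lemma ray_hits {J : Set ℂ} {w v : ℂ} (hw : w ∉ J) (hb : Bornology.IsBounded (connectedComponentIn Jᶜ w))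
    (hv : v ≠ 0) : ∃ t : ℝ, 0 < t ∧ w + t * v ∈ J := by
  by_contra hcon
  push Not at hcon
  have hcon' : ∀ t : ℝ, 0 ≤ t → w + t * v ∉ J := by
    intro t ht
    rcases ht.eq_or_lt with h | h
    · rw [← h]; simpa using hw
    · exact hcon t h
  have hpre : IsPreconnected ((fun t : ℝ => w + t * v) '' Ici 0) :=
    isPreconnected_Ici.image _ (by fun_prop)
  have hsub := hpre.subset_connectedComponentIn (x := w) (F := Jᶜ) ⟨0, by simp, by simp⟩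
    (by rintro _ ⟨t, ht, rfl⟩; exact hcon' t ht)
  obtain ⟨R, hR⟩ := (hb.subset hsub).subset_closedBall w
  have hvn : 0 < ‖v‖ := norm_pos_iff.2 hv
  have h1 : w + ((|R| + 1) / ‖v‖ : ℝ) * v ∈ closedBall w R :=
    hR ⟨(|R| + 1) / ‖v‖, by simp only [mem_Ici]; positivity, rfl⟩
  rw [mem_closedBall_iff_norm, add_sub_cancel_left, norm_mul, norm_real,
    Real.norm_of_nonneg (by positivity), div_mul_cancel₀ _ hvn.ne'] at h1
  have := le_abs_self R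
  linarith

/-- first hitting point -/
lemma first_hit {J : Set ℂ} (hJ : IsClosed J) {w v : ℂ} (hw : w ∉ J)
    (hb : Bornology.IsBounded (connectedComponentIn Jᶜ w)) (hv : v ≠ 0) :
    ∃ t : ℝ, 0 < t ∧ w + t * v ∈ J ∧ ∀ s : ℝ, 0 ≤ s → s < t → w + s * v ∉ J := by
  obtain ⟨t₀, ht₀, ht₀J⟩ := ray_hits hw hb hv
  set T : Set ℝ := Ici 0 ∩ (fun t : ℝ => w + t * v) ⁻¹' J with hT
  have hTc : IsClosed T := isClosed_Ici.inter (hJ.preimage (by fun_prop))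
  have hTn : T.Nonempty := ⟨t₀, ht₀.le, ht₀J⟩
  have hTb : BddBelow T := ⟨0, fun t ht => ht.1⟩
  have hmem := hTc.csInf_mem hTn hTb
  refine ⟨sInf T, ?_, hmem.2, ?_⟩
  · rcases (Set.mem_Ici.1 hmem.1).eq_or_lt with h | h
    · exfalso
      have h2 : w + ((sInf T : ℝ) : ℂ) * v ∈ J := hmem.2
      rw [← h] at h2
      exact hw (by simpa using h2)
    · exact h
  · intro s hs0 hs hsJ
    exact absurd (csInf_le hTb (show s ∈ T from ⟨hs0, hsJ⟩)) (not_le.2 hs)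

lemma Setup.J_compact (S : Setup φ F h₁ h₂) : IsCompact (φ '' sphere (0:ℂ) 1) :=
  (isCompact_sphere (0:ℂ) 1).image_of_continuousOn S.hφ

/-- The analytic function whose real part is `Re (μ (F - w₀))`. -/
noncomputable def HH (h₁ h₂ : ℂ → ℂ) (μ w₀ : ℂ) (z : ℂ) : ℂ :=
  (μ.re : ℂ) * h₁ z - (μ.im : ℂ) * h₂ z - ((μ * w₀).re : ℂ)

lemma Setup.HH_re (S : Setup φ F h₁ h₂) (μ w₀ : ℂ) {z : ℂ} (hz : z ∈ ball (0:ℂ) 1) :
    (μ * (F z - w₀)).re = (HH h₁ h₂ μ w₀ z).re := by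
  unfold HH
  rw [sub_re, sub_re, re_ofReal_mul, re_ofReal_mul, ← S.re₁ z hz, ← S.re₂ z hz, mul_sub, sub_re,
    mul_re, ofReal_re]

lemma Setup.HH_an (S : Setup φ F h₁ h₂) (μ w₀ : ℂ) : AnalyticOnNhd ℂ (HH h₁ h₂ μ w₀) (ball 0 1) := by
  intro z hz
  exact ((analyticAt_const.mul (S.a₁ z hz)).sub (analyticAt_const.mul (S.a₂ z hz))).sub
    analyticAt_const

lemma Setup.HH_nc (S : Setup φ F h₁ h₂) {μ : ℂ} (hμ : μ ≠ 0) (w₀ : ℂ) :
    ∀ z ∈ ball (0:ℂ) 1, ¬ ∀ᶠ w in 𝓝 z, HH h₁ h₂ μ w₀ w = HH h₁ h₂ μ w₀ z := by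
  intro z hz hev
  have h0b : (0:ℂ) ∈ ball (0:ℂ) 1 := mem_ball_self one_pos
  have h1 := (S.HH_an μ w₀).eqOn_of_preconnected_of_eventuallyEq
    (analyticOnNhd_const (v := HH h₁ h₂ μ w₀ z)) (convex_ball (0:ℂ) 1).isPreconnected hz hev
  -- F stays on a line
  have h2 : ∀ w ∈ ball (0:ℂ) 1, (μ * (F w - w₀)).re = (HH h₁ h₂ μ w₀ z).re := by
    intro w hw
    rw [S.HH_re μ w₀ hw, h1 hw]
  have h3 : ∀ w ∈ closedBall (0:ℂ) 1, (μ * (F w - w₀)).re = (HH h₁ h₂ μ w₀ z).re := by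
    have hcont : ContinuousOn (fun w => (μ * (F w - w₀)).re) (closedBall (0:ℂ) 1) :=
      Complex.continuous_re.comp_continuousOn (continuousOn_const.mul (S.hF.sub continuousOn_const))
    have hcl : closure (ball (0:ℂ) 1) = closedBall 0 1 := closure_ball 0 one_ne_zero
    rw [← hcl] at hcont ⊢
    exact Set.EqOn.of_subset_closure (s := ball (0:ℂ) 1) (t := closure (ball (0:ℂ) 1))
      (f := fun w => (μ * (F w - w₀)).re) (g := fun _ => (HH h₁ h₂ μ w₀ z).re)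
      (fun w hw => h2 w hw) hcont continuousOn_const subset_closure le_rfl
  obtain ⟨hnJ, hbd⟩ := S.hin 0 h0b
  obtain ⟨t, ht, htJ⟩ := ray_hits hnJ hbd (inv_ne_zero hμ)
  obtain ⟨ζ, hζ, hζe⟩ := htJ
  have h4 := h3 ζ (sphere_subset_closedBall hζ)
  rw [S.hFs ζ hζ, hζe] at h4
  have h5 := h2 0 h0b
  have h6 : μ * (F 0 + t * μ⁻¹ - w₀) = μ * (F 0 - w₀) + t := by
    field_simp
    ring
  rw [h6, add_re, h5, ofReal_re] at h4
  linarith

lemma solve_line {μ w₀ w : ℂ} (hμ : μ ≠ 0) (h : (μ * (w - w₀)).re = 0) :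
    w = w₀ + ((μ * (w - w₀)).im : ℂ) * (I * μ⁻¹) := by
  have h1 : w = w₀ + μ⁻¹ * (μ * (w - w₀)) := by field_simp; ring
  generalize μ * (w - w₀) = q at *
  have h2 : q = (q.im : ℂ) * I := by apply Complex.ext <;> simp [h]
  calc w = w₀ + μ⁻¹ * q := h1
    _ = w₀ + μ⁻¹ * ((q.im : ℂ) * I) := by rw [← h2]
    _ = w₀ + (q.im : ℂ) * (I * μ⁻¹) := by ring

/-- The level piece. -/
def KK (F : ℂ → ℂ) (μ w₀ : ℂ) (t₁ t₂ : ℝ) : Set ℂ :=
  {z | z ∈ ball (0:ℂ) 1 ∧ ∃ t : ℝ, t ∈ Ioo (-t₁) t₂ ∧ F z = w₀ + t * (I * μ⁻¹)}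

lemma KK_closure (S : Setup φ F h₁ h₂) {μ : ℂ} (hμ : μ ≠ 0) {w₀ : ℂ} {t₁ t₂ : ℝ} {z : ℂ}
    (hz : z ∈ closedBall (0:ℂ) 1) (hzc : z ∈ closure (KK F μ w₀ t₁ t₂)) :
    ∃ t : ℝ, t ∈ Icc (-t₁) t₂ ∧ F z = w₀ + t * (I * μ⁻¹) := by
  have hsub : KK F μ w₀ t₁ t₂ ⊆ closedBall (0:ℂ) 1 := fun w hw => ball_subset_closedBall hw.1
  have h1 : ContinuousWithinAt (fun z => μ * (F z - w₀)) (KK F μ w₀ t₁ t₂) z :=
    (continuousOn_const.mul (S.hF.sub continuousOn_const) z hz).mono hsub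
  have hclosed : IsClosed {w : ℂ | w.re = 0 ∧ w.im ∈ Icc (-t₁) t₂} :=
    (isClosed_eq Complex.continuous_re continuous_const).inter
      (isClosed_Icc.preimage Complex.continuous_im)
  have h2 : μ * (F z - w₀) ∈ closure {w : ℂ | w.re = 0 ∧ w.im ∈ Icc (-t₁) t₂} := by
    refine h1.mem_closure hzc ?_
    rintro w ⟨hw, t, ht, hwe⟩
    have : μ * (F w - w₀) = t * I := by
      rw [hwe]; field_simp; ring
    show (μ * (F w - w₀)).re = 0 ∧ (μ * (F w - w₀)).im ∈ Icc (-t₁) t₂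
    rw [this]
    simp [ht.1.le, ht.2.le]
  rw [hclosed.closure_eq] at h2
  obtain ⟨h3, h4⟩ := h2
  exact ⟨(μ * (F z - w₀)).im, h4, solve_line hμ h3⟩

/-- Full package attached to a base point `w₀` and a direction `μ`. -/
structure Pkg (φ F h₁ h₂ : ℂ → ℂ) (μ w₀ : ℂ) (t₁ t₂ : ℝ) (α β : ℂ) : Prop where
  t₁pos : 0 < t₁
  t₂pos : 0 < t₂
  noJ : ∀ t : ℝ, t ∈ Ioo (-t₁) t₂ → w₀ + t * (I * μ⁻¹) ∉ φ '' sphere (0:ℂ) 1
  hα : ‖α‖ = 1
  hβ : ‖β‖ = 1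
  hUα : (μ * (F α - w₀)).re = 0
  hUβ : (μ * (F β - w₀)).re = 0
  lp : LevelPiece (HH h₁ h₂ μ w₀) 0 (KK F μ w₀ t₁ t₂)
  hcl : ∀ z : ℂ, ‖z‖ = 1 → z ∈ closure (KK F μ w₀ t₁ t₂) → z = α ∨ z = β

lemma Setup.pkg (S : Setup φ F h₁ h₂) {μ : ℂ} (hμ : μ ≠ 0) {w₀ : ℂ}
    (hw : w₀ ∉ φ '' sphere (0:ℂ) 1)
    (hb : Bornology.IsBounded (connectedComponentIn (φ '' sphere (0:ℂ) 1)ᶜ w₀)) :
    ∃ t₁ t₂ : ℝ, ∃ α β : ℂ, Pkg φ F h₁ h₂ μ w₀ t₁ t₂ α β := by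
  set J := φ '' sphere (0:ℂ) 1 with hJ
  have hJcl : IsClosed J := S.J_compact.isClosed
  have hv : I * μ⁻¹ ≠ 0 := mul_ne_zero I_ne_zero (inv_ne_zero hμ)
  obtain ⟨t₂, ht₂, ht₂J, ht₂n⟩ := first_hit hJcl hw hb hv
  obtain ⟨t₁, ht₁, ht₁J, ht₁n⟩ := first_hit hJcl hw hb (neg_ne_zero.2 hv)
  obtain ⟨β, hβs, hβe⟩ := ht₂J
  obtain ⟨α, hαs, hαe⟩ := ht₁J
  have hnoJ : ∀ t : ℝ, t ∈ Ioo (-t₁) t₂ → w₀ + t * (I * μ⁻¹) ∉ J := by
    intro t ht
    rcases le_or_gt 0 t with h | h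
    · exact ht₂n t h ht.2
    · have := ht₁n (-t) (by linarith) (by linarith [ht.1])
      push_cast at this
      rw [neg_mul_neg] at this
      exact this
  refine ⟨t₁, t₂, α, β, ht₁, ht₂, hnoJ, by simpa using hαs, by simpa using hβs, ?_, ?_, ?_, ?_⟩
  · rw [S.hFs α hαs, hαe]
    have : μ * (w₀ + t₁ * -(I * μ⁻¹) - w₀) = -(t₁ * I) := by field_simp; ring
    rw [this]; simp
  · rw [S.hFs β hβs, hβe]
    have : μ * (w₀ + t₂ * (I * μ⁻¹) - w₀) = t₂ * I := by field_simp; ring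
    rw [this]; simp
  · refine ⟨fun z hz => hz.1, ?_, ?_, ?_⟩
    · intro z hz hzc
      obtain ⟨t, ht, hte⟩ := KK_closure S hμ (ball_subset_closedBall hz) hzc
      have hnJ := (S.hin z hz).1
      refine ⟨hz, t, ⟨lt_of_le_of_ne ht.1 ?_, lt_of_le_of_ne ht.2 ?_⟩, hte⟩
      · rintro rfl
        apply hnJ
        refine ⟨α, hαs, ?_⟩
        rw [hαe, hte]; push_cast; ring
      · rintro rfl
        apply hnJ
        exact ⟨β, hβs, by rw [hβe, hte]⟩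
    · rintro z ⟨hz, t, ht, hte⟩
      rw [← S.HH_re μ w₀ hz, hte]
      have : μ * (w₀ + t * (I * μ⁻¹) - w₀) = t * I := by field_simp; ring
      rw [this]; simp
    · rintro z ⟨hz, t, ht, hte⟩
      have hFz : ContinuousAt F z := S.hF.continuousAt
        (mem_of_superset (isOpen_ball.mem_nhds hz) ball_subset_closedBall)
      have hc : ContinuousAt (fun w => (μ * (F w - w₀)).im) z :=
        Complex.continuous_im.continuousAt.comp (continuousAt_const.mul (hFz.sub continuousAt_const))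
      have hval : (μ * (F z - w₀)).im = t := by
        have : μ * (F z - w₀) = t * I := by rw [hte]; field_simp; ring
        rw [this]; simp
      have hin : ∀ᶠ w in 𝓝 z, (μ * (F w - w₀)).im ∈ Ioo (-t₁) t₂ :=
        hc.eventually (isOpen_Ioo.mem_nhds (by
          show (μ * (F z - w₀)).im ∈ _
          rw [hval]; exact ht))
      filter_upwards [hin, isOpen_ball.mem_nhds hz] with w hw1 hw2 hw3
      rw [← S.HH_re μ w₀ hw2] at hw3
      exact ⟨hw2, (μ * (F w - w₀)).im, hw1, solve_line hμ hw3⟩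
  · intro z hz hzc
    have hzs : z ∈ sphere (0:ℂ) 1 := by simpa using hz
    obtain ⟨t, ht, hte⟩ := KK_closure S hμ (sphere_subset_closedBall hzs) hzc
    have hmem : F z ∈ J := by rw [S.hFs z hzs]; exact ⟨z, hzs, rfl⟩
    have htn : t ∉ Ioo (-t₁) t₂ := by
      intro hh
      apply hnoJ t hh
      rw [← hte]; exact hmem
    rcases ht.1.eq_or_lt with h | h
    · left
      apply S.hinj hzs hαs
      rw [← S.hFs z hzs, hte, hαe, ← h]
      push_cast; ring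
    · right
      have h2 : t = t₂ := le_antisymm ht.2 (not_lt.1 fun h3 => htn ⟨h, h3⟩)
      apply S.hinj hzs hβs
      rw [← S.hFs z hzs, hte, hβe, h2]

lemma Setup.U_cont (S : Setup φ F h₁ h₂) (μ w₀ : ℂ) :
    ContinuousOn (fun z => (μ * (F z - w₀)).re) (closedBall (0:ℂ) 1) :=
  Complex.continuous_re.comp_continuousOn (continuousOn_const.mul (S.hF.sub continuousOn_const))

/-- No critical points in any direction. -/
lemma Setup.deriv_ne (S : Setup φ F h₁ h₂) {μ : ℂ} (hμ : μ ≠ 0) {z₀ : ℂ} (hz₀ : z₀ ∈ ball (0:ℂ) 1) :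
    (μ.re : ℂ) * deriv h₁ z₀ - (μ.im : ℂ) * deriv h₂ z₀ ≠ 0 := by
  obtain ⟨hw, hb⟩ := S.hin z₀ hz₀
  obtain ⟨t₁, t₂, α, β, hp⟩ := S.pkg hμ hw hb
  have h1 := no_crit (S.HH_an μ (F z₀)) (S.HH_nc hμ (F z₀)) hp.lp (S.U_cont μ (F z₀))
    (fun z hz => S.HH_re μ (F z₀) hz) hp.hα hp.hβ hp.hUα hp.hUβ hp.hcl (z₀ := z₀)
    ⟨hz₀, 0, ⟨by linarith [hp.t₁pos], hp.t₂pos⟩, by simp⟩
  have h2 : deriv (HH h₁ h₂ μ (F z₀)) z₀ = (μ.re : ℂ) * deriv h₁ z₀ - (μ.im : ℂ) * deriv h₂ z₀ := by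
    have d₁ := (S.a₁ z₀ hz₀).differentiableAt.hasDerivAt
    have d₂ := (S.a₂ z₀ hz₀).differentiableAt.hasDerivAt
    have := ((d₁.const_mul (μ.re : ℂ)).sub (d₂.const_mul (μ.im : ℂ))).sub_const ((μ * F z₀).re : ℂ)
    exact this.deriv
  rw [h2] at h1
  exact h1

/-- `F` is a local homeomorphism at the points of the ball. -/
lemma Setup.local_homeo (S : Setup φ F h₁ h₂) {z₀ : ℂ} (hz₀ : z₀ ∈ ball (0:ℂ) 1) :
    ∃ e : OpenPartialHomeomorph ℂ ℂ, z₀ ∈ e.source ∧ (e : ℂ → ℂ) = F := by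
  have d₁ : HasStrictFDerivAt h₁ (ContinuousLinearMap.restrictScalars ℝ (fderiv ℂ h₁ z₀)) z₀ :=
    (S.a₁ z₀ hz₀).hasStrictFDerivAt.restrictScalars ℝ
  have d₂ : HasStrictFDerivAt h₂ (ContinuousLinearMap.restrictScalars ℝ (fderiv ℂ h₂ z₀)) z₀ :=
    (S.a₂ z₀ hz₀).hasStrictFDerivAt.restrictScalars ℝ
  set A₁ : ℂ →L[ℝ] ℂ := ContinuousLinearMap.restrictScalars ℝ (fderiv ℂ h₁ z₀) with hA₁
  set A₂ : ℂ →L[ℝ] ℂ := ContinuousLinearMap.restrictScalars ℝ (fderiv ℂ h₂ z₀) with hA₂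
  set L : ℂ →L[ℝ] ℂ := (ofRealCLM.comp (reCLM.comp A₁)) + I • (ofRealCLM.comp (reCLM.comp A₂)) with hL
  have dF : HasStrictFDerivAt (fun z => ofRealCLM (reCLM (h₁ z)) + I • ofRealCLM (reCLM (h₂ z))) L z₀ := by
    have e₁ := ofRealCLM.hasStrictFDerivAt.comp z₀ (reCLM.hasStrictFDerivAt.comp z₀ d₁)
    have e₂ := ofRealCLM.hasStrictFDerivAt.comp z₀ (reCLM.hasStrictFDerivAt.comp z₀ d₂)
    exact e₁.add (e₂.const_smul I)
  have dF' : HasStrictFDerivAt F L z₀ := by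
    refine dF.congr_of_eventuallyEq ?_
    filter_upwards [isOpen_ball.mem_nhds hz₀] with z hz
    have r1 := S.re₁ z hz
    have r2 := S.re₂ z hz
    apply Complex.ext <;> simp [r1, r2]
  have hA₁v : ∀ v : ℂ, A₁ v = v * deriv h₁ z₀ := by
    intro v
    show (fderiv ℂ h₁ z₀) v = _
    rw [fderiv_eq_smul_deriv, smul_eq_mul]
  have hA₂v : ∀ v : ℂ, A₂ v = v * deriv h₂ z₀ := by
    intro v
    show (fderiv ℂ h₂ z₀) v = _
    rw [fderiv_eq_smul_deriv, smul_eq_mul]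
  have hinj : Function.Injective (L : ℂ →ₗ[ℝ] ℂ) := by
    rw [← LinearMap.ker_eq_bot, LinearMap.ker_eq_bot']
    intro v hv
    have hv' : ((A₁ v).re : ℂ) + I * ((A₂ v).re : ℂ) = 0 := by
      simpa [hL] using hv
    have hr : (A₁ v).re = 0 := by
      have := congrArg Complex.re hv'
      simpa using this
    have hi : (A₂ v).re = 0 := by
      have := congrArg Complex.im hv'
      simpa using this
    rw [hA₁v] at hr
    rw [hA₂v] at hi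
    by_contra hv0
    -- choose the direction
    set p : ℂ := v * deriv h₁ z₀ with hp
    set q : ℂ := v * deriv h₂ z₀ with hq
    by_cases hpq : p.im = 0 ∧ q.im = 0
    · -- then deriv h₁ = 0
      have hp0 : p = 0 := Complex.ext hr hpq.1
      have h1 : deriv h₁ z₀ = 0 := by
        rw [hp] at hp0
        exact (mul_eq_zero.1 hp0).resolve_left hv0
      have := S.deriv_ne (μ := 1) one_ne_zero hz₀
      simp [h1] at this
    · have hμ : (⟨q.im, p.im⟩ : ℂ) ≠ 0 := by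
        intro h0
        apply hpq
        have h1 := congrArg Complex.re h0
        have h2 := congrArg Complex.im h0
        simp at h1 h2
        exact ⟨h2, h1⟩
      have h3 := S.deriv_ne hμ hz₀
      apply h3
      have h4 : v * (((⟨q.im, p.im⟩ : ℂ).re : ℂ) * deriv h₁ z₀ - ((⟨q.im, p.im⟩ : ℂ).im : ℂ) * deriv h₂ z₀)
          = (q.im : ℂ) * p - (p.im : ℂ) * q := by
        rw [hp, hq]; ring
      have h5 : (q.im : ℂ) * p - (p.im : ℂ) * q = 0 := by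
        apply Complex.ext
        · simp [hr, hi]
        · simp; ring
      rw [h5] at h4
      exact (mul_eq_zero.1 h4).resolve_left hv0
  set Le : ℂ ≃L[ℝ] ℂ := (LinearEquiv.ofInjectiveEndo (L : ℂ →ₗ[ℝ] ℂ) hinj).toContinuousLinearEquiv
    with hLe
  have hcoe : (Le : ℂ →L[ℝ] ℂ) = L := by
    ext v
    simp [hLe]
  have dF'' : HasStrictFDerivAt F (Le : ℂ →L[ℝ] ℂ) z₀ := by rw [hcoe]; exact dF'
  exact ⟨dF''.toOpenPartialHomeomorph F, dF''.mem_toOpenPartialHomeomorph_source, rfl⟩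

end Pool.Agent.Helper37.Harm
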