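import Pool.Agent.Helper37.HarmY

set_option autoImplicit false

open Complex Metric Set Filter Topology

namespace Pool.Agent.Helper37.Harm

/-- The ray direction number `l`. -/
noncomputable def dir (e : ℂ) (m l : ℕ) : ℂ := e * exp (((l * Real.pi / m : ℝ) : ℂ) * I)

lemma dir_pow {e : ℂ} {m : ℕ} (hm : 1 ≤ m) (l : ℕ) : (dir e m l) ^ m = (-1) ^ l * e ^ m := by
  unfold dir
  have hm0 : (m:ℂ) ≠ 0 := by exact_mod_cast (by omega : m ≠ 0)
  rw [mul_pow, ← exp_nat_mul]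
  have h1 : (m:ℂ) * (((l * Real.pi / m : ℝ) : ℂ) * I) = l * (Real.pi * I) := by
    push_cast; field_simp
  rw [h1, exp_nat_mul, exp_pi_mul_I]
  ring

lemma norm_dir {e : ℂ} (he : ‖e‖ = 1) (m l : ℕ) : ‖dir e m l‖ = 1 := by
  unfold dir
  rw [norm_mul, norm_exp_ofReal_mul_I, he, one_mul]

lemma sign_structure {h : ℂ → ℂ} {z₀ : ℂ} (ha : AnalyticAt ℂ h z₀)
    (hnc : ¬ ∀ᶠ w in 𝓝 z₀, h w = h z₀) :
    ∃ m : ℕ, 1 ≤ m ∧ (deriv h z₀ = 0 → 2 ≤ m) ∧ (deriv h z₀ ≠ 0 → m = 1) ∧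
    ∃ e : ℂ, ‖e‖ = 1 ∧ ∃ s₀ : ℝ, 0 < s₀ ∧
    ∀ ρ : ℝ, 0 < ρ → ρ ≤ s₀ → ∀ l : ℕ,
      0 < (-1 : ℝ) ^ l * ((h (z₀ + ρ * dir e m l)).re - (h z₀).re) := by
  have hf : AnalyticAt ℂ (fun z => h z - h z₀) z₀ := ha.sub analyticAt_const
  have hf0 : ¬ ∀ᶠ z in 𝓝 z₀, (fun z => h z - h z₀) z = 0 := by
    intro hh
    apply hnc
    filter_upwards [hh] with z hz
    exact sub_eq_zero.1 hz
  obtain ⟨m, k, hk, hk0, hev⟩ := hf.exists_eventuallyEq_pow_smul_nonzero_iff.2 hf0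
  have hev0 := hev.self_of_nhds
  simp only [sub_self, smul_eq_mul] at hev0
  have hm1 : 1 ≤ m := by
    rcases Nat.eq_zero_or_pos m with h0 | h0
    · exfalso
      rw [h0, pow_zero, one_mul] at hev0
      exact hk0 hev0.symm
    · exact h0
  have hm0 : (m:ℂ) ≠ 0 := by exact_mod_cast (by omega : m ≠ 0)
  have hder : deriv h z₀ = deriv (fun z => (z - z₀) ^ m * k z) z₀ := by
    have h1 : deriv h z₀ = deriv (fun z => h z - h z₀) z₀ := by
      rw [deriv_sub_const]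
    rw [h1]
    exact Filter.EventuallyEq.deriv_eq hev
  have hder2 : deriv (fun z => (z - z₀) ^ m * k z) z₀ = m * (0:ℂ) ^ (m - 1) * k z₀ := by
    have h1 : HasDerivAt (fun z : ℂ => (z - z₀) ^ m) (m * (z₀ - z₀) ^ (m - 1) * 1) z₀ :=
      ((hasDerivAt_id z₀).sub_const z₀).pow m
    have h2 : HasDerivAt (fun z : ℂ => (z - z₀) ^ m * k z)
        (m * (z₀ - z₀) ^ (m - 1) * 1 * k z₀ + (z₀ - z₀) ^ m * deriv k z₀) z₀ :=
      h1.mul hk.differentiableAt.hasDerivAt
    rw [h2.deriv]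
    simp only [sub_self, mul_one, add_eq_left, mul_eq_zero, pow_eq_zero_iff', ne_eq, true_and]
    exact Or.inl (by omega)
  refine ⟨m, hm1, ?_, ?_, ?_⟩
  · intro hd0
    by_contra hlt
    have hm : m = 1 := by omega
    rw [hder, hder2, hm] at hd0
    simp at hd0
    exact hk0 hd0
  · intro hd0
    by_contra hlt
    apply hd0
    rw [hder, hder2, zero_pow (by omega)]
    ring
  -- direction
  set e : ℂ := exp (((-(k z₀).arg / m : ℝ) : ℂ) * I) with he
  have hepow : e ^ m * k z₀ = ‖k z₀‖ := by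
    rw [he, ← exp_nat_mul]
    have h1 : (m:ℂ) * (((-(k z₀).arg / m : ℝ) : ℂ) * I) = -((k z₀).arg * I) := by
      push_cast; field_simp
    rw [h1]
    calc exp (-((k z₀).arg * I)) * k z₀
        = exp (-((k z₀).arg * I)) * (‖k z₀‖ * exp ((k z₀).arg * I)) := by
          rw [norm_mul_exp_arg_mul_I (k z₀)]
      _ = ‖k z₀‖ := by
          rw [exp_neg]
          have := exp_ne_zero ((k z₀).arg * I)
          field_simp
  have hre : 0 < (e ^ m * k z₀).re := by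
    rw [hepow, ofReal_re]
    exact norm_pos_iff.2 hk0
  have henorm : ‖e‖ = 1 := norm_exp_ofReal_mul_I _
  have hcont : ContinuousAt (fun z => (e ^ m * k z).re) z₀ :=
    Complex.continuous_re.continuousAt.comp (continuousAt_const.mul hk.continuousAt)
  have hpos : ∀ᶠ z in 𝓝 z₀, 0 < (e ^ m * k z).re := hcont.eventually (lt_mem_nhds hre)
  obtain ⟨r, hr, hrb⟩ := Metric.eventually_nhds_iff_ball.1 (hpos.and hev)
  refine ⟨e, henorm, r / 2, by positivity, ?_⟩
  intro ρ hρ hρr l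
  have hmem : z₀ + ρ * dir e m l ∈ ball z₀ r := by
    rw [mem_ball_iff_norm, add_sub_cancel_left, norm_mul, norm_dir henorm, norm_real,
      Real.norm_of_nonneg hρ.le]
    linarith
  obtain ⟨h1, h2⟩ := hrb _ hmem
  simp only [smul_eq_mul, add_sub_cancel_left] at h2
  have h3 : (h (z₀ + ρ * dir e m l)).re - (h z₀).re
      = (-1) ^ l * (ρ ^ m * (e ^ m * k (z₀ + ρ * dir e m l)).re) := by
    rw [← sub_re, h2, mul_pow, dir_pow hm1]
    have : (ρ:ℂ) ^ m * ((-1) ^ l * e ^ m) * k (z₀ + ρ * dir e m l)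
      = (((-1) ^ l * ρ ^ m : ℝ) : ℂ) * (e ^ m * k (z₀ + ρ * dir e m l)) := by
      push_cast; ring
    rw [this, re_ofReal_mul]
    ring
  rw [h3, ← mul_assoc, ← mul_pow]
  simp only [mul_neg, mul_one, neg_neg, one_pow, one_mul]
  exact mul_pos (pow_pos hρ m) h1

lemma dir_exp (e : ℂ) {m : ℕ} (hm : 1 ≤ m) (i j : ℕ) (hij : i ≤ j) :
    dir e m i * exp ((((j - i : ℕ) * Real.pi / m : ℝ) : ℂ) * I) = dir e m j := by
  unfold dir
  have hm0 : (m:ℂ) ≠ 0 := by exact_mod_cast (by omega : m ≠ 0)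
  rw [mul_assoc, ← exp_add]
  congr 2
  push_cast [Nat.cast_sub hij]
  field_simp
  ring

/-- Distinct (far enough) sectors lie in distinct components of the complement of `K`. -/
theorem lemmaXS {h : ℂ → ℂ} (hd : AnalyticOnNhd ℂ h (ball 0 1))
    (hnc : ∀ z ∈ ball (0:ℂ) 1, ¬ ∀ᶠ w in 𝓝 z, h w = h z)
    {z₀ : ℂ} (hz₀b : z₀ ∈ ball (0:ℂ) 1)
    {m : ℕ} (hm : 1 ≤ m) {e : ℂ} (he : ‖e‖ = 1) {s₀ : ℝ} (hs₀ : 0 < s₀)
    (hsign : ∀ ρ : ℝ, 0 < ρ → ρ ≤ s₀ → ∀ l : ℕ,
      0 < (-1 : ℝ) ^ l * ((h (z₀ + ρ * dir e m l)).re - (h z₀).re)) :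
    ∃ s₁ : ℝ, 0 < s₁ ∧ ∀ K : Set ℂ, ∀ c : ℝ, LevelPiece h c K → z₀ ∈ K → ∀ s : ℝ, 0 < s → s ≤ s₁ →
      (∀ l : ℕ, z₀ + s * dir e m l ∈ ball (0:ℂ) 1 \ K) ∧
      ∀ i j : ℕ, i < j → j + 1 ≤ i + 2 * m →
        connectedComponentIn (ball (0:ℂ) 1 \ K) (z₀ + s * dir e m i) ≠
        connectedComponentIn (ball (0:ℂ) 1 \ K) (z₀ + s * dir e m j) := by
  obtain ⟨r, hr, hrb⟩ := Metric.isOpen_iff.1 isOpen_ball z₀ hz₀b
  have hmR : (0:ℝ) < m := by exact_mod_cast (by omega : 0 < m)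
  have hpi := Real.pi_pos
  refine ⟨min s₀ (r / 2), lt_min hs₀ (by positivity), ?_⟩
  intro K c hK hz₀ s hs hss
  have hc : (h z₀).re = c := hK.level z₀ hz₀
  have hballr : ∀ ρ : ℝ, 0 < ρ → ρ < r → ∀ x : ℂ, ‖x‖ = 1 → z₀ + ρ * x ∈ ball (0:ℂ) 1 := by
    intro ρ hρ hρr x hx
    apply hrb
    rw [mem_ball_iff_norm, add_sub_cancel_left, norm_mul, hx, norm_real,
      Real.norm_of_nonneg hρ.le]
    linarith
  have hbase : ∀ ρ : ℝ, 0 < ρ → ρ ≤ s → ∀ l : ℕ, z₀ + ρ * dir e m l ∈ ball (0:ℂ) 1 \ K := by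
    intro ρ hρ hρs l
    have h1 : ρ ≤ s₀ := hρs.trans (hss.trans (min_le_left _ _))
    have h2 : ρ ≤ r / 2 := hρs.trans (hss.trans (min_le_right _ _))
    refine ⟨hballr ρ hρ (by linarith) _ (norm_dir he m l), fun hKm => ?_⟩
    have h3 := hsign ρ hρ h1 l
    rw [hK.level _ hKm, hc, sub_self, mul_zero] at h3
    exact lt_irrefl _ h3
  refine ⟨fun l => hbase s hs le_rfl l, ?_⟩
  intro i j hij hj2 hcomp
  set M := ball (0:ℂ) 1 \ K with hM
  have hMo : IsOpen M := hK.isOpen_compl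
  have hpi' : z₀ + s * dir e m i ∈ connectedComponentIn M (z₀ + s * dir e m i) :=
    mem_connectedComponentIn (hbase s hs le_rfl i)
  have hpj' : z₀ + s * dir e m j ∈ connectedComponentIn M (z₀ + s * dir e m i) := by
    rw [hcomp]; exact mem_connectedComponentIn (hbase s hs le_rfl j)
  have hpath : PathLog M (z₀ + s * dir e m i) (z₀ + s * dir e m j) :=
    PathLog.of_preconnected hMo isPreconnected_connectedComponentIn
      (connectedComponentIn_subset _ _) hpi' hpj'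
  -- K-points in every sector
  obtain ⟨r₁, hr₁, hr₁b⟩ := Metric.eventually_nhds_iff_ball.1 (hK.opn z₀ hz₀)
  have hcross : ∀ ρ : ℝ, 0 < ρ → ρ < min s r₁ → ∀ l : ℕ, ∃ ψ : ℝ, l * Real.pi / m < ψ ∧
      ψ < (l + 1 : ℕ) * Real.pi / m ∧ z₀ + ρ * (e * exp (ψ * I)) ∈ K := by
    intro ρ hρ hρ2 l
    have hρs : ρ < s := hρ2.trans_le (min_le_left _ _)
    have hρr₁ : ρ < r₁ := hρ2.trans_le (min_le_right _ _)
    have hρs₀ : ρ ≤ s₀ := hρs.le.trans (hss.trans (min_le_left _ _))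
    have hρr : ρ < r := by
      have : ρ ≤ r / 2 := hρs.le.trans (hss.trans (min_le_right _ _))
      linarith
    have hlt : (l:ℝ) * Real.pi / m < ((l + 1 : ℕ) : ℝ) * Real.pi / m := by
      push_cast
      gcongr
      linarith
    have hn : ∀ ψ : ℝ, ‖e * exp (ψ * I)‖ = 1 := by
      intro ψ; rw [norm_mul, norm_exp_ofReal_mul_I, he, one_mul]
    set F : ℝ → ℝ := fun ψ => (-1 : ℝ) ^ l * ((h (z₀ + ρ * (e * exp (ψ * I)))).re - c) with hF
    have hFc : Continuous F := by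
      rw [continuous_iff_continuousAt]
      intro ψ
      have h1 : ContinuousAt h (z₀ + ρ * (e * exp (ψ * I))) :=
        (hd _ (hballr ρ hρ hρr _ (hn ψ))).continuousAt
      have h2 : ContinuousAt (fun ψ : ℝ => h (z₀ + ρ * (e * exp (ψ * I)))) ψ :=
        ContinuousAt.comp (f := fun ψ : ℝ => z₀ + ρ * (e * exp (ψ * I))) h1 (by fun_prop)
      exact continuousAt_const.mul ((Complex.continuous_re.continuousAt.comp h2).sub
        continuousAt_const)
    have hF0 : 0 < F (l * Real.pi / m) := by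
      have := hsign ρ hρ hρs₀ l
      rw [hc] at this
      exact this
    have hF1 : F ((l + 1 : ℕ) * Real.pi / m) < 0 := by
      have := hsign ρ hρ hρs₀ (l + 1)
      rw [hc, pow_succ] at this
      have h4 : F ((l + 1 : ℕ) * Real.pi / m)
        = (-1 : ℝ) ^ l * ((h (z₀ + ρ * dir e m (l + 1))).re - c) := rfl
      rw [h4]
      linarith
    obtain ⟨ψ, hψ, hψ0⟩ := intermediate_value_Ioo' hlt.le hFc.continuousOn
      (show (0:ℝ) ∈ Ioo _ _ from ⟨hF1, hF0⟩)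
    refine ⟨ψ, hψ.1, hψ.2, ?_⟩
    apply hr₁b
    · rw [mem_ball_iff_norm, add_sub_cancel_left, norm_mul, hn, norm_real,
        Real.norm_of_nonneg hρ.le]
      linarith
    · simp only [hF] at hψ0
      rcases mul_eq_zero.1 hψ0 with h5 | h5
      · exact absurd h5 (pow_ne_zero _ (by norm_num))
      · linarith
  have hdiri : dir e m i ≠ 0 := by
    rw [← norm_pos_iff, norm_dir he]; exact one_pos
  have hji : ((j - i : ℕ) : ℝ) = j - i := Nat.cast_sub hij.le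
  have hconv : ∀ ψ : ℝ, e * exp (ψ * I) = dir e m i * exp (((ψ - i * Real.pi / m : ℝ) : ℂ) * I) := by
    intro ψ
    unfold dir
    rw [mul_assoc, ← exp_add]
    congr 2
    push_cast
    ring
  have hijR : (i:ℝ) + 1 ≤ j := by exact_mod_cast hij
  have hj2R : (j:ℝ) + 1 ≤ i + 2 * m := by exact_mod_cast hj2
  refine lemmaX hd hnc hK hz₀ hdiri (θ := (j - i : ℕ) * Real.pi / m) (s := s) ?_ ?_ hs
    (fun ρ hρ hρs => hbase ρ hρ hρs i) ?_ ?_ ?_ ?_
  · rw [hji]
    have : (0:ℝ) < j - i := by linarith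
    positivity
  · rw [hji, div_lt_iff₀ hmR]
    nlinarith
  · intro ρ hρ hρs
    rw [dir_exp e hm i j hij.le]
    exact hbase ρ hρ hρs j
  · rw [dir_exp e hm i j hij.le]
    exact hpath
  · intro ε hε
    have hmin : 0 < min ε (min s r₁) := lt_min hε (lt_min hs hr₁)
    refine ⟨min ε (min s r₁) / 2, by positivity, ?_, ?_⟩
    · have : min ε (min s r₁) ≤ ε := min_le_left _ _
      linarith
    · have h6 : min ε (min s r₁) / 2 < min s r₁ := by
        have : min ε (min s r₁) ≤ min s r₁ := min_le_right _ _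
        have : 0 < min s r₁ := lt_min hs hr₁
        linarith
      obtain ⟨ψ, h1, h2, h3⟩ := hcross _ (by positivity) h6 i
      refine ⟨ψ - i * Real.pi / m, by linarith, ?_, ?_⟩
      · rw [hji]
        rw [lt_div_iff₀ hmR] at h2 ⊢
        have h7 : (i * Real.pi / m) * m = i * Real.pi := by field_simp
        push_cast at h2
        nlinarith
      · rw [← hconv]; exact h3
  · intro ε hε
    have hmin : 0 < min ε (min s r₁) := lt_min hε (lt_min hs hr₁)
    refine ⟨min ε (min s r₁) / 2, by positivity, ?_, ?_⟩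
    · have : min ε (min s r₁) ≤ ε := min_le_left _ _
      linarith
    · have h6 : min ε (min s r₁) / 2 < min s r₁ := by
        have : min ε (min s r₁) ≤ min s r₁ := min_le_right _ _
        have : 0 < min s r₁ := lt_min hs hr₁
        linarith
      obtain ⟨ψ, h1, h2, h3⟩ := hcross _ (by positivity) h6 j
      refine ⟨ψ - i * Real.pi / m, ?_, ?_, ?_⟩
      · rw [hji]
        have h7 : (↑j - ↑i) * Real.pi / m = j * Real.pi / m - i * Real.pi / m := by ring
        linarith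
      · rw [lt_div_iff₀ hmR] at h2
        have h7 : (i * Real.pi / m) * m = i * Real.pi := by field_simp
        push_cast at h2
        have h8 : (ψ - i * Real.pi / m) * m < 2 * Real.pi * m := by nlinarith
        exact lt_of_mul_lt_mul_right h8 hmR.le
      · rw [← hconv]; exact h3

end Pool.Agent.Helper37.Harm
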