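import Mathlib

set_option autoImplicit false

open Complex Metric Set Filter Topology

namespace Pool.Agent.Helper37.Harm

/-- local non-extremality for nonconstant analytic functions -/
lemma exists_push {h : ℂ → ℂ} {z : ℂ} (ha : AnalyticAt ℂ h z)
    (hnc : ¬ ∀ᶠ w in 𝓝 z, h w = h z) {N : Set ℂ} (hN : N ∈ 𝓝 z) (v : ℂ) :
    ∃ δ : ℝ, 0 < δ ∧ ∃ w ∈ N, h w = h z + δ * v := by
  rcases ha.eventually_constant_or_nhds_le_map_nhds with h1 | h1
  · exact absurd h1 hnc
  · have h0 : h '' N ∈ 𝓝 (h z) := h1 (Filter.image_mem_map hN)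
    have ht : Tendsto (fun δ : ℝ => h z + (δ:ℂ) * v) (𝓝[>] 0) (𝓝 (h z)) := by
      have h2 : Continuous (fun δ : ℝ => h z + (δ:ℂ) * v) := by fun_prop
      have h3 := h2.tendsto 0
      simp only [ofReal_zero, zero_mul, add_zero] at h3
      exact h3.mono_left nhdsWithin_le_nhds
    have h2 : ∀ᶠ δ : ℝ in 𝓝[>] 0, h z + (δ:ℂ) * v ∈ h '' N := ht h0
    obtain ⟨δ, hδ, hpos⟩ := (h2.and self_mem_nhdsWithin).exists
    obtain ⟨w, hw, he⟩ := hδ
    exact ⟨δ, hpos, w, hw, he⟩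

/-- `(q - z)/(p - z)` lies in the slit plane off the segment. -/
lemma div_mem_slit {p q z : ℂ} (hz : z ∉ segment ℝ p q) : (q - z) / (p - z) ∈ slitPlane := by
  have hp : p - z ≠ 0 := by
    intro h0
    apply hz
    rw [← sub_eq_zero.1 h0]
    exact left_mem_segment ℝ p q
  rw [mem_slitPlane_iff_not_le_zero]
  intro hle
  obtain ⟨t, ht⟩ : ∃ t : ℝ, (q - z) / (p - z) = t := by
    refine ⟨((q - z) / (p - z)).re, ?_⟩
    have := (Complex.le_def.1 hle).2
    apply Complex.ext <;> simp [this]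
  have ht0 : t ≤ 0 := by
    have := (Complex.le_def.1 hle).1
    rw [ht] at this
    simpa using this
  apply hz
  rw [div_eq_iff hp] at ht
  have hpos : (0:ℝ) < 1 - t := by linarith
  refine ⟨(-t) / (1 - t), 1 / (1 - t), div_nonneg (by linarith) hpos.le, by positivity,
    by field_simp; ring, ?_⟩
  have hne : ((1 - t : ℝ) : ℂ) ≠ 0 := by exact_mod_cast hpos.ne'
  have : z * ((1 - t : ℝ) : ℂ) = q - t * p := by push_cast; linear_combination -ht
  simp only [real_smul]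
  push_cast at this hne ⊢
  field_simp
  linear_combination -this

/-- Logarithm along one segment -/
noncomputable def slog (p q z : ℂ) : ℂ := log ((q - z) / (p - z))

lemma slog_continuousOn (p q : ℂ) : ContinuousOn (slog p q) (segment ℝ p q)ᶜ := by
  intro z hz
  have h1 := div_mem_slit hz
  have hp : p - z ≠ 0 := by
    intro h0
    apply hz
    rw [← sub_eq_zero.1 h0]
    exact left_mem_segment ℝ p q
  have h2 : ContinuousAt (fun z : ℂ => (q - z) / (p - z)) z :=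
    ContinuousAt.div (by fun_prop) (by fun_prop) hp
  exact (h2.clog h1).continuousWithinAt

lemma slog_exp {p q z : ℂ} (hz : z ∉ segment ℝ p q) : exp (slog p q z) = (q - z) / (p - z) := by
  unfold slog
  exact exp_log (slitPlane_ne_zero (div_mem_slit hz))

lemma slog_tendsto (p q : ℂ) : Tendsto (slog p q) (cocompact ℂ) (𝓝 0) := by
  unfold slog
  have h1 : Tendsto (fun z : ℂ => (q - z) / (p - z)) (cocompact ℂ) (𝓝 1) := by
    have h2 : Tendsto (fun z : ℂ => p - z) (cocompact ℂ) (cocompact ℂ) := by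
      exact (Homeomorph.subLeft p).isClosedEmbedding.tendsto_cocompact
    have h3 : Tendsto (fun z : ℂ => 1 + (q - p) * (p - z)⁻¹) (cocompact ℂ) (𝓝 (1 + (q - p) * 0)) := by
      apply Tendsto.const_add
      apply Tendsto.const_mul
      exact (tendsto_inv₀_cobounded (α := ℂ)).comp (by rw [Metric.cobounded_eq_cocompact]; exact h2)
    simp only [mul_zero, add_zero] at h3
    refine h3.congr' ?_
    have h4 : ∀ᶠ z in cocompact ℂ, z ∉ ({p} : Set ℂ) := isCompact_singleton.compl_mem_cocompact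
    filter_upwards [h4] with z hz
    have : p - z ≠ 0 := fun h0 => hz (sub_eq_zero.1 h0).symm
    field_simp
    ring
  have h5 : Tendsto log (𝓝 1) (𝓝 (log 1)) := (continuousAt_clog (by simp)).tendsto
  rw [log_one] at h5
  exact h5.comp h1

/-- `PathLog M p q`: log of (q - z)/(p - z) off a compact connecting set inside M -/
def PathLog (M : Set ℂ) (p q : ℂ) : Prop :=
  ∃ (Λ : Set ℂ) (f : ℂ → ℂ), IsCompact Λ ∧ Λ ⊆ M ∧ p ∈ Λ ∧ q ∈ Λ ∧ ContinuousOn f Λᶜ ∧
    (∀ z ∈ Λᶜ, exp (f z) = (q - z) / (p - z)) ∧ Tendsto f (cocompact ℂ) (𝓝 0)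

lemma PathLog.mono {M M' : Set ℂ} {p q : ℂ} (h : PathLog M p q) (hM : M ⊆ M') : PathLog M' p q := by
  obtain ⟨Λ, f, h1, h2, h3⟩ := h
  exact ⟨Λ, f, h1, h2.trans hM, h3⟩

lemma PathLog.symm {M : Set ℂ} {p q : ℂ} (h : PathLog M p q) : PathLog M q p := by
  obtain ⟨Λ, f, h1, h2, h3, h4, h5, h6, h7⟩ := h
  refine ⟨Λ, fun z => - f z, h1, h2, h4, h3, h5.neg, ?_, ?_⟩
  · intro z hz
    rw [exp_neg, h6 z hz, inv_div]
  · simpa using h7.neg

lemma PathLog.trans {M : Set ℂ} {p q r : ℂ} (h : PathLog M p q) (h' : PathLog M q r) :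
    PathLog M p r := by
  obtain ⟨Λ, f, h1, h2, h3, h4, h5, h6, h7⟩ := h
  obtain ⟨Λ', f', h1', h2', h3', h4', h5', h6', h7'⟩ := h'
  refine ⟨Λ ∪ Λ', fun z => f' z + f z, h1.union h1', union_subset h2 h2', Or.inl h3, Or.inr h4',
    ?_, ?_, ?_⟩
  · apply ContinuousOn.add
    · exact h5'.mono (compl_subset_compl.2 subset_union_right)
    · exact h5.mono (compl_subset_compl.2 subset_union_left)
  · intro z hz
    have hz1 : z ∈ Λᶜ := fun h => hz (Or.inl h)
    have hz2 : z ∈ Λ'ᶜ := fun h => hz (Or.inr h)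
    have hq : q - z ≠ 0 := by
      intro h0
      rw [← sub_eq_zero.1 h0] at hz1
      exact hz1 h4
    rw [exp_add, h6 z hz1, h6' z hz2, div_mul_div_cancel₀ hq]
  · simpa using h7'.add h7

lemma PathLog.of_segment {M : Set ℂ} {p q : ℂ} (h : segment ℝ p q ⊆ M) : PathLog M p q := by
  refine ⟨segment ℝ p q, slog p q, ?_, h, left_mem_segment ℝ p q, right_mem_segment ℝ p q,
    slog_continuousOn p q, fun z hz => slog_exp hz, slog_tendsto p q⟩
  rw [segment_eq_image_lineMap]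
  exact isCompact_Icc.image (by fun_prop)

lemma PathLog.of_preconnected {M Ω : Set ℂ} (hM : IsOpen M) (hΩ : IsPreconnected Ω) (hs : Ω ⊆ M)
    {p q : ℂ} (hp : p ∈ Ω) (hq : q ∈ Ω) : PathLog M p q := by
  refine hΩ.induction₂ (PathLog M) ?_ (fun _ _ _ _ _ _ h1 h2 => h1.trans h2)
    (fun _ _ _ _ h1 => h1.symm) hp hq
  intro x hx
  obtain ⟨r, hr, hb⟩ := Metric.isOpen_iff.1 hM x (hs hx)
  apply mem_nhdsWithin_of_mem_nhds
  filter_upwards [ball_mem_nhds x hr] with y hy
  exact PathLog.of_segment (((convex_ball x r).segment_subset (mem_ball_self hr) hy).trans hb)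

/-- the discrete set `2πiℤ` -/
def twoPiZ : Set ℂ := (AddSubgroup.zmultiples (2 * (Real.pi : ℂ) * I) : Set ℂ)

lemma twoPiZ_discrete : IsDiscrete twoPiZ := by
  rw [isDiscrete_iff_discreteTopology]
  exact NormedSpace.discreteTopology_zmultiples _

lemma mem_twoPiZ {w : ℂ} (h : exp w = 1) : w ∈ twoPiZ := by
  rw [exp_eq_one_iff] at h
  obtain ⟨n, hn⟩ := h
  refine ⟨n, ?_⟩
  simp [hn]

lemma twoPiZ_eq_zero {w : ℂ} (h : w ∈ twoPiZ) (hn : ‖w‖ < 2 * Real.pi) : w = 0 := by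
  obtain ⟨n, hn'⟩ := h
  have h1 : w = n * (2 * (Real.pi : ℂ) * I) := by simp [← hn']
  rw [h1] at hn
  simp only [norm_mul, norm_intCast, Complex.norm_ofNat, norm_real, Real.norm_eq_abs, norm_I,
    mul_one, abs_of_pos Real.pi_pos] at hn
  have h2 : |(n:ℝ)| < 1 := by
    by_contra hcon
    push Not at hcon
    nlinarith [Real.pi_pos]
  have h3 : |n| < 1 := by exact_mod_cast h2
  rw [Int.abs_lt_one_iff] at h3
  rw [h1, h3]
  simp

structure LevelPiece (h : ℂ → ℂ) (c : ℝ) (K : Set ℂ) : Prop where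
  sub : K ⊆ ball 0 1
  closed : ∀ z ∈ ball (0:ℂ) 1, z ∈ closure K → z ∈ K
  level : ∀ z ∈ K, (h z).re = c
  opn : ∀ z ∈ K, ∀ᶠ w in 𝓝 z, (h w).re = c → w ∈ K

/-- The extremal argument: a closed discrete-valued winding function `g`, vanishing near the
circle, cannot select a proper compact piece of a level set attached at one point. -/
lemma extremal {h : ℂ → ℂ} (hd : AnalyticOnNhd ℂ h (ball 0 1))
    (hnc : ∀ z ∈ ball (0:ℂ) 1, ¬ ∀ᶠ w in 𝓝 z, h w = h z)
    {c : ℝ} {K : Set ℂ} (hK : LevelPiece h c K) {z₀ : ℂ} (hz₀ : z₀ ∈ K)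
    {Λ : Set ℂ} (hΛ : IsCompact Λ) (hΛK : ∀ z ∈ Λ, z ∈ K → z = z₀) (hΛb : Λ ⊆ ball 0 1)
    (hzΛ : z₀ ∈ Λ)
    {g : ℂ → ℂ} (hg : ContinuousOn g Λᶜ) (hexp : ∀ z ∈ Λᶜ, exp (g z) = 1)
    (hg0 : Tendsto g (cocompact ℂ) (𝓝 0)) {z₁ : ℂ} (hz₁ : z₁ ∈ K) (hne : z₁ ≠ z₀)
    (hg1 : g z₁ ≠ 0) : False := by
  -- radius
  obtain ⟨ρ, hρ1, hρ⟩ : ∃ ρ : ℝ, ρ < 1 ∧ ∀ z ∈ Λ, ‖z‖ < ρ := by
    obtain ⟨y, hy, hmax⟩ := hΛ.exists_isMaxOn ⟨z₀, hzΛ⟩ continuous_norm.continuousOn
    have hy1 : ‖y‖ < 1 := by simpa using hΛb hy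
    refine ⟨(‖y‖ + 1) / 2, by linarith, fun z hz => ?_⟩
    have : ‖z‖ ≤ ‖y‖ := hmax hz
    linarith
  have hρ0 : 0 < ρ := (norm_nonneg z₀).trans_lt (hρ z₀ hzΛ)
  -- g vanishes outside
  have hout : ∀ z : ℂ, ρ ≤ ‖z‖ → g z = 0 := by
    intro z hz
    have hzpos : 0 < ‖z‖ := hρ0.trans_le hz
    set R : Set ℂ := (fun t : ℝ => (t:ℂ) * z) '' (Ici 1) with hR
    have hRpre : IsPreconnected R := isPreconnected_Ici.image _ (by fun_prop)
    have hnorm : ∀ t : ℝ, 1 ≤ t → ρ ≤ ‖(t:ℂ) * z‖ := by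
      intro t ht
      rw [norm_mul, norm_real, Real.norm_of_nonneg (by linarith)]
      nlinarith
    have hRsub : R ⊆ Λᶜ := by
      rintro _ ⟨t, ht, rfl⟩ hmem
      have := hρ _ hmem
      have := hnorm t ht
      simp only at *
      linarith
    have hconst : ∀ t : ℝ, 1 ≤ t → g ((t:ℂ) * z) = g z := by
      intro t ht
      refine hRpre.constant_of_mapsTo twoPiZ_discrete (hg.mono hRsub)
        (fun w hw => mem_twoPiZ (hexp w (hRsub hw))) ⟨t, ht, rfl⟩ ⟨1, by simp, by simp⟩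
    have ht : Tendsto (fun t : ℝ => (t:ℂ) * z) atTop (cocompact ℂ) := by
      rw [← Metric.cobounded_eq_cocompact, ← tendsto_norm_atTop_iff_cobounded]
      have : (fun t : ℝ => ‖(t:ℂ) * z‖) = fun t : ℝ => |t| * ‖z‖ := by
        ext t; simp
      rw [this]
      exact tendsto_abs_atTop_atTop.atTop_mul_const hzpos
    have h1 := hg0.comp ht
    have h2 : Tendsto (fun t : ℝ => g z) atTop (𝓝 0) := by
      refine h1.congr' ?_
      filter_upwards [eventually_ge_atTop (1:ℝ)] with t ht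
      exact hconst t ht
    exact tendsto_nhds_unique tendsto_const_nhds h2
  -- local constancy
  have hloc : ∀ z ∈ Λᶜ, ∀ᶠ w in 𝓝 z, g w = g z := by
    intro z hz
    have hopen : IsOpen Λᶜ := hΛ.isClosed.isOpen_compl
    obtain ⟨r, hr, hb⟩ := Metric.isOpen_iff.1 hopen z hz
    filter_upwards [ball_mem_nhds z hr] with w hw
    exact (convex_ball z r).isPreconnected.constant_of_mapsTo twoPiZ_discrete (hg.mono hb)
      (fun w hw => mem_twoPiZ (hexp w (hb hw))) hw (mem_ball_self hr)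
  set E : Set ℂ := {z | z ∈ K ∧ z ≠ z₀ ∧ g z ≠ 0} ∪ {z₀} with hE
  have hEK : E ⊆ K := by
    rintro z (hz | hz)
    · exact hz.1
    · rw [mem_singleton_iff.1 hz]; exact hz₀
  have hEball : E ⊆ ball 0 1 := hEK.trans hK.sub
  have hEbd : E ⊆ closedBall 0 ρ := by
    rintro z (hz | hz)
    · rw [mem_closedBall_zero_iff]
      by_contra hcon
      push Not at hcon
      exact hz.2.2 (hout z hcon.le)
    · rw [mem_singleton_iff.1 hz, mem_closedBall_zero_iff]
      exact (hρ z₀ hzΛ).le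
  have hEcl : IsClosed E := by
    rw [← isOpen_compl_iff, isOpen_iff_mem_nhds]
    intro w hw
    have hw0 : w ≠ z₀ := fun h => hw (Or.inr h)
    by_cases hwK : w ∈ K
    · have hwΛ : w ∈ Λᶜ := fun h => hw0 (hΛK w h hwK)
      have hgw : g w = 0 := by
        by_contra hcon
        exact hw (Or.inl ⟨hwK, hw0, hcon⟩)
      filter_upwards [hloc w hwΛ, isOpen_ne.mem_nhds hw0] with y hy hy0
      rintro (h | h)
      · exact h.2.2 (hy.trans hgw)
      · exact hy0 h
    · by_cases hwb : w ∈ ball (0:ℂ) 1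
      · have hwcl : w ∉ closure K := fun h => hwK (hK.closed w hwb h)
        have : (closure K)ᶜ ∈ 𝓝 w := isClosed_closure.isOpen_compl.mem_nhds hwcl
        filter_upwards [this] with y hy hyE
        exact hy (subset_closure (hEK hyE))
      · have : (closedBall (0:ℂ) ρ)ᶜ ∈ 𝓝 w := by
          apply isClosed_closedBall.isOpen_compl.mem_nhds
          simp only [mem_ball_zero_iff, mem_compl_iff, mem_closedBall_zero_iff] at hwb ⊢
          linarith
        filter_upwards [this] with y hy hyE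
        exact hy (hEbd hyE)
  have hEc : IsCompact E := (isCompact_closedBall (0:ℂ) ρ).of_isClosed_subset hEcl hEbd
  have hcont : ContinuousOn (fun z => (h z).im) E := by
    intro z hz
    exact (Complex.continuous_im.continuousAt.comp (hd z (hEball hz)).continuousAt).continuousWithinAt
  have hEne : E.Nonempty := ⟨z₀, Or.inr rfl⟩
  have hz₁E : z₁ ∈ E := Or.inl ⟨hz₁, hne, hg1⟩
  -- no point other than z₀ is extremal
  have hnbhd : ∀ z ∈ E, z ≠ z₀ → {w | (h w).re = c → w ∈ E} ∈ 𝓝 z := by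
    intro z hz hzne
    rcases hz with hz | hz
    · have hzΛ' : z ∈ Λᶜ := fun h => hzne (hΛK z h hz.1)
      filter_upwards [hloc z hzΛ', isOpen_ne.mem_nhds hzne, hK.opn z hz.1] with y hy hy0 hyK hyc
      exact Or.inl ⟨hyK hyc, hy0, by rw [hy]; exact hz.2.2⟩
    · exact absurd hz hzne
  have hmaxz : ∀ z ∈ E, IsMaxOn (fun z => (h z).im) E z → z = z₀ := by
    intro z hz hmax
    by_contra hzne
    obtain ⟨δ, hδ, w, hw, hwe⟩ := exists_push (hd z (hEball hz)) (hnc z (hEball hz))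
      (hnbhd z hz hzne) I
    have h1 : (h w).re = c := by
      rw [hwe]; simp [hK.level z (hEK hz)]
    have h2 : (h w).im = (h z).im + δ := by
      rw [hwe]; simp
    have h3 : (h w).im ≤ (h z).im := hmax (hw h1)
    linarith
  have hminz : ∀ z ∈ E, IsMinOn (fun z => (h z).im) E z → z = z₀ := by
    intro z hz hmin
    by_contra hzne
    obtain ⟨δ, hδ, w, hw, hwe⟩ := exists_push (hd z (hEball hz)) (hnc z (hEball hz))
      (hnbhd z hz hzne) (-I)
    have h1 : (h w).re = c := by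
      rw [hwe]; simp [hK.level z (hEK hz)]
    have h2 : (h w).im = (h z).im - δ := by
      rw [hwe]; simp; ring
    have h3 : (h z).im ≤ (h w).im := hmin (hw h1)
    linarith
  obtain ⟨zM, hzM, hM⟩ := hEc.exists_isMaxOn hEne hcont
  obtain ⟨zm, hzm, hm⟩ := hEc.exists_isMinOn hEne hcont
  have e1 := hmaxz zM hzM hM
  have e2 := hminz zm hzm hm
  subst e1
  subst e2
  have h3 : (h z₁).im ≤ (h zm).im := hM hz₁E
  have h4 : (h zm).im ≤ (h z₁).im := hm hz₁E
  apply hne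
  apply hmaxz z₁ hz₁E
  intro z hz
  have : (h z).im ≤ (h zm).im := hM hz
  simp only [Set.mem_ofPred_eq]
  linarith

end Pool.Agent.Helper37.Harm
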