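import Pool.Agent.Helper37.HarmX

set_option autoImplicit false

open Complex Metric Set Filter Topology

namespace Pool.Agent.Helper37.Harm

lemma exp_ne_nonneg {x t : ℝ} (hx : x ≠ 0) (hx2 : |x| < 2 * Real.pi) (ht : 0 ≤ t) :
    exp (x * I) ≠ (t : ℂ) := by
  intro h
  have h1 : ‖exp (x * I)‖ = 1 := norm_exp_ofReal_mul_I x
  rw [h, norm_real, Real.norm_of_nonneg ht] at h1
  rw [h1, ofReal_one, exp_eq_one_iff] at h
  obtain ⟨n, hn⟩ := h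
  have h2 : x = n * (2 * Real.pi) := by
    have := congrArg Complex.im hn
    simpa using this
  have h3 : |(n:ℝ)| < 1 := by
    by_contra hcon
    push Not at hcon
    rw [h2, abs_mul, abs_of_pos (by positivity : (0:ℝ) < 2 * Real.pi)] at hx2
    nlinarith [Real.pi_pos]
  have h4 : |n| < 1 := by exact_mod_cast h3
  rw [Int.abs_lt_one_iff] at h4
  apply hx
  rw [h2, h4]
  simp

/-- polar point off a ray -/
lemma polar_ne {e : ℂ} (he : e ≠ 0) {ρ t ψ θ : ℝ} (hρ : 0 < ρ) (ht : 0 ≤ t)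
    (h1 : ψ ≠ θ) (h2 : |ψ - θ| < 2 * Real.pi) :
    (ρ : ℂ) * (e * exp (ψ * I)) ≠ t * (e * exp (θ * I)) := by
  intro h
  have h3 : exp (((ψ - θ : ℝ) : ℂ) * I) = ((t / ρ : ℝ) : ℂ) := by
    have h4 : exp (((ψ - θ : ℝ) : ℂ) * I) * exp (θ * I) = exp (ψ * I) := by
      rw [← exp_add]; congr 1; push_cast; ring
    have h5 : (ρ:ℂ) ≠ 0 := by exact_mod_cast hρ.ne'
    have h6 : exp (θ * I) ≠ 0 := exp_ne_zero _
    rw [← h4] at h
    push_cast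
    field_simp
    have h7 : (e * exp (θ * I)) * ((ρ:ℂ) * exp (((ψ - θ : ℝ) : ℂ) * I)) = (e * exp (θ * I)) * t := by
      linear_combination h
    have h8 := mul_left_cancel₀ (mul_ne_zero he h6) h7
    push_cast at h8
    linear_combination h8
  exact exp_ne_nonneg (sub_ne_zero.2 h1) h2 (by positivity) h3

lemma mem_segment_form {z₀ v z : ℂ} (h : z ∈ segment ℝ z₀ (z₀ + v)) :
    ∃ t : ℝ, 0 ≤ t ∧ t ≤ 1 ∧ z = z₀ + t * v := by
  rw [segment_eq_image'] at h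
  obtain ⟨t, ht, rfl⟩ := h
  exact ⟨t, ht.1, ht.2, by simp⟩

theorem lemmaX {h : ℂ → ℂ} (hd : AnalyticOnNhd ℂ h (ball 0 1))
    (hnc : ∀ z ∈ ball (0:ℂ) 1, ¬ ∀ᶠ w in 𝓝 z, h w = h z)
    {c : ℝ} {K : Set ℂ} (hK : LevelPiece h c K) {z₀ e : ℂ} (hz₀ : z₀ ∈ K) (he : e ≠ 0)
    {θ s : ℝ} (hθ : 0 < θ) (hθ2 : θ < 2 * Real.pi) (hs : 0 < s)
    (h1 : ∀ ρ : ℝ, 0 < ρ → ρ ≤ s → z₀ + ρ * e ∈ ball (0:ℂ) 1 \ K)
    (h2 : ∀ ρ : ℝ, 0 < ρ → ρ ≤ s → z₀ + ρ * (e * exp (θ * I)) ∈ ball (0:ℂ) 1 \ K)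
    (hpath : PathLog (ball (0:ℂ) 1 \ K) (z₀ + s * e) (z₀ + s * (e * exp (θ * I))))
    (hk1 : ∀ ε : ℝ, 0 < ε → ∃ ρ : ℝ, 0 < ρ ∧ ρ < ε ∧ ∃ ψ : ℝ, 0 < ψ ∧ ψ < θ ∧
      z₀ + ρ * (e * exp (ψ * I)) ∈ K)
    (hk2 : ∀ ε : ℝ, 0 < ε → ∃ ρ : ℝ, 0 < ρ ∧ ρ < ε ∧ ∃ ψ : ℝ, θ < ψ ∧ ψ < 2 * Real.pi ∧
      z₀ + ρ * (e * exp (ψ * I)) ∈ K) :
    False := by
  obtain ⟨Λ, f, hΛc, hΛM, hp, hq, hfc, hfe, hf0⟩ := hpath
  set p : ℂ := z₀ + s * e with hpdef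
  set q : ℂ := z₀ + s * (e * exp (θ * I)) with hqdef
  set ΛT : Set ℂ := (Λ ∪ segment ℝ q z₀) ∪ segment ℝ z₀ p with hΛT
  have hz₀b := hK.sub hz₀
  have hz₀Λ : z₀ ∉ Λ := fun hh => (hΛM hh).2 hz₀
  have hseg1 : ∀ z ∈ segment ℝ z₀ p, ∃ t : ℝ, 0 ≤ t ∧ t ≤ s ∧ z = z₀ + t * e := by
    intro z hz
    obtain ⟨t, ht0, ht1, rfl⟩ := mem_segment_form hz
    exact ⟨t * s, by positivity, by nlinarith, by push_cast; ring⟩
  have hseg2 : ∀ z ∈ segment ℝ q z₀, ∃ t : ℝ, 0 ≤ t ∧ t ≤ s ∧ z = z₀ + t * (e * exp (θ * I)) := by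
    intro z hz
    rw [segment_symm] at hz
    obtain ⟨t, ht0, ht1, rfl⟩ := mem_segment_form hz
    exact ⟨t * s, by positivity, by nlinarith, by push_cast; ring⟩
  have hΛTc : IsCompact ΛT := by
    refine (hΛc.union ?_).union ?_
    · rw [segment_eq_image_lineMap]
      exact isCompact_Icc.image (by fun_prop)
    · rw [segment_eq_image_lineMap]
      exact isCompact_Icc.image (by fun_prop)
  have hΛTK : ∀ z ∈ ΛT, z ∈ K → z = z₀ := by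
    rintro z ((hz | hz) | hz) hzK
    · exact absurd hzK (hΛM hz).2
    · obtain ⟨t, ht0, ht1, rfl⟩ := hseg2 z hz
      rcases ht0.eq_or_lt with ht | ht
      · simp [← ht]
      · exact absurd hzK (h2 t ht ht1).2
    · obtain ⟨t, ht0, ht1, rfl⟩ := hseg1 z hz
      rcases ht0.eq_or_lt with ht | ht
      · simp [← ht]
      · exact absurd hzK (h1 t ht ht1).2
  have hΛTb : ΛT ⊆ ball 0 1 := by
    rintro z ((hz | hz) | hz)
    · exact (hΛM hz).1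
    · exact (convex_ball (0:ℂ) 1).segment_subset (h2 s hs le_rfl).1 hz₀b hz
    · exact (convex_ball (0:ℂ) 1).segment_subset hz₀b (h1 s hs le_rfl).1 hz
  have hz₀T : z₀ ∈ ΛT := Or.inr (left_mem_segment ℝ z₀ p)
  set g : ℂ → ℂ := fun z => f z + slog q z₀ z + slog z₀ p z with hg
  have hgc : ContinuousOn g ΛTᶜ := by
    refine (hfc.mono ?_ |>.add ((slog_continuousOn q z₀).mono ?_)).add
      ((slog_continuousOn z₀ p).mono ?_)
    · exact compl_subset_compl.2 (subset_union_left.trans subset_union_left)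
    · exact compl_subset_compl.2 (subset_union_right.trans subset_union_left)
    · exact compl_subset_compl.2 subset_union_right
  have hgexp : ∀ z ∈ ΛTᶜ, exp (g z) = 1 := by
    intro z hz
    have hz1 : z ∉ Λ := fun hh => hz (Or.inl (Or.inl hh))
    have hz2 : z ∉ segment ℝ q z₀ := fun hh => hz (Or.inl (Or.inr hh))
    have hz3 : z ∉ segment ℝ z₀ p := fun hh => hz (Or.inr hh)
    have hn1 : p - z ≠ 0 := by
      intro h0
      rw [← sub_eq_zero.1 h0] at hz1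
      exact hz1 hp
    have hn2 : q - z ≠ 0 := by
      intro h0
      rw [← sub_eq_zero.1 h0] at hz1
      exact hz1 hq
    have hn3 : z₀ - z ≠ 0 := by
      intro h0
      rw [← sub_eq_zero.1 h0] at hz
      exact hz hz₀T
    simp only [hg]
    rw [exp_add, exp_add, hfe z hz1, slog_exp hz2, slog_exp hz3]
    field_simp
  have hg0 : Tendsto g (cocompact ℂ) (𝓝 0) := by
    have := (hf0.add (slog_tendsto q z₀)).add (slog_tendsto z₀ p)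
    simpa using this
  -- choose the radius
  have hopen : IsOpen Λᶜ := hΛc.isClosed.isOpen_compl
  obtain ⟨r', hr', hb'⟩ := Metric.isOpen_iff.1 hopen z₀ hz₀Λ
  have henorm : 0 < ‖e‖ := norm_pos_iff.2 he
  set r : ℝ := min s (r' / ‖e‖) with hr
  have hrpos : 0 < r := lt_min hs (by positivity)
  have hinΛ : ∀ ρ ψ : ℝ, 0 < ρ → ρ < r → z₀ + ρ * (e * exp (ψ * I)) ∈ Λᶜ := by
    intro ρ ψ hρ hρr
    apply hb'
    rw [mem_ball_iff_norm]
    have : ρ < r' / ‖e‖ := hρr.trans_le (min_le_right _ _)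
    rw [lt_div_iff₀ henorm] at this
    simpa [norm_exp_ofReal_mul_I, abs_of_pos hρ] using this
  have hnotT : ∀ ρ ψ : ℝ, 0 < ρ → ρ < r → 0 < ψ → ψ < 2 * Real.pi → ψ ≠ θ →
      z₀ + ρ * (e * exp (ψ * I)) ∈ ΛTᶜ := by
    intro ρ ψ hρ hρr hψ hψ2 hψθ hmem
    rcases hmem with (hz | hz) | hz
    · exact hinΛ ρ ψ hρ hρr hz
    · obtain ⟨t, ht0, ht1, hteq⟩ := hseg2 _ hz
      refine polar_ne he hρ ht0 hψθ ?_ (add_left_cancel hteq)
      rw [abs_lt]; constructor <;> linarith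
    · obtain ⟨t, ht0, ht1, hteq⟩ := hseg1 _ hz
      refine polar_ne (θ := 0) (ψ := ψ) he hρ ht0 hψ.ne' ?_ ?_
      · rw [sub_zero, abs_of_pos hψ]; exact hψ2
      · have := add_left_cancel hteq
        simpa using this
  set Φ : ℝ × ℝ → ℂ := fun x => z₀ + x.1 * (e * exp (x.2 * I)) with hΦ
  have hΦc : Continuous Φ := by simp only [hΦ]; fun_prop
  have hW1 : IsPreconnected (Φ '' (Ioo 0 r ×ˢ Ioo 0 θ)) :=
    (isPreconnected_Ioo.prod isPreconnected_Ioo).image _ hΦc.continuousOn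
  have hW2 : IsPreconnected (Φ '' (Ioo 0 r ×ˢ Ioo θ (2 * Real.pi))) :=
    (isPreconnected_Ioo.prod isPreconnected_Ioo).image _ hΦc.continuousOn
  have hW1s : Φ '' (Ioo 0 r ×ˢ Ioo 0 θ) ⊆ ΛTᶜ := by
    rintro _ ⟨⟨ρ, ψ⟩, ⟨hρ, hψ⟩, rfl⟩
    exact hnotT ρ ψ hρ.1 hρ.2 hψ.1 (hψ.2.trans hθ2) hψ.2.ne
  have hW2s : Φ '' (Ioo 0 r ×ˢ Ioo θ (2 * Real.pi)) ⊆ ΛTᶜ := by
    rintro _ ⟨⟨ρ, ψ⟩, ⟨hρ, hψ⟩, rfl⟩
    exact hnotT ρ ψ hρ.1 hρ.2 (hθ.trans hψ.1) hψ.2 hψ.1.ne'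
  have hcst1 : ∀ x ∈ Φ '' (Ioo 0 r ×ˢ Ioo 0 θ), ∀ y ∈ Φ '' (Ioo 0 r ×ˢ Ioo 0 θ), g x = g y := by
    intro x hx y hy
    exact hW1.constant_of_mapsTo twoPiZ_discrete (hgc.mono hW1s)
      (fun w hw => mem_twoPiZ (hgexp w (hW1s hw))) hx hy
  have hcst2 : ∀ x ∈ Φ '' (Ioo 0 r ×ˢ Ioo θ (2 * Real.pi)),
      ∀ y ∈ Φ '' (Ioo 0 r ×ˢ Ioo θ (2 * Real.pi)), g x = g y := by
    intro x hx y hy
    exact hW2.constant_of_mapsTo twoPiZ_discrete (hgc.mono hW2s)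
      (fun w hw => mem_twoPiZ (hgexp w (hW2s hw))) hx hy
  -- the two witnesses
  obtain ⟨ρ₁, hρ₁, hρ₁r, ψ₁, hψ₁, hψ₁θ, hz₁K⟩ := hk1 r hrpos
  obtain ⟨ρ₂, hρ₂, hρ₂r, ψ₂, hψ₂, hψ₂θ, hz₂K⟩ := hk2 r hrpos
  have hz₁W : z₀ + ρ₁ * (e * exp (ψ₁ * I)) ∈ Φ '' (Ioo 0 r ×ˢ Ioo 0 θ) :=
    ⟨(ρ₁, ψ₁), ⟨⟨hρ₁, hρ₁r⟩, ⟨hψ₁, hψ₁θ⟩⟩, rfl⟩
  have hz₂W : z₀ + ρ₂ * (e * exp (ψ₂ * I)) ∈ Φ '' (Ioo 0 r ×ˢ Ioo θ (2 * Real.pi)) :=
    ⟨(ρ₂, ψ₂), ⟨⟨hρ₂, hρ₂r⟩, ⟨hψ₂, hψ₂θ⟩⟩, rfl⟩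
  set z₁ := z₀ + ρ₁ * (e * exp (ψ₁ * I)) with hz₁def
  set z₂ := z₀ + ρ₂ * (e * exp (ψ₂ * I)) with hz₂def
  -- the jump
  have hjump : g z₁ - g z₂ = 2 * Real.pi * I := by
    set ρ₀ : ℝ := r / 2 with hρ₀
    have hρ₀pos : 0 < ρ₀ := by positivity
    have hρ₀r : ρ₀ < r := by rw [hρ₀]; linarith
    have hρ₀s : ρ₀ < s := hρ₀r.trans_le (min_le_left _ _)
    set m : ℂ := z₀ + ρ₀ * e with hm
    have hmΛ : m ∈ Λᶜ := by
      have := hinΛ ρ₀ 0 hρ₀pos hρ₀r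
      simpa using this
    have hmseg : m ∈ (segment ℝ q z₀)ᶜ := by
      intro hz
      obtain ⟨t, ht0, ht1, hteq⟩ := hseg2 _ hz
      refine polar_ne (ψ := 0) (θ := θ) he hρ₀pos ht0 hθ.ne ?_ ?_
      · rw [zero_sub, abs_neg, abs_of_pos hθ]; exact hθ2
      · have := add_left_cancel hteq
        simpa using this
    have hfm : ContinuousAt f m := hfc.continuousAt (hopen.mem_nhds hmΛ)
    have hsm : ContinuousAt (slog q z₀) m := by
      refine (slog_continuousOn q z₀).continuousAt (IsOpen.mem_nhds ?_ hmseg)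
      have : IsCompact (segment ℝ q z₀) := by
        rw [segment_eq_image_lineMap]
        exact isCompact_Icc.image (by fun_prop)
      exact this.isClosed.isOpen_compl
    -- approaching points
    have hplus : Tendsto (fun ε : ℝ => z₀ + ρ₀ * (e * exp (ε * I))) (𝓝[>] 0) (𝓝 m) := by
      have h3 : Continuous (fun ε : ℝ => z₀ + ρ₀ * (e * exp (ε * I))) := by fun_prop
      have h4 := h3.tendsto 0
      simp only [ofReal_zero, zero_mul, exp_zero, mul_one] at h4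
      exact h4.mono_left nhdsWithin_le_nhds
    have hminus : Tendsto (fun ε : ℝ => z₀ + ρ₀ * (e * exp (-ε * I))) (𝓝[>] 0) (𝓝 m) := by
      have h3 : Continuous (fun ε : ℝ => z₀ + ρ₀ * (e * exp (-ε * I))) := by fun_prop
      have h4 := h3.tendsto 0
      simp only [ofReal_zero, neg_zero, zero_mul, exp_zero, mul_one] at h4
      exact h4.mono_left nhdsWithin_le_nhds
    have hneg : (((1 - s / ρ₀ : ℝ)) : ℂ).re < 0 := by
      rw [ofReal_re, sub_neg, lt_div_iff₀ hρ₀pos]; linarith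
    have hdivpos : 0 < s / ρ₀ := by positivity
    have hrho : (ρ₀ : ℂ) ≠ 0 := by exact_mod_cast hρ₀pos.ne'
    have hform : ∀ ε : ℝ, slog z₀ p (z₀ + ρ₀ * (e * exp (ε * I)))
        = log (1 - ((s / ρ₀ : ℝ) : ℂ) * exp (-ε * I)) := by
      intro ε
      unfold slog
      congr 1
      rw [hpdef, neg_mul, exp_neg]
      have := exp_ne_zero ((ε:ℂ) * I)
      push_cast
      field_simp
      ring
    have hform' : ∀ ε : ℝ, slog z₀ p (z₀ + ρ₀ * (e * exp (-ε * I)))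
        = log (1 - ((s / ρ₀ : ℝ) : ℂ) * exp (ε * I)) := by
      intro ε
      unfold slog
      congr 1
      rw [hpdef, neg_mul, exp_neg]
      have := exp_ne_zero ((ε:ℂ) * I)
      push_cast
      field_simp
      ring
    have him : ∀ ε : ℝ, (1 - ((s / ρ₀ : ℝ) : ℂ) * exp (-ε * I)).im = (s / ρ₀) * Real.sin ε := by
      intro ε
      have : exp (-ε * I) = exp (((-ε : ℝ) : ℂ) * I) := by push_cast; ring_nf
      rw [this, sub_im, one_im, im_ofReal_mul, exp_ofReal_mul_I_im, Real.sin_neg]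
      ring
    have him' : ∀ ε : ℝ, (1 - ((s / ρ₀ : ℝ) : ℂ) * exp (ε * I)).im = -((s / ρ₀) * Real.sin ε) := by
      intro ε
      rw [sub_im, one_im, im_ofReal_mul, exp_ofReal_mul_I_im]
      ring
    have hsin : ∀ᶠ ε : ℝ in 𝓝[>] 0, 0 < Real.sin ε := by
      filter_upwards [Ioo_mem_nhdsGT Real.pi_pos] with ε hε
      exact Real.sin_pos_of_pos_of_lt_pi hε.1 hε.2
    have hL1 : Tendsto (fun ε : ℝ => slog z₀ p (z₀ + ρ₀ * (e * exp (ε * I)))) (𝓝[>] 0)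
        (𝓝 (Real.log ‖((1 - s / ρ₀ : ℝ) : ℂ)‖ + Real.pi * I)) := by
      have hA := tendsto_log_nhdsWithin_im_nonneg_of_re_neg_of_im_zero hneg (ofReal_im _)
      have hB : Tendsto (fun ε : ℝ => 1 - ((s / ρ₀ : ℝ) : ℂ) * exp (-ε * I)) (𝓝[>] 0)
          (𝓝[{z : ℂ | 0 ≤ z.im}] (((1 - s / ρ₀ : ℝ)) : ℂ)) := by
        rw [tendsto_nhdsWithin_iff]
        constructor
        · have h3 : Continuous (fun ε : ℝ => 1 - ((s / ρ₀ : ℝ) : ℂ) * exp (-ε * I)) := by fun_prop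
          have h4 := h3.tendsto 0
          simp only [ofReal_zero, neg_zero, zero_mul, exp_zero, mul_one] at h4
          have h5 : (((1 - s / ρ₀ : ℝ)) : ℂ) = 1 - ((s / ρ₀ : ℝ) : ℂ) := by push_cast; ring
          rw [h5]
          exact h4.mono_left nhdsWithin_le_nhds
        · filter_upwards [hsin] with ε hε
          show (0:ℝ) ≤ (1 - ((s / ρ₀ : ℝ) : ℂ) * exp (-ε * I)).im
          rw [him]
          positivity
      refine (hA.comp hB).congr fun ε => ?_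
      rw [Function.comp_apply, hform]
    have hL2 : Tendsto (fun ε : ℝ => slog z₀ p (z₀ + ρ₀ * (e * exp (-ε * I)))) (𝓝[>] 0)
        (𝓝 (Real.log ‖((1 - s / ρ₀ : ℝ) : ℂ)‖ - Real.pi * I)) := by
      have hA := tendsto_log_nhdsWithin_im_neg_of_re_neg_of_im_zero hneg (ofReal_im _)
      have hB : Tendsto (fun ε : ℝ => 1 - ((s / ρ₀ : ℝ) : ℂ) * exp (ε * I)) (𝓝[>] 0)
          (𝓝[{z : ℂ | z.im < 0}] (((1 - s / ρ₀ : ℝ)) : ℂ)) := by
        rw [tendsto_nhdsWithin_iff]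
        constructor
        · have h3 : Continuous (fun ε : ℝ => 1 - ((s / ρ₀ : ℝ) : ℂ) * exp (ε * I)) := by fun_prop
          have h4 := h3.tendsto 0
          simp only [ofReal_zero, zero_mul, exp_zero, mul_one] at h4
          have h5 : (((1 - s / ρ₀ : ℝ)) : ℂ) = 1 - ((s / ρ₀ : ℝ) : ℂ) := by push_cast; ring
          rw [h5]
          exact h4.mono_left nhdsWithin_le_nhds
        · filter_upwards [hsin] with ε hε
          show (1 - ((s / ρ₀ : ℝ) : ℂ) * exp (ε * I)).im < (0:ℝ)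
          rw [him']
          have : 0 < s / ρ₀ * Real.sin ε := by positivity
          linarith
      refine (hA.comp hB).congr fun ε => ?_
      rw [Function.comp_apply, hform']
    have hG1 : Tendsto (fun ε : ℝ => g (z₀ + ρ₀ * (e * exp (ε * I)))) (𝓝[>] 0)
        (𝓝 (f m + slog q z₀ m + (Real.log ‖((1 - s / ρ₀ : ℝ) : ℂ)‖ + Real.pi * I))) :=
      ((hfm.tendsto.comp hplus).add (hsm.tendsto.comp hplus)).add hL1
    have hG2 : Tendsto (fun ε : ℝ => g (z₀ + ρ₀ * (e * exp (-ε * I)))) (𝓝[>] 0)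
        (𝓝 (f m + slog q z₀ m + (Real.log ‖((1 - s / ρ₀ : ℝ) : ℂ)‖ - Real.pi * I))) :=
      ((hfm.tendsto.comp hminus).add (hsm.tendsto.comp hminus)).add hL2
    have hE1 : ∀ᶠ ε : ℝ in 𝓝[>] 0, g (z₀ + ρ₀ * (e * exp (ε * I))) = g z₁ := by
      filter_upwards [Ioo_mem_nhdsGT hθ] with ε hε
      exact hcst1 _ ⟨(ρ₀, ε), ⟨⟨hρ₀pos, hρ₀r⟩, hε⟩, rfl⟩ _ hz₁W
    have hE2 : ∀ᶠ ε : ℝ in 𝓝[>] 0, g (z₀ + ρ₀ * (e * exp (-ε * I))) = g z₂ := by
      have h3 : (0:ℝ) < 2 * Real.pi - θ := by linarith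
      filter_upwards [Ioo_mem_nhdsGT h3] with ε hε
      refine hcst2 _ ⟨(ρ₀, 2 * Real.pi - ε), ⟨⟨hρ₀pos, hρ₀r⟩, ?_, ?_⟩, ?_⟩ _ hz₂W
      · have := hε.2; simp only; linarith
      · have := hε.1; simp only; linarith
      · simp only [hΦ]
        congr 3
        have : ((2 * Real.pi - ε : ℝ) : ℂ) * I = -ε * I + 2 * Real.pi * I := by push_cast; ring
        rw [this, exp_periodic]
    have hF1 := tendsto_nhds_unique (hG1.congr' hE1) tendsto_const_nhds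
    have hF2 := tendsto_nhds_unique (hG2.congr' hE2) tendsto_const_nhds
    rw [← hF1, ← hF2]
    ring
  by_cases hg1 : g z₁ = 0
  · have hg2 : g z₂ ≠ 0 := by
      intro h0
      rw [hg1, h0] at hjump
      simp at hjump
    refine extremal hd hnc hK hz₀ hΛTc hΛTK hΛTb hz₀T hgc hgexp hg0 hz₂K ?_ hg2
    intro h0
    exact hW2s hz₂W (h0 ▸ hz₀T)
  · refine extremal hd hnc hK hz₀ hΛTc hΛTK hΛTb hz₀T hgc hgexp hg0 hz₁K ?_ hg1
    intro h0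
    exact hW1s hz₁W (h0 ▸ hz₀T)

end Pool.Agent.Helper37.Harm
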