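import Pool.Agent.Helper37.HarmX2

set_option autoImplicit false

open Complex Metric Set Filter Topology

namespace Pool.Agent.Helper37.Harm

lemma LevelPiece.isOpen_compl {h : ℂ → ℂ} {c : ℝ} {K : Set ℂ} (hK : LevelPiece h c K) :
    IsOpen (ball (0:ℂ) 1 \ K) := by
  have : ball (0:ℂ) 1 \ K = ball (0:ℂ) 1 ∩ (closure K)ᶜ := by
    ext z
    constructor
    · rintro ⟨h1, h2⟩
      exact ⟨h1, fun h3 => h2 (hK.closed z h1 h3)⟩
    · rintro ⟨h1, h2⟩
      exact ⟨h1, fun h3 => h2 (subset_closure h3)⟩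
  rw [this]
  exact isOpen_ball.inter isClosed_closure.isOpen_compl

lemma touch {h : ℂ → ℂ} (hd : AnalyticOnNhd ℂ h (ball 0 1))
    (hnc : ∀ z ∈ ball (0:ℂ) 1, ¬ ∀ᶠ w in 𝓝 z, h w = h z)
    {c : ℝ} {K : Set ℂ} (hK : LevelPiece h c K)
    {U : ℂ → ℝ} (hU : ContinuousOn U (closedBall 0 1)) (hUh : ∀ z ∈ ball (0:ℂ) 1, U z = (h z).re)
    {α β : ℂ} (hUα : U α = c) (hUβ : U β = c)
    {p : ℂ} (hp : p ∈ ball (0:ℂ) 1 \ K) :
    ∃ t : ℂ, ‖t‖ = 1 ∧ t ≠ α ∧ t ≠ β ∧ t ∈ closure (connectedComponentIn (ball (0:ℂ) 1 \ K) p) := by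
  set M := ball (0:ℂ) 1 \ K with hM
  set Ω := connectedComponentIn M p with hΩ
  have hMo : IsOpen M := hK.isOpen_compl
  have hΩo : IsOpen Ω := hMo.connectedComponentIn
  have hΩM : Ω ⊆ M := connectedComponentIn_subset M p
  have hpΩ : p ∈ Ω := mem_connectedComponentIn hp
  by_contra hcon
  push Not at hcon
  have hcb : closure Ω ⊆ closedBall (0:ℂ) 1 :=
    closure_minimal (fun z hz => ball_subset_closedBall (hΩM hz).1) isClosed_closedBall
  have hfr : ∀ z ∈ closure Ω, z ∉ Ω → U z = c := by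
    intro z hz hzΩ
    have hz1 := hcb hz
    rw [mem_closedBall_zero_iff] at hz1
    rcases hz1.eq_or_lt with h1 | h1
    · by_cases hα' : z = α
      · rw [hα']; exact hUα
      · by_cases hβ' : z = β
        · rw [hβ']; exact hUβ
        · exact absurd hz (hcon z h1 hα' hβ')
    · have hzb : z ∈ ball (0:ℂ) 1 := by rwa [mem_ball_zero_iff]
      by_cases hzK : z ∈ K
      · rw [hUh z hzb, hK.level z hzK]
      · exfalso
        have hzM : z ∈ M := ⟨hzb, hzK⟩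
        have h2 : connectedComponentIn M z ∈ 𝓝 z :=
          hMo.connectedComponentIn.mem_nhds (mem_connectedComponentIn hzM)
        obtain ⟨y, hy1, hy2⟩ := mem_closure_iff_nhds.1 hz _ h2
        have e1 := connectedComponentIn_eq hy1
        have e2 := connectedComponentIn_eq hy2
        apply hzΩ
        rw [hΩ, e2, ← e1]
        exact mem_connectedComponentIn hzM
  have hcomp : IsCompact (closure Ω) :=
    (isCompact_closedBall (0:ℂ) 1).of_isClosed_subset isClosed_closure hcb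
  have hne : (closure Ω).Nonempty := ⟨p, subset_closure hpΩ⟩
  have hUc : ContinuousOn U (closure Ω) := hU.mono hcb
  have hmax : ∀ z ∈ Ω, ¬ IsMaxOn U (closure Ω) z := by
    intro z hz hm
    obtain ⟨δ, hδ, w, hw, hwe⟩ := exists_push (hd z (hΩM hz).1) (hnc z (hΩM hz).1)
      (hΩo.mem_nhds hz) 1
    have h1 : U w ≤ U z := hm (subset_closure hw)
    rw [hUh w (hΩM hw).1, hUh z (hΩM hz).1, hwe] at h1
    simp at h1
    linarith
  have hmin : ∀ z ∈ Ω, ¬ IsMinOn U (closure Ω) z := by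
    intro z hz hm
    obtain ⟨δ, hδ, w, hw, hwe⟩ := exists_push (hd z (hΩM hz).1) (hnc z (hΩM hz).1)
      (hΩo.mem_nhds hz) (-1)
    have h1 : U z ≤ U w := hm (subset_closure hw)
    rw [hUh w (hΩM hw).1, hUh z (hΩM hz).1, hwe] at h1
    simp at h1
    linarith
  obtain ⟨zM, hzM, hM1⟩ := hcomp.exists_isMaxOn hne hUc
  obtain ⟨zm, hzm, hm1⟩ := hcomp.exists_isMinOn hne hUc
  have e1 : U zM = c := hfr zM hzM (fun hh => hmax zM hh hM1)
  have e2 : U zm = c := hfr zm hzm (fun hh => hmin zm hh hm1)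
  apply hmax p hpΩ
  intro z hz
  have h1 : U z ≤ U zM := hM1 hz
  have h2 : U zm ≤ U p := hm1 (subset_closure hpΩ)
  show U z ≤ U p
  linarith

lemma collar {M K : Set ℂ} (hM : M = ball (0:ℂ) 1 \ K) {a b : ℝ}
    (hA : ∀ x ∈ uIcc a b, exp (x * I) ∉ closure K) {p q : ℂ}
    (ha : exp (a * I) ∈ closure (connectedComponentIn M p))
    (hb : exp (b * I) ∈ closure (connectedComponentIn M q)) :
    connectedComponentIn M p = connectedComponentIn M q := by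
  set A : Set ℂ := (fun x : ℝ => exp (x * I)) '' (uIcc a b) with hAdef
  have hAc : IsCompact A := isCompact_uIcc.image (by fun_prop)
  have hAs : A ⊆ (closure K)ᶜ := by
    rintro _ ⟨x, hx, rfl⟩
    exact hA x hx
  obtain ⟨δ, hδ, hth⟩ := hAc.exists_thickening_subset_open isClosed_closure.isOpen_compl hAs
  have hball : ∀ x ∈ uIcc a b, ∀ z ∈ ball (exp (x * I)) δ, z ∉ K := by
    intro x hx z hz hzK
    refine hth ?_ (subset_closure hzK)
    rw [mem_thickening_iff]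
    exact ⟨exp (x * I), ⟨x, hx, rfl⟩, hz⟩
  set η : ℝ := min δ 1 / 2 with hη
  have hη0 : 0 < η := by have : 0 < min δ 1 := lt_min hδ one_pos; positivity
  have hηδ : η < δ := by
    have : min δ 1 ≤ δ := min_le_left _ _
    linarith
  have hη1 : η < 1 := by
    have : min δ 1 ≤ 1 := min_le_right _ _
    linarith
  have hnorm : ∀ x : ℝ, ‖((1 - η : ℝ) : ℂ) * exp (x * I)‖ < 1 := by
    intro x
    rw [norm_mul, norm_exp_ofReal_mul_I, norm_real, Real.norm_of_nonneg (by linarith)]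
    linarith
  have hdist : ∀ x : ℝ, ((1 - η : ℝ) : ℂ) * exp (x * I) ∈ ball (exp (x * I)) δ := by
    intro x
    rw [mem_ball_iff_norm]
    have : ((1 - η : ℝ) : ℂ) * exp (x * I) - exp (x * I) = ((-η : ℝ) : ℂ) * exp (x * I) := by
      push_cast; ring
    rw [this, norm_mul, norm_exp_ofReal_mul_I, norm_real, Real.norm_eq_abs, abs_neg,
      abs_of_pos hη0]
    linarith
  have hCpre : IsPreconnected ((fun x : ℝ => ((1 - η : ℝ) : ℂ) * exp (x * I)) '' (uIcc a b)) := by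
    apply isPreconnected_uIcc.image
    fun_prop
  have hCM : ((fun x : ℝ => ((1 - η : ℝ) : ℂ) * exp (x * I)) '' (uIcc a b)) ⊆ M := by
    rintro _ ⟨x, hx, rfl⟩
    rw [hM]
    exact ⟨by rw [mem_ball_zero_iff]; exact hnorm x, hball x hx _ (hdist x)⟩
  have key : ∀ x ∈ uIcc a b, ∀ r : ℂ, exp (x * I) ∈ closure (connectedComponentIn M r) →
      connectedComponentIn M r = connectedComponentIn M (((1 - η : ℝ) : ℂ) * exp (x * I)) := by
    intro x hx r hr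
    obtain ⟨z, hz1, hz2⟩ := mem_closure_iff_nhds.1 hr _ (ball_mem_nhds _ hδ)
    have hzM : z ∈ M := connectedComponentIn_subset M r hz2
    have hpre : IsPreconnected (ball (exp (x * I)) δ ∩ ball (0:ℂ) 1) :=
      ((convex_ball _ _).inter (convex_ball _ _)).isPreconnected
    have hsub : ball (exp (x * I)) δ ∩ ball (0:ℂ) 1 ⊆ M := by
      rintro y ⟨hy1, hy2⟩
      rw [hM]
      exact ⟨hy2, hball x hx y hy1⟩
    have hzb : z ∈ ball (exp (x * I)) δ ∩ ball (0:ℂ) 1 := ⟨hz1, by rw [hM] at hzM; exact hzM.1⟩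
    have h1 := hpre.subset_connectedComponentIn hzb hsub
    have h2 : ((1 - η : ℝ) : ℂ) * exp (x * I) ∈ connectedComponentIn M z :=
      h1 ⟨hdist x, by rw [mem_ball_zero_iff]; exact hnorm x⟩
    rw [connectedComponentIn_eq hz2, connectedComponentIn_eq h2]
  rw [key a left_mem_uIcc p ha, key b right_mem_uIcc q hb]
  apply connectedComponentIn_eq
  exact hCpre.subset_connectedComponentIn ⟨a, left_mem_uIcc, rfl⟩ hCM ⟨b, right_mem_uIcc, rfl⟩

lemma exists_angle (a : ℝ) {t : ℂ} (ht : ‖t‖ = 1) :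
    ∃ τ : ℝ, a < τ ∧ τ ≤ a + 2 * Real.pi ∧ t = exp (τ * I) := by
  have hp : (0:ℝ) < 2 * Real.pi := by positivity
  refine ⟨toIocMod hp a t.arg, (toIocMod_mem_Ioc hp a t.arg).1, (toIocMod_mem_Ioc hp a t.arg).2, ?_⟩
  have h1 : t = exp (t.arg * I) := by
    conv_lhs => rw [← norm_mul_exp_arg_mul_I t]
    rw [ht]; simp
  have h2 : ((toIocMod hp a t.arg : ℝ) : ℂ) * I
      = t.arg * I - (toIocDiv hp a t.arg) * (2 * Real.pi * I) := by
    rw [toIocMod]; push_cast [zsmul_eq_mul]; ring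
  rw [h2, exp_sub, exp_int_mul_two_pi_mul_I, div_one, ← h1]

lemma exp_angle_ne {x y : ℝ} (h1 : x ≠ y) (h2 : |x - y| < 2 * Real.pi) :
    exp (x * I) ≠ exp (y * I) := by
  intro h
  apply exp_ne_nonneg (sub_ne_zero.2 h1) h2 (zero_le_one)
  have : ((x - y : ℝ) : ℂ) * I = x * I - y * I := by push_cast; ring
  rw [this, exp_sub, h, div_self (exp_ne_zero _), ofReal_one]

theorem lemmaY {h : ℂ → ℂ} (hd : AnalyticOnNhd ℂ h (ball 0 1))
    (hnc : ∀ z ∈ ball (0:ℂ) 1, ¬ ∀ᶠ w in 𝓝 z, h w = h z)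
    {c : ℝ} {K : Set ℂ} (hK : LevelPiece h c K)
    {U : ℂ → ℝ} (hU : ContinuousOn U (closedBall 0 1)) (hUh : ∀ z ∈ ball (0:ℂ) 1, U z = (h z).re)
    {α β : ℂ} (hα : ‖α‖ = 1) (hβ : ‖β‖ = 1) (hUα : U α = c) (hUβ : U β = c)
    (hcl : ∀ z : ℂ, ‖z‖ = 1 → z ∈ closure K → z = α ∨ z = β)
    {p q r : ℂ} (hp : p ∈ ball (0:ℂ) 1 \ K) (hq : q ∈ ball (0:ℂ) 1 \ K)
    (hr : r ∈ ball (0:ℂ) 1 \ K) :
    connectedComponentIn (ball (0:ℂ) 1 \ K) p = connectedComponentIn (ball (0:ℂ) 1 \ K) q ∨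
    connectedComponentIn (ball (0:ℂ) 1 \ K) p = connectedComponentIn (ball (0:ℂ) 1 \ K) r ∨
    connectedComponentIn (ball (0:ℂ) 1 \ K) q = connectedComponentIn (ball (0:ℂ) 1 \ K) r := by
  obtain ⟨a, -, -, ha⟩ := exists_angle 0 hα
  obtain ⟨b, hb1, hb2, hb⟩ := exists_angle a hβ
  have hang : ∀ x ∈ ball (0:ℂ) 1 \ K, ∃ τ : ℝ, a < τ ∧ τ < a + 2 * Real.pi ∧ τ ≠ b ∧
      exp (τ * I) ∈ closure (connectedComponentIn (ball (0:ℂ) 1 \ K) x) := by
    intro x hx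
    obtain ⟨t, ht1, htα, htβ, htc⟩ := touch hd hnc hK hU hUh hUα hUβ hx
    obtain ⟨τ, h1, h2, h3⟩ := exists_angle a ht1
    refine ⟨τ, h1, lt_of_le_of_ne h2 ?_, ?_, h3 ▸ htc⟩
    · intro h4
      apply htα
      rw [h3, h4, ha]
      have : ((a + 2 * Real.pi : ℝ) : ℂ) * I = a * I + 2 * Real.pi * I := by push_cast; ring
      rw [this, exp_periodic]
    · intro h4
      apply htβ
      rw [h3, h4, hb]
  have harc : ∀ x y : ℝ, a < x → x < a + 2 * Real.pi → a < y → y < a + 2 * Real.pi →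
      ((x < b ∧ y < b) ∨ (b < x ∧ b < y)) → ∀ z ∈ uIcc x y, exp (z * I) ∉ closure K := by
    intro x y hx1 hx2 hy1 hy2 hxy z hz hzK
    have hza : a < z := (lt_min hx1 hy1).trans_le hz.1
    have hza2 : z < a + 2 * Real.pi := hz.2.trans_lt (max_lt hx2 hy2)
    have hzb : z ≠ b := by
      rcases hxy with ⟨h1, h2⟩ | ⟨h1, h2⟩
      · exact (hz.2.trans_lt (max_lt h1 h2)).ne
      · exact ((lt_min h1 h2).trans_le hz.1).ne'
    rcases hcl _ (norm_exp_ofReal_mul_I z) hzK with h1 | h1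
    · rw [ha] at h1
      exact exp_angle_ne hza.ne' (by rw [abs_lt]; constructor <;> linarith) h1
    · rw [hb] at h1
      exact exp_angle_ne hzb (by rw [abs_lt]; constructor <;> linarith) h1
  obtain ⟨x, hx1, hx2, hx3, hx4⟩ := hang p hp
  obtain ⟨y, hy1, hy2, hy3, hy4⟩ := hang q hq
  obtain ⟨z, hz1, hz2, hz3, hz4⟩ := hang r hr
  rcases lt_or_gt_of_ne hx3 with h1 | h1 <;> rcases lt_or_gt_of_ne hy3 with h2 | h2 <;>
    rcases lt_or_gt_of_ne hz3 with h3 | h3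
  · exact Or.inl (collar rfl (harc x y hx1 hx2 hy1 hy2 (Or.inl ⟨h1, h2⟩)) hx4 hy4)
  · exact Or.inl (collar rfl (harc x y hx1 hx2 hy1 hy2 (Or.inl ⟨h1, h2⟩)) hx4 hy4)
  · exact Or.inr (Or.inl (collar rfl (harc x z hx1 hx2 hz1 hz2 (Or.inl ⟨h1, h3⟩)) hx4 hz4))
  · exact Or.inr (Or.inr (collar rfl (harc y z hy1 hy2 hz1 hz2 (Or.inr ⟨h2, h3⟩)) hy4 hz4))
  · exact Or.inr (Or.inr (collar rfl (harc y z hy1 hy2 hz1 hz2 (Or.inl ⟨h2, h3⟩)) hy4 hz4))
  · exact Or.inr (Or.inl (collar rfl (harc x z hx1 hx2 hz1 hz2 (Or.inr ⟨h1, h3⟩)) hx4 hz4))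
  · exact Or.inl (collar rfl (harc x y hx1 hx2 hy1 hy2 (Or.inr ⟨h1, h2⟩)) hx4 hy4)
  · exact Or.inl (collar rfl (harc x y hx1 hx2 hy1 hy2 (Or.inr ⟨h1, h2⟩)) hx4 hy4)

end Pool.Agent.Helper37.Harm
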