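import Pool.Agent.Helper37.HarmK

set_option autoImplicit false

open Complex Metric Set Filter Topology

namespace Pool.Agent.Helper37.Harm

variable {φ F h₁ h₂ : ℂ → ℂ}

/-- inclusion of the open disc into the plane, as a partial homeomorphism of the closed disc -/
noncomputable def incl : OpenPartialHomeomorph (closedBall (0:ℂ) 1) ℂ where
  toFun := Subtype.val
  invFun := fun z => open Classical in if h : z ∈ closedBall (0:ℂ) 1 then ⟨z, h⟩ else ⟨0, by simp⟩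
  source := Subtype.val ⁻¹' ball (0:ℂ) 1
  target := ball (0:ℂ) 1
  map_source' := fun z hz => hz
  map_target' := by
    intro z hz
    have h : z ∈ closedBall (0:ℂ) 1 := ball_subset_closedBall hz
    simp only [mem_preimage, dif_pos h]
    exact hz
  left_inv' := by
    intro z hz
    simp only [dif_pos z.2]
  right_inv' := by
    intro z hz
    have h : z ∈ closedBall (0:ℂ) 1 := ball_subset_closedBall hz
    simp only [dif_pos h]
  open_source := isOpen_ball.preimage continuous_subtype_val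
  open_target := isOpen_ball
  continuousOn_toFun := continuous_subtype_val.continuousOn
  continuousOn_invFun := by
    rw [Topology.IsInducing.subtypeVal.continuousOn_iff]
    refine continuousOn_id.congr ?_
    intro z hz
    have h : z ∈ closedBall (0:ℂ) 1 := ball_subset_closedBall hz
    simp only [Function.comp_apply, dif_pos h, id]

theorem Setup.injective (S : Setup φ F h₁ h₂) : InjOn F (ball (0:ℂ) 1) := by
  intro z₁ hz₁ z₂ hz₂ hzz
  by_contra hne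
  set J := φ '' sphere (0:ℂ) 1 with hJ
  obtain ⟨hw, hb⟩ := S.hin z₁ hz₁
  set w₀ := F z₁ with hw₀
  obtain ⟨t₁, t₂, α, β, hp⟩ := S.pkg (μ := 1) one_ne_zero hw hb
  have ht₁ := hp.t₁pos
  have ht₂ := hp.t₂pos
  -- the covering
  set f : closedBall (0:ℂ) 1 → ℂ := fun z => F z with hf
  have hfc : Continuous f := continuousOn_iff_continuous_domRestrict.1 S.hF
  set V : Set ℂ := {w | w ∉ J ∧ Bornology.IsBounded (connectedComponentIn Jᶜ w)} with hV
  have hcompact : CompactSpace (closedBall (0:ℂ) 1) :=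
    isCompact_iff_compactSpace.1 (isCompact_closedBall (0:ℂ) 1)
  have hlh : IsLocalHomeomorphOn f (f ⁻¹' V) := by
    intro x hx
    have hxb : (x : ℂ) ∈ ball (0:ℂ) 1 := by
      by_contra hxn
      have hxs : (x : ℂ) ∈ sphere (0:ℂ) 1 := by
        have h1 := x.2
        rw [mem_closedBall_zero_iff] at h1
        rw [mem_ball_zero_iff] at hxn
        rw [mem_sphere_zero_iff_norm]
        linarith
      apply hx.1
      show F x ∈ J
      rw [S.hFs _ hxs]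
      exact ⟨x, hxs, rfl⟩
    obtain ⟨G, hG1, hG2⟩ := S.local_homeo hxb
    refine ⟨incl.trans G, ⟨hxb, hG1⟩, ?_⟩
    ext y
    show F y = G (incl y)
    rw [hG2]
    rfl
  have cov : IsCoveringMapOn f V := IsCoveringMapOn.of_isLocalHomeomorphOn hfc hlh
  -- the base of the lift
  have h0mem : (0:ℝ) ∈ Ioo (-t₁) t₂ := ⟨by linarith, ht₂⟩
  have hcontr : ContractibleSpace (Ioo (-t₁) t₂) := (convex_Ioo (-t₁) t₂).contractibleSpace ⟨0, h0mem⟩
  have hlpc : LocallyPathConnectedSpace (Ioo (-t₁) t₂) := isOpen_Ioo.locallyPathConnectedSpace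
  set γ : C(Ioo (-t₁) t₂, ℂ) := ⟨fun t => w₀ + ((t : ℝ) : ℂ) * (I * (1:ℂ)⁻¹), by fun_prop⟩ with hγ
  have hγa : ∀ t : Ioo (-t₁) t₂, γ t = w₀ + ((t : ℝ) : ℂ) * (I * (1:ℂ)⁻¹) := fun t => rfl
  have hpre : IsPreconnected ((fun t : ℝ => w₀ + (t : ℂ) * (I * (1:ℂ)⁻¹)) '' Ioo (-t₁) t₂) :=
    isPreconnected_Ioo.image _ (by fun_prop)
  have hsubc := hpre.subset_connectedComponentIn (x := w₀) (F := Jᶜ) ⟨0, h0mem, by simp⟩
    (by rintro _ ⟨t, ht, rfl⟩; exact hp.noJ t ht)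
  have hs : ∀ a, γ a ∈ V := by
    intro a
    refine ⟨hp.noJ a a.2, ?_⟩
    have h1 : γ a ∈ connectedComponentIn Jᶜ w₀ := hsubc ⟨a, a.2, rfl⟩
    rw [← connectedComponentIn_eq h1]
    exact hb
  have hz₁c : z₁ ∈ closedBall (0:ℂ) 1 := ball_subset_closedBall hz₁
  obtain ⟨Sg, ⟨hS0, hS⟩, -⟩ := cov.existsUnique_continuousMap_lifts γ (a₀ := ⟨0, h0mem⟩)
    (e₀ := ⟨z₁, hz₁c⟩) (by rw [hγa]; simp [hf, hw₀]) hs
  have hSF : ∀ t : Ioo (-t₁) t₂, F (Sg t : ℂ) = w₀ + ((t : ℝ) : ℂ) * (I * (1:ℂ)⁻¹) := fun t =>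
    congrFun hS t
  have hSb : ∀ t : Ioo (-t₁) t₂, (Sg t : ℂ) ∈ ball (0:ℂ) 1 := by
    intro t
    by_contra hxn
    have hxs : (Sg t : ℂ) ∈ sphere (0:ℂ) 1 := by
      have h1 := (Sg t).2
      rw [mem_closedBall_zero_iff] at h1
      rw [mem_ball_zero_iff] at hxn
      rw [mem_sphere_zero_iff_norm]
      linarith
    apply hp.noJ t t.2
    rw [← hSF t, S.hFs _ hxs]
    exact ⟨_, hxs, rfl⟩
  set K := KK F 1 w₀ t₁ t₂ with hK
  set K₁ : Set ℂ := range (fun t : Ioo (-t₁) t₂ => (Sg t : ℂ)) with hK₁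
  have hK₁K : K₁ ⊆ K := by
    rintro _ ⟨t, rfl⟩
    exact ⟨hSb t, t, t.2, hSF t⟩
  set τ : ℂ → ℝ := fun z => ((1:ℂ) * (F z - w₀)).im with hτ
  have hτeq : ∀ z : ℂ, ∀ t : ℝ, F z = w₀ + (t:ℂ) * (I * (1:ℂ)⁻¹) → τ z = t := by
    intro z t h
    simp only [hτ]
    rw [h]
    simp
  classical
  set sgt : ℝ → ℂ := fun t => if h : t ∈ Ioo (-t₁) t₂ then (Sg ⟨t, h⟩ : ℂ) else 0 with hsgt
  have hsgeq : ∀ t : Ioo (-t₁) t₂, sgt t = (Sg t : ℂ) := by
    intro t
    simp only [hsgt, dif_pos t.2]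
  have hsgc : ∀ t ∈ Ioo (-t₁) t₂, ContinuousAt sgt t := by
    intro t ht
    have h1 := (isOpen_Ioo (a := -t₁) (b := t₂)).isOpenEmbedding_subtypeVal.continuousAt_iff
      (g := sgt) (x := ⟨t, ht⟩)
    refine h1.1 ?_
    have h2 : sgt ∘ (Subtype.val : Ioo (-t₁) t₂ → ℝ) = fun t => (Sg t : ℂ) := by
      ext t
      exact hsgeq t
    rw [h2]
    exact (continuous_subtype_val.comp Sg.continuous).continuousAt
  have hFc : ∀ z ∈ ball (0:ℂ) 1, ContinuousAt F z := fun z hz =>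
    S.hF.continuousAt (mem_of_superset (isOpen_ball.mem_nhds hz) ball_subset_closedBall)
  have hτc : ∀ z ∈ ball (0:ℂ) 1, ContinuousAt τ z := fun z hz =>
    Complex.continuous_im.continuousAt.comp
      (continuousAt_const.mul ((hFc z hz).sub continuousAt_const))
  have hSc : ∀ z ∈ ball (0:ℂ) 1, τ z ∈ Ioo (-t₁) t₂ → ContinuousAt (fun z => sgt (τ z)) z := by
    intro z hz ht
    exact ContinuousAt.comp (hsgc _ ht) (hτc z hz)
  have hKτ : ∀ z ∈ K, τ z ∈ Ioo (-t₁) t₂ ∧ F z = w₀ + (τ z : ℂ) * (I * (1:ℂ)⁻¹) := by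
    rintro z ⟨hz, t, ht, hte⟩
    rw [hτeq z t hte]
    exact ⟨ht, hte⟩
  have hS1 : ∀ z ∈ K₁, sgt (τ z) = z := by
    rintro _ ⟨t, rfl⟩
    show sgt (τ (Sg t : ℂ)) = (Sg t : ℂ)
    rw [hτeq _ t (hSF t), hsgeq]
  have hK₁' : ∀ z, τ z ∈ Ioo (-t₁) t₂ → sgt (τ z) = z → z ∈ K₁ := by
    intro z ht he
    refine ⟨⟨τ z, ht⟩, ?_⟩
    show (Sg ⟨τ z, ht⟩ : ℂ) = z
    rw [← hsgeq ⟨τ z, ht⟩]
    exact he
  have lp₁ : LevelPiece (HH h₁ h₂ 1 w₀) 0 K₁ := by
    refine ⟨hK₁K.trans hp.lp.sub, ?_, fun z hz => hp.lp.level z (hK₁K hz), ?_⟩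
    · intro z hz hzc
      have hzK : z ∈ K := hp.lp.closed z hz (closure_mono hK₁K hzc)
      obtain ⟨ht, hte⟩ := hKτ z hzK
      apply hK₁' z ht
      have : (𝓝[K₁] z).NeBot := mem_closure_iff_nhdsWithin_neBot.1 hzc
      have h1 : Tendsto (fun z => sgt (τ z)) (𝓝[K₁] z) (𝓝 (sgt (τ z))) :=
        (hSc z hz ht).tendsto.mono_left nhdsWithin_le_nhds
      have h2 : Tendsto (fun z : ℂ => z) (𝓝[K₁] z) (𝓝 z) := tendsto_id.mono_left nhdsWithin_le_nhds
      refine tendsto_nhds_unique h1 (h2.congr' ?_)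
      filter_upwards [self_mem_nhdsWithin] with y hy
      exact (hS1 y hy).symm
    · intro z hz
      have hzK := hK₁K hz
      have hzb := hp.lp.sub hzK
      obtain ⟨ht, hte⟩ := hKτ z hzK
      obtain ⟨G, hG1, hG2⟩ := S.local_homeo hzb
      have hsrc : G.source ∈ 𝓝 z := G.open_source.mem_nhds hG1
      have hsrc' : ∀ᶠ w in 𝓝 z, sgt (τ w) ∈ G.source := by
        apply (hSc z hzb ht).eventually
        show ∀ᶠ y in 𝓝 (sgt (τ z)), y ∈ G.source
        rw [hS1 z hz]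
        exact hsrc
      filter_upwards [hsrc, hsrc', hp.lp.opn z hzK] with w hw1 hw2 hw3 hw4
      have hwK := hw3 hw4
      obtain ⟨ht', hte'⟩ := hKτ w hwK
      apply hK₁' w ht'
      apply G.injOn hw2 hw1
      rw [hG2, hte', hsgeq ⟨τ w, ht'⟩, hSF]
  refine no_two (S.HH_an 1 w₀) (S.HH_nc one_ne_zero w₀) hp.lp lp₁ hK₁K (S.U_cont 1 w₀)
    (fun z hz => S.HH_re 1 w₀ hz) hp.hα hp.hβ hp.hUα hp.hUβ hp.hcl (z₁ := z₁) (z₂ := z₂) ?_ ?_ ?_
  · exact ⟨⟨0, h0mem⟩, by show (Sg ⟨0, h0mem⟩ : ℂ) = z₁; rw [hS0]⟩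
  · exact ⟨hz₂, 0, h0mem, by rw [← hzz]; simp⟩
  · rintro ⟨t, ht⟩
    have ht' : (Sg t : ℂ) = z₂ := ht
    have h1 := hSF t
    rw [ht', ← hzz] at h1
    have h2 : (((t : ℝ) : ℂ)) * (I * (1:ℂ)⁻¹) = 0 := by linear_combination -h1
    have h3 : (t : ℝ) = 0 := by
      have := congrArg Complex.im h2
      simpa using this
    have h4 : t = ⟨0, h0mem⟩ := Subtype.ext h3
    rw [h4, hS0] at ht'
    exact hne ht'

theorem main {φ P : ℂ → ℂ} (hφ : ContinuousOn φ (sphere (0:ℂ) 1))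
    (hinj : InjOn φ (sphere (0:ℂ) 1))
    (hP : ∀ z ∈ ball (0:ℂ) 1, P z = ((1 / (2 * Real.pi) : ℝ) : ℂ) *
      ∫ t in (0:ℝ)..(2 * Real.pi), ((pk z t : ℝ) : ℂ) * φ (exp ((t : ℂ) * I)))
    (hin : ∀ z ∈ ball (0:ℂ) 1, P z ∉ φ '' sphere (0:ℂ) 1 ∧
      Bornology.IsBounded (connectedComponentIn (φ '' sphere (0:ℂ) 1)ᶜ (P z))) :
    InjOn P (ball (0:ℂ) 1) ∧ P '' ball (0:ℂ) 1 =
      {w : ℂ | w ∉ φ '' sphere (0:ℂ) 1 ∧
        Bornology.IsBounded (connectedComponentIn (φ '' sphere (0:ℂ) 1)ᶜ w)} := by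
  obtain ⟨h₁, h₂, ha₁, ha₂, hr₁, hr₂⟩ := exists_herglotz hφ hP
  have hPc : ContinuousOn P (ball (0:ℂ) 1) := by
    have h1 : ContinuousOn (fun z => ((h₁ z).re : ℂ) + ((h₂ z).re : ℂ) * I) (ball (0:ℂ) 1) :=
      (continuous_ofReal.comp_continuousOn (Complex.continuous_re.comp_continuousOn
        ha₁.continuousOn)).add ((continuous_ofReal.comp_continuousOn
          (Complex.continuous_re.comp_continuousOn ha₂.continuousOn)).mul continuousOn_const)
    refine h1.congr ?_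
    intro z hz
    show P z = ((h₁ z).re : ℂ) + ((h₂ z).re : ℂ) * I
    rw [← hr₁ z hz, ← hr₂ z hz, re_add_im]
  have S : Setup φ (ext φ P) h₁ h₂ := by
    refine ⟨hφ, hinj, ext_continuousOn hφ hP hPc, fun z hz => ext_sphere hz, ha₁, ha₂, ?_, ?_, ?_⟩
    · intro z hz; rw [ext_ball hz]; exact hr₁ z hz
    · intro z hz; rw [ext_ball hz]; exact hr₂ z hz
    · intro z hz; rw [ext_ball hz]; exact hin z hz
  refine ⟨?_, ?_⟩
  · intro a ha b hb hab
    apply S.injective ha hb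
    rw [ext_ball ha, ext_ball hb, hab]
  · apply Subset.antisymm
    · rintro _ ⟨z, hz, rfl⟩
      exact hin z hz
    · rintro w ⟨hw1, hw2⟩
      by_contra hcon
      refine surj_aux hφ hinj S.hF S.hFs hw1 hw2 ?_
      intro z hz hzw
      by_cases hzb : z ∈ ball (0:ℂ) 1
      · rw [ext_ball hzb] at hzw
        exact hcon ⟨z, hzb, hzw⟩
      · have hzs : z ∈ sphere (0:ℂ) 1 := by
          rw [mem_closedBall_zero_iff] at hz
          rw [mem_ball_zero_iff] at hzb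
          rw [mem_sphere_zero_iff_norm]
          linarith
        rw [ext_sphere hzs] at hzw
        exact hw1 ⟨z, hzs, hzw⟩

end Pool.Agent.Helper37.Harm
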