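import Mathlib

set_option autoImplicit false
open scoped BigOperators

namespace Pool.Agent.LZ

noncomputable def w (x : ℝ) : ℝ := 1 / (1 + x ^ 2)
lemma w_shift (x r : ℝ) (h : |r| ≤ 1) : w (x - r) ≤ 3 * w x := by
  unfold w
  have h1 : r ^ 2 ≤ 1 := by
    have := abs_le.mp h
    nlinarith [this.1, this.2]
  have e : 3 * (1 / (1 + x ^ 2)) = 3 / (1 + x^2) := by ring
  rw [e, div_le_div_iff₀ (by positivity) (by positivity)]
  nlinarith [sq_nonneg (x - 2 * r), sq_nonneg (x-r)]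

lemma w_shift' (x r : ℝ) (h : |r| ≤ 1) : w x ≤ 3 * w (x - r) := by
  have := w_shift (x - r) (-r) (by rwa [abs_neg])
  simpa using this

lemma w_nonneg (x : ℝ) : 0 ≤ w x := by unfold w; positivity
lemma w_neg (x : ℝ) : w (-x) = w x := by unfold w; rw [neg_sq]

lemma summable_w_nat : Summable (fun n : ℕ => w n) := by
  have h : Summable (fun n : ℕ => 2 * (1 / ((n + 1 : ℕ) : ℝ) ^ 2)) := by
    apply Summable.mul_left
    exact (summable_nat_add_iff 1).mpr (Real.summable_one_div_nat_pow.mpr one_lt_two)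
  refine Summable.of_nonneg_of_le (fun n => w_nonneg _) (fun n => ?_) h
  unfold w
  push_cast
  have e : 2 * (1 / ((n:ℝ) + 1) ^ 2) = 2 / ((n:ℝ) + 1) ^ 2 := by ring
  rw [e, div_le_div_iff₀ (by positivity) (by positivity)]
  nlinarith [sq_nonneg ((n:ℝ) - 1)]

lemma summable_w_int : Summable (fun n : ℤ => w n) := by
  apply Summable.of_nat_of_neg
  · simpa using summable_w_nat
  · simpa [w_neg] using summable_w_nat

noncomputable def W : ℝ := 3 * ∑' q : ℤ, w q

lemma sum_w (y : ℝ) : Summable (fun q : ℤ => w (y - q)) ∧ ∑' q : ℤ, w (y - q) ≤ W := by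
  have hb : ∀ q : ℤ, w (y - q) ≤ 3 * w ((⌊y⌋ - q : ℤ) : ℝ) := by
    intro q
    have h1 := Int.floor_le y
    have h2 := Int.lt_floor_add_one y
    have := w_shift ((⌊y⌋ - q : ℤ) : ℝ) (⌊y⌋ - y) (by rw [abs_le]; constructor <;> linarith)
    push_cast at this ⊢
    convert this using 2
    ring
  have hs : Summable (fun q : ℤ => 3 * w ((⌊y⌋ - q : ℤ) : ℝ)) := by
    apply Summable.mul_left
    exact (Equiv.summable_iff (Equiv.subLeft ⌊y⌋) (f := fun n : ℤ => w n)).mpr summable_w_int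
  have hs1 : Summable (fun q : ℤ => w (y - q)) :=
    Summable.of_nonneg_of_le (fun _ => w_nonneg _) hb hs
  refine ⟨hs1, ?_⟩
  calc ∑' q : ℤ, w (y - q) ≤ ∑' q : ℤ, 3 * w ((⌊y⌋ - q : ℤ) : ℝ) := hs1.tsum_le_tsum hb hs
    _ = 3 * ∑' q : ℤ, w ((⌊y⌋ - q : ℤ) : ℝ) := tsum_mul_left
    _ = W := by
      unfold W
      congr 1
      exact Equiv.tsum_eq (Equiv.subLeft ⌊y⌋) (f := fun n : ℤ => w n)

lemma W_pos : 0 < W := by
  unfold W
  have : 0 < ∑' q : ℤ, w q := by
    apply summable_w_int.tsum_pos (fun _ => w_nonneg _) 0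
    unfold w; norm_num
  linarith

lemma sum_w_scaled (L : ℕ) (hL : 0 < L) (y : ℝ) :
    Summable (fun m : ℤ => w ((y - m) / L)) ∧ ∑' m : ℤ, w ((y - m) / L) ≤ L * W := by
  have : NeZero L := ⟨hL.ne'⟩
  have hLr : (0:ℝ) < L := by exact_mod_cast hL
  obtain ⟨g, hg⟩ : ∃ g : Fin L × ℤ → ℝ, g = fun p => w ((y - ((p.1 : ℕ) : ℝ)) / L - (p.2 : ℝ)) :=
    ⟨_, rfl⟩
  have hg0 : (0 : Fin L × ℤ → ℝ) ≤ g := by
    intro p; rw [hg]; exact w_nonneg _
  have hgs : Summable g := by
    rw [summable_prod_of_nonneg hg0]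
    refine ⟨fun x => ?_, (hasSum_fintype _).summable⟩
    simp only [hg]
    exact (sum_w _).1
  let E : ℤ ≃ Fin L × ℤ := (Int.divModEquiv L).trans (Equiv.prodComm ℤ (Fin L))
  have hE : ∀ p : Fin L × ℤ, w ((y - ((E.symm p : ℤ) : ℝ)) / L) = g p := by
    intro p
    rw [hg]
    simp only
    congr 1
    have : ((E.symm p : ℤ) : ℝ) = (p.2 : ℝ) * L + ((p.1 : ℕ) : ℝ) := by
      simp only [E, Int.divModEquiv]
      push_cast
      simp
    rw [this]
    field_simp
    ring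
  have h1 : Summable (fun m : ℤ => w ((y - m) / L)) := by
    rw [← Equiv.summable_iff E.symm]
    refine hgs.congr (fun p => ?_)
    exact (hE p).symm
  refine ⟨h1, ?_⟩
  have h2 : ∑' m : ℤ, w ((y - m) / L) = ∑' p : Fin L × ℤ, g p := by
    rw [← Equiv.tsum_eq E.symm]
    exact tsum_congr hE
  rw [h2, hgs.tsum_prod, tsum_fintype]
  calc ∑ b : Fin L, ∑' c : ℤ, g (b, c) ≤ ∑ b : Fin L, W := by
        apply Finset.sum_le_sum
        intro b _
        simp only [hg]
        exact (sum_w _).2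
    _ = L * W := by simp

lemma sum_w_nat (y : ℝ) : Summable (fun m : ℕ => w (y - m)) ∧ ∑' m : ℕ, w (y - m) ≤ W := by
  have hinj : Function.Injective (fun n : ℕ => (n : ℤ)) := Nat.cast_injective
  have h1 : Summable (fun m : ℕ => w (y - m)) := by
    have := (sum_w y).1.comp_injective hinj
    simpa [Function.comp_def] using this
  refine ⟨h1, ?_⟩
  calc ∑' m : ℕ, w (y - m) = ∑' m : ℕ, (fun q : ℤ => w (y - q)) (m : ℤ) := by simp
    _ ≤ ∑' q : ℤ, w (y - q) := by
        apply Summable.tsum_le_tsum_of_inj _ hinj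
        · intro c _; exact w_nonneg _
        · intro i; exact le_refl _
        · simpa using h1
        · exact (sum_w y).1
    _ ≤ W := (sum_w y).2

end Pool.Agent.LZ
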