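import Mathlib
import Pool.Agent.Helper37.LZ1

set_option autoImplicit false
open scoped BigOperators

namespace Pool.Agent.LZ

/-- abstract fixed point in the sup norm on bounded real sequences indexed by the integers -/
theorem exists_fixed (Phi : (ℤ → ℝ) → ℤ → ℝ) (M q : ℝ) (hM : 0 < M) (hq0 : 0 ≤ q) (hq : q < 1)
    (h1 : ∀ e : ℤ → ℝ, (∀ n, |e n| ≤ M) → ∀ n, |Phi e n| ≤ M)
    (h2 : ∀ e e' : ℤ → ℝ, (∀ n, |e n| ≤ M) → (∀ n, |e' n| ≤ M) → ∀ d : ℝ, (∀ n, |e n - e' n| ≤ d) →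
      ∀ n, |Phi e n - Phi e' n| ≤ q * d) :
    ∃ e : ℤ → ℝ, (∀ n, |e n| ≤ M) ∧ ∀ n, Phi e n = e n := by
  classical
  let cl : ℝ → ℝ := fun x => max (-M) (min M x)
  have hcl : ∀ x, |cl x| ≤ M := by
    intro x
    rw [abs_le]
    refine ⟨le_max_left _ _, max_le (by linarith) (min_le_left _ _)⟩
  have hcl' : ∀ x y, |cl x - cl y| ≤ |x - y| := by
    intro x y
    calc |cl x - cl y| ≤ |min M x - min M y| := by
          simpa using abs_max_sub_max_le_max (-M) (min M x) (-M) (min M y)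
      _ ≤ |x - y| := by
          simpa using abs_min_sub_min_le_max M x M y
  have hclid : ∀ x, |x| ≤ M → cl x = x := by
    intro x hx
    rw [abs_le] at hx
    simp only [cl]
    rw [min_eq_right hx.2, max_eq_right hx.1]
  let F : BoundedContinuousFunction ℤ ℝ → BoundedContinuousFunction ℤ ℝ := fun e =>
    BoundedContinuousFunction.ofNormedAddCommGroupDiscrete (Phi (fun n => cl (e n))) M
      (fun n => by rw [Real.norm_eq_abs]; exact h1 _ (fun n => hcl _) n)
  have hF : ContractingWith ⟨q, hq0⟩ F := by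
    refine ⟨?_, ?_⟩
    · exact_mod_cast hq
    · apply LipschitzWith.of_dist_le_mul
      intro e e'
      rw [BoundedContinuousFunction.dist_le (by positivity)]
      intro n
      rw [Real.dist_eq]
      apply h2 _ _ (fun n => hcl _) (fun n => hcl _)
      intro n
      refine (hcl' _ _).trans ?_
      rw [← Real.dist_eq]
      exact BoundedContinuousFunction.dist_coe_le_dist n
  obtain ⟨e, he⟩ : ∃ e, F e = e := ⟨_, hF.fixedPoint_isFixedPt⟩
  have hev : ∀ n, Phi (fun n => cl (e n)) n = e n := by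
    intro n
    have := congrArg (fun g : BoundedContinuousFunction ℤ ℝ => g n) he
    exact this
  have heM : ∀ n, |e n| ≤ M := by
    intro n
    rw [← hev n]
    exact h1 _ (fun n => hcl _) n
  have hce : (fun n => cl (e n)) = fun n => e n := by
    funext n; exact hclid _ (heM n)
  rw [hce] at hev
  exact ⟨fun n => e n, heM, hev⟩

/-- mean value estimate -/
lemma mv (G G1 : ℝ → ℝ) (C : ℝ) (hC : 0 ≤ C) (hG : ∀ x, HasDerivAt G (G1 x) x)
    (hb : ∀ x, |G1 x| ≤ C * w x) (M L : ℝ) (hL : 0 < L) (hML : M ≤ L) (x s s' : ℝ)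
    (hs : |s| ≤ M) (hs' : |s'| ≤ M) :
    |G ((x - s) / L) - G ((x - s') / L)| ≤ 3 * C / L * w (x / L) * |s - s'| := by
  have hder : ∀ r ∈ Set.Icc (-M) M, HasDerivWithinAt (fun r => G ((x - r) / L))
      (G1 ((x - r) / L) * (-1 / L)) (Set.Icc (-M) M) r := by
    intro r _
    have h1 : HasDerivAt (fun r : ℝ => (x - r) / L) (-1 / L) r := by
      have := ((hasDerivAt_id r).const_sub x).div_const L
      simpa using this
    exact ((hG ((x - r) / L)).comp r h1).hasDerivWithinAt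
  have hbd : ∀ r ∈ Set.Icc (-M) M, ‖G1 ((x - r) / L) * (-1 / L)‖ ≤ 3 * C / L * w (x / L) := by
    intro r hr
    rw [norm_mul, Real.norm_eq_abs, Real.norm_eq_abs, abs_div, abs_neg, abs_one, abs_of_pos hL]
    have h2 : w ((x - r) / L) ≤ 3 * w (x / L) := by
      have h3 : |r / L| ≤ 1 := by
        rw [abs_div, abs_of_pos hL, div_le_one hL]
        exact (abs_le.mpr ⟨hr.1, hr.2⟩).trans hML
      have := w_shift (x / L) (r / L) h3
      rwa [← sub_div] at this
    have h4 : |G1 ((x - r) / L)| ≤ C * (3 * w (x / L)) :=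
      (hb _).trans (mul_le_mul_of_nonneg_left h2 hC)
    calc |G1 ((x - r) / L)| * (1 / L) ≤ C * (3 * w (x / L)) * (1 / L) :=
          mul_le_mul_of_nonneg_right h4 (by positivity)
      _ = 3 * C / L * w (x / L) := by ring
  have key := (convex_Icc (-M) M).norm_image_sub_le_of_norm_hasDerivWithin_le hder hbd
    (abs_le.mp hs') (abs_le.mp hs)
  simpa [Real.norm_eq_abs] using key

noncomputable def tt (K K1 : ℝ → ℝ) (L x s : ℝ) : ℝ := K ((x - s) / L) - K (x / L) + s / L * K1 (x / L)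

lemma tt_diff (K K1 K2 : ℝ → ℝ) (C : ℝ) (hC : 0 ≤ C) (hK : ∀ x, HasDerivAt K (K1 x) x)
    (hK1 : ∀ x, HasDerivAt K1 (K2 x) x)
    (hb2 : ∀ x, |K2 x| ≤ C * w x) (M L : ℝ) (hM : 0 ≤ M) (hL : 0 < L) (hML : M ≤ L) (x s s' : ℝ)
    (hs : |s| ≤ M) (hs' : |s'| ≤ M) :
    |tt K K1 L x s - tt K K1 L x s'| ≤ 3 * C * M / L ^ 2 * w (x / L) * |s - s'| := by
  have hder : ∀ r ∈ Set.Icc (-M) M, HasDerivWithinAt (fun r => tt K K1 L x r)
      (K1 ((x - r) / L) * (-1 / L) + 1 / L * K1 (x / L)) (Set.Icc (-M) M) r := by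
    intro r _
    have h1 : HasDerivAt (fun r : ℝ => (x - r) / L) (-1 / L) r := by
      have := ((hasDerivAt_id r).const_sub x).div_const L
      simpa using this
    have h2 : HasDerivAt (fun r : ℝ => r / L * K1 (x / L)) (1 / L * K1 (x / L)) r := by
      have := ((hasDerivAt_id r).div_const L).mul_const (K1 (x / L))
      simpa using this
    have h3 := ((hK ((x - r) / L)).comp r h1).sub_const (K (x / L))
    exact (h3.add h2).hasDerivWithinAt
  have hbd : ∀ r ∈ Set.Icc (-M) M, ‖K1 ((x - r) / L) * (-1 / L) + 1 / L * K1 (x / L)‖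
      ≤ 3 * C * M / L ^ 2 * w (x / L) := by
    intro r hr
    have hrM : |r| ≤ M := abs_le.mpr ⟨hr.1, hr.2⟩
    have h0 := mv K1 K2 C hC hK1 hb2 M L hL hML x r 0 hrM (by simpa using hM)
    rw [sub_zero, sub_zero] at h0
    have e1 : K1 ((x - r) / L) * (-1 / L) + 1 / L * K1 (x / L)
        = -(1 / L) * (K1 ((x - r) / L) - K1 (x / L)) := by ring
    rw [e1, norm_mul, Real.norm_eq_abs, Real.norm_eq_abs, abs_neg, abs_of_pos (by positivity : 0 < 1 / L)]
    calc 1 / L * |K1 ((x - r) / L) - K1 (x / L)| ≤ 1 / L * (3 * C / L * w (x / L) * |r|) :=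
          mul_le_mul_of_nonneg_left h0 (by positivity)
      _ ≤ 1 / L * (3 * C / L * w (x / L) * M) := by
          apply mul_le_mul_of_nonneg_left _ (by positivity)
          apply mul_le_mul_of_nonneg_left hrM
          have := w_nonneg (x / L)
          positivity
      _ = 3 * C * M / L ^ 2 * w (x / L) := by field_simp
  have key := (convex_Icc (-M) M).norm_image_sub_le_of_norm_hasDerivWithin_le hder hbd
    (abs_le.mp hs') (abs_le.mp hs)
  simpa [Real.norm_eq_abs] using key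

lemma tt_zero (K K1 : ℝ → ℝ) (L x : ℝ) : tt K K1 L x 0 = 0 := by
  simp [tt]

noncomputable def AA (K : ℝ → ℝ) (L : ℕ) (e : ℤ → ℝ) (n : ℤ) : ℝ :=
  ∑' m : ℕ, K (((n : ℝ) - L * m - e ((L : ℤ) * m)) / L)

noncomputable def TT (K K1 : ℝ → ℝ) (L : ℕ) (e : ℤ → ℝ) (n : ℤ) : ℝ :=
  ∑' m : ℤ, tt K K1 L ((n : ℝ) - m) (e m)

section
variable (K K1 K2 : ℝ → ℝ) (C : ℝ) (hC : 0 ≤ C) (hK : ∀ x, HasDerivAt K (K1 x) x)
    (hK1 : ∀ x, HasDerivAt K1 (K2 x) x) (hb : ∀ x, |K x| ≤ C * w x) (hb1 : ∀ x, |K1 x| ≤ C * w x)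
    (hb2 : ∀ x, |K2 x| ≤ C * w x) (M : ℝ) (L : ℕ) (hM : 0 ≤ M) (hL : 0 < L) (hML : M + 1 ≤ L)

include hC hb hM hL hML in
lemma K_shift_bound (x s : ℝ) (hs : |s| ≤ M) : |K ((x - s) / L)| ≤ 3 * C * w (x / L) := by
  have hLr : (0:ℝ) < L := by exact_mod_cast hL
  have h2 : w ((x - s) / L) ≤ 3 * w (x / L) := by
    have h3 : |s / L| ≤ 1 := by
      rw [abs_div, abs_of_pos hLr, div_le_one hLr]
      linarith
    have := w_shift (x / L) (s / L) h3
    rwa [← sub_div] at this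
  calc |K ((x - s) / L)| ≤ C * w ((x - s) / L) := hb _
    _ ≤ C * (3 * w (x / L)) := mul_le_mul_of_nonneg_left h2 hC
    _ = 3 * C * w (x / L) := by ring

include hL in
lemma w_arith (x : ℝ) (m : ℕ) : w ((x - L * m) / L) = w (x / L - m) := by
  have hLr : (0:ℝ) < L := by exact_mod_cast hL
  congr 1
  field_simp

include hL in
lemma sum_w_L (x : ℝ) : Summable (fun m : ℕ => w ((x - L * m) / L)) ∧
    ∑' m : ℕ, w ((x - L * m) / L) ≤ W := by
  simp only [w_arith L hL x]
  exact sum_w_nat _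

include hC hb hM hL hML in
lemma AA_summable (e : ℤ → ℝ) (he : ∀ n, |e n| ≤ M) (n : ℝ) :
    Summable (fun m : ℕ => |K ((n - L * m - e ((L : ℤ) * m)) / L)|) := by
  refine Summable.of_nonneg_of_le (fun _ => abs_nonneg _)
    (fun m => K_shift_bound K C hC hb M L hM hL hML (n - L * m) (e ((L : ℤ) * m)) (he _)) ?_
  exact (sum_w_L L hL n).1.mul_left _

include hC hb hM hL hML in
lemma AA_bound (e : ℤ → ℝ) (he : ∀ n, |e n| ≤ M) (n : ℤ) : |AA K L e n| ≤ 3 * C * W := by
  have hs := AA_summable K C hC hb M L hM hL hML e he n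
  have h1 : |AA K L e n| ≤ ∑' m : ℕ, |K (((n : ℝ) - L * m - e ((L : ℤ) * m)) / L)| := by
    unfold AA
    have := norm_tsum_le_tsum_norm (f := fun m : ℕ => K (((n : ℝ) - L * m - e ((L : ℤ) * m)) / L))
      (by simpa [Real.norm_eq_abs] using hs)
    simpa [Real.norm_eq_abs] using this
  refine h1.trans ?_
  calc ∑' m : ℕ, |K (((n : ℝ) - L * m - e ((L : ℤ) * m)) / L)|
      ≤ ∑' m : ℕ, 3 * C * w (((n : ℝ) - L * m) / L) :=
        hs.tsum_le_tsum (fun m => K_shift_bound K C hC hb M L hM hL hML _ _ (he _))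
          ((sum_w_L L hL n).1.mul_left _)
    _ = 3 * C * ∑' m : ℕ, w (((n : ℝ) - L * m) / L) := tsum_mul_left
    _ ≤ 3 * C * W := mul_le_mul_of_nonneg_left (sum_w_L L hL n).2 (by positivity)

include hC hK hb hb1 hM hL hML in
/-- difference in both the sequence and the base point (the base point moves by `h`). -/
lemma AA_diff (e e' : ℤ → ℝ) (he : ∀ n, |e n| ≤ M) (he' : ∀ n, |e' n| ≤ M + 1)     (hse' : ∀ x : ℝ, Summable (fun m : ℕ => |K ((x - L * m - e' ((L : ℤ) * m)) / L)|))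
    (d : ℝ) (hd : ∀ n, |e n - e' n| ≤ d) (n : ℤ) :
    |AA K L e n - AA K L e' n| ≤ 3 * C * W / L * d := by
  have hLr : (0:ℝ) < L := by exact_mod_cast hL
  have hs := AA_summable K C hC hb M L hM hL hML e he n
  have hs' := hse' n
  have hd0 : 0 ≤ d := (abs_nonneg _).trans (hd 0)
  unfold AA
  rw [← Summable.tsum_sub (Summable.of_norm (by simpa [Real.norm_eq_abs] using hs))
    (Summable.of_norm (by simpa [Real.norm_eq_abs] using hs'))]
  have hbd : ∀ m : ℕ, ‖K (((n : ℝ) - L * m - e ((L : ℤ) * m)) / L) - K (((n : ℝ) - L * m - e' ((L : ℤ) * m)) / L)‖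
      ≤ 3 * C / L * d * w (((n : ℝ) - L * m) / L) := by
    intro m
    rw [Real.norm_eq_abs]
    have := mv K K1 C hC hK hb1 (M + 1) L hLr hML ((n : ℝ) - L * m) (e ((L : ℤ) * m)) (e' ((L : ℤ) * m))
      ((he _).trans (by linarith)) (he' _)
    refine this.trans ?_
    calc 3 * C / L * w (((n : ℝ) - L * m) / L) * |e ((L : ℤ) * m) - e' ((L : ℤ) * m)|
        ≤ 3 * C / L * w (((n : ℝ) - L * m) / L) * d := by
          apply mul_le_mul_of_nonneg_left (hd _)
          have := w_nonneg (((n : ℝ) - L * m) / L)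
          positivity
      _ = 3 * C / L * d * w (((n : ℝ) - L * m) / L) := by ring
  have hsum2 : Summable (fun m : ℕ => 3 * C / L * d * w (((n : ℝ) - L * m) / L)) :=
    (sum_w_L L hL n).1.mul_left _
  have := tsum_of_norm_bounded hsum2.hasSum hbd
  rw [Real.norm_eq_abs] at this
  refine this.trans ?_
  rw [tsum_mul_left]
  calc 3 * C / L * d * ∑' m : ℕ, w (((n : ℝ) - L * m) / L) ≤ 3 * C / L * d * W :=
        mul_le_mul_of_nonneg_left (sum_w_L L hL n).2 (by positivity)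
    _ = 3 * C * W / L * d := by ring

include hC hK hK1 hb2 hM hL hML in
lemma tt_bound (x s : ℝ) (hs : |s| ≤ M) : |tt K K1 L x s| ≤ 3 * C * M ^ 2 / L ^ 2 * w (x / L) := by
  have hLr : (0:ℝ) < L := by exact_mod_cast hL
  have := tt_diff K K1 K2 C hC hK hK1 hb2 M L hM hLr (by linarith) x s 0 hs (by simpa using hM)
  rw [tt_zero, sub_zero, sub_zero] at this
  refine this.trans ?_
  have h0 := w_nonneg (x / L)
  calc 3 * C * M / L ^ 2 * w (x / L) * |s| ≤ 3 * C * M / L ^ 2 * w (x / L) * M :=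
        mul_le_mul_of_nonneg_left hs (by positivity)
    _ = 3 * C * M ^ 2 / L ^ 2 * w (x / L) := by ring

include hC hK hK1 hb2 hM hL hML in
lemma TT_summable (e : ℤ → ℝ) (he : ∀ n, |e n| ≤ M) (n : ℝ) :
    Summable (fun m : ℤ => |tt K K1 L (n - m) (e m)|) :=
  Summable.of_nonneg_of_le (fun _ => abs_nonneg _)
    (fun m => tt_bound K K1 K2 C hC hK hK1 hb2 M L hM hL hML (n - m) (e m) (he _))
    ((sum_w_scaled L hL n).1.mul_left _)

include hC hK hK1 hb2 hM hL hML in
lemma TT_diff (e e' : ℤ → ℝ) (he : ∀ n, |e n| ≤ M) (he' : ∀ n, |e' n| ≤ M)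
    (d : ℝ) (hd : ∀ n, |e n - e' n| ≤ d) (n : ℤ) :
    |TT K K1 L e n - TT K K1 L e' n| ≤ 3 * C * M * W / L * d := by
  have hLr : (0:ℝ) < L := by exact_mod_cast hL
  have hd0 : 0 ≤ d := (abs_nonneg _).trans (hd 0)
  have hs := TT_summable K K1 K2 C hC hK hK1 hb2 M L hM hL hML e he n
  have hs' := TT_summable K K1 K2 C hC hK hK1 hb2 M L hM hL hML e' he' n
  unfold TT
  rw [← Summable.tsum_sub (Summable.of_norm (by simpa [Real.norm_eq_abs] using hs))
    (Summable.of_norm (by simpa [Real.norm_eq_abs] using hs'))]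
  have hbd : ∀ m : ℤ, ‖tt K K1 L ((n : ℝ) - m) (e m) - tt K K1 L ((n : ℝ) - m) (e' m)‖
      ≤ 3 * C * M / L ^ 2 * d * w (((n : ℝ) - m) / L) := by
    intro m
    rw [Real.norm_eq_abs]
    refine (tt_diff K K1 K2 C hC hK hK1 hb2 M L hM hLr (by linarith) ((n : ℝ) - m) (e m) (e' m)
      (he _) (he' _)).trans ?_
    calc 3 * C * M / L ^ 2 * w (((n : ℝ) - m) / L) * |e m - e' m|
        ≤ 3 * C * M / L ^ 2 * w (((n : ℝ) - m) / L) * d := by
          apply mul_le_mul_of_nonneg_left (hd _)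
          have := w_nonneg (((n : ℝ) - m) / L)
          positivity
      _ = 3 * C * M / L ^ 2 * d * w (((n : ℝ) - m) / L) := by ring
  have hsum2 : Summable (fun m : ℤ => 3 * C * M / L ^ 2 * d * w (((n : ℝ) - m) / L)) :=
    (sum_w_scaled L hL n).1.mul_left _
  have := tsum_of_norm_bounded hsum2.hasSum hbd
  rw [Real.norm_eq_abs] at this
  refine this.trans ?_
  rw [tsum_mul_left]
  calc 3 * C * M / L ^ 2 * d * ∑' m : ℤ, w (((n : ℝ) - m) / L) ≤ 3 * C * M / L ^ 2 * d * (L * W) :=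
        mul_le_mul_of_nonneg_left (sum_w_scaled L hL n).2 (by positivity)
    _ = 3 * C * M * W / L * d := by field_simp

end

/-- The displacement sequence. -/
theorem exists_displacement (K K1 K2 : ℝ → ℝ) (C : ℝ) (hC : 0 ≤ C) (hK : ∀ x, HasDerivAt K (K1 x) x)
    (hK1 : ∀ x, HasDerivAt K1 (K2 x) x) (hb : ∀ x, |K x| ≤ C * w x) (hb1 : ∀ x, |K1 x| ≤ C * w x)
    (hb2 : ∀ x, |K2 x| ≤ C * w x) :
    ∃ (M : ℝ) (L : ℕ) (e : ℤ → ℝ), 0 < M ∧ 7 ≤ L ∧ M + 1 ≤ L ∧ (∀ n, |e n| ≤ M) ∧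
      (∀ n, |e (n + 1) - e n| < 1) ∧ ∀ n, e n = - AA K L e n + TT K K1 L e n := by
  have hW := W_pos
  set M : ℝ := 3 * C * W + 1 with hMdef
  have hM : 0 < M := by positivity
  obtain ⟨L0, hL0⟩ := exists_nat_ge (18 * C * W * (M + 1) ^ 2 + M + 8)
  have hbig : 0 ≤ 18 * C * W * (M + 1) ^ 2 := by positivity
  have hLr : (0:ℝ) < L0 := by linarith
  have hL : 0 < L0 := by exact_mod_cast hLr
  have hML : M + 1 ≤ L0 := by linarith
  have h7 : 7 ≤ L0 := by
    have : (7:ℝ) ≤ L0 := by linarith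
    exact_mod_cast this
  have hq : 3 * C * W * (M + 1) ^ 2 / L0 ≤ 1 / 6 := by
    rw [div_le_div_iff₀ hLr (by norm_num)]
    linarith
  have hM1 : (1:ℝ) ≤ M := by rw [hMdef]; nlinarith [mul_nonneg hC hW.le]
  have hq1 : 3 * C * W / L0 ≤ 3 * C * W * (M + 1) ^ 2 / L0 := by
    apply div_le_div_of_nonneg_right _ hLr.le
    have : 0 ≤ 3 * C * W := by positivity
    nlinarith [sq_nonneg M]
  have hq2 : 3 * C * M * W / L0 + 3 * C * W / L0 ≤ 3 * C * W * (M + 1) ^ 2 / L0 := by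
    rw [← add_div]
    apply div_le_div_of_nonneg_right _ hLr.le
    have : 0 ≤ 3 * C * W := by positivity
    nlinarith [sq_nonneg M, mul_nonneg this hM.le]
  have hq3 : 3 * C * M * W / L0 * M ≤ 3 * C * W * (M + 1) ^ 2 / L0 := by
    rw [div_mul_eq_mul_div]
    apply div_le_div_of_nonneg_right _ hLr.le
    have : 0 ≤ 3 * C * W := by positivity
    nlinarith [sq_nonneg M, mul_nonneg this hM.le]
  have habs0 : ∀ n : ℤ, |(fun _ : ℤ => (0:ℝ)) n| ≤ M := by intro n; simpa using hM.le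
  have hT0 : ∀ n : ℤ, TT K K1 L0 (fun _ => 0) n = 0 := by
    intro n; unfold TT; simp [tt_zero]
  have hTb : ∀ e : ℤ → ℝ, (∀ n, |e n| ≤ M) → ∀ n, |TT K K1 L0 e n| ≤ 1 / 6 := by
    intro e he n
    have := TT_diff K K1 K2 C hC hK hK1 hb2 M L0 hM.le hL hML e (fun _ => 0) he habs0 M
      (fun n => by simpa using he n) n
    rw [hT0, sub_zero] at this
    linarith
  obtain ⟨e, he, hfix⟩ := exists_fixed (fun e n => - AA K L0 e n + TT K K1 L0 e n) M
    (3 * C * M * W / L0 + 3 * C * W / L0) hM (by positivity) (by linarith)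
    (by
      intro e he n
      have h1 := AA_bound K C hC hb M L0 hM.le hL hML e he n
      have h2 := hTb e he n
      calc |-AA K L0 e n + TT K K1 L0 e n| ≤ |-AA K L0 e n| + |TT K K1 L0 e n| := abs_add_le _ _
        _ ≤ 3 * C * W + 1 / 6 := by rw [abs_neg]; linarith
        _ ≤ M := by rw [hMdef]; linarith)
    (by
      intro e e' he he' d hd n
      have h1 := AA_diff K K1 C hC hK hb hb1 M L0 hM.le hL hML e e' he (fun n => (he' n).trans (by linarith))
        (fun x => AA_summable K C hC hb M L0 hM.le hL hML e' he' x) d hd n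
      have h2 := TT_diff K K1 K2 C hC hK hK1 hb2 M L0 hM.le hL hML e e' he he' d hd n
      have e1 : (-AA K L0 e n + TT K K1 L0 e n) - (-AA K L0 e' n + TT K K1 L0 e' n)
          = -(AA K L0 e n - AA K L0 e' n) + (TT K K1 L0 e n - TT K K1 L0 e' n) := by ring
      rw [e1]
      calc |-(AA K L0 e n - AA K L0 e' n) + (TT K K1 L0 e n - TT K K1 L0 e' n)|
          ≤ |-(AA K L0 e n - AA K L0 e' n)| + |TT K K1 L0 e n - TT K K1 L0 e' n| := abs_add_le _ _
        _ ≤ 3 * C * W / L0 * d + 3 * C * M * W / L0 * d := by rw [abs_neg]; linarith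
        _ = (3 * C * M * W / L0 + 3 * C * W / L0) * d := by ring)
  refine ⟨M, L0, e, hM, h7, hML, he, ?_, fun n => (hfix n).symm⟩
  intro n
  -- the first sum changes little from n to n + 1
  have hA : |AA K L0 e n - AA K L0 e (n + 1)| ≤ 3 * C * W / L0 * 1 := by
    have hshift : AA K L0 e (n + 1) = AA K L0 (fun m => e m - 1) n := by
      unfold AA
      apply tsum_congr
      intro m
      congr 2
      push_cast
      ring
    rw [hshift]
    apply AA_diff K K1 C hC hK hb hb1 M L0 hM.le hL hML e (fun m => e m - 1) he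
    · intro m
      have := abs_le.mp (he m)
      rw [abs_le]; constructor <;> linarith
    · intro x
      have := AA_summable K C hC hb M L0 hM.le hL hML e he (x + 1)
      refine this.congr (fun m => ?_)
      congr 3
      ring
    · intro m
      simp
  have h1 := hTb e he n
  have h2 := hTb e he (n + 1)
  have e1 := hfix n
  have e2 := hfix (n + 1)
  have e3 : e (n + 1) - e n = (AA K L0 e n - AA K L0 e (n + 1)) + TT K K1 L0 e (n + 1) - TT K K1 L0 e n := by
    rw [← e1, ← e2]; ring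
  have hA' := abs_le.mp hA
  have h1' := abs_le.mp h1
  have h2' := abs_le.mp h2
  rw [e3, abs_lt]
  constructor <;> linarith [hA'.1, hA'.2, h1'.1, h1'.2, h2'.1, h2'.2]

end Pool.Agent.LZ
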