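import Mathlib
import Pool.Agent.Helper37.LZ1

set_option autoImplicit false
open scoped BigOperators FourierTransform
open MeasureTheory Complex

namespace Pool.Agent.LZ

/-- exponential `e^{2 pi i t}` -/
noncomputable def ee (t : ℝ) : ℂ := Complex.exp (2 * Real.pi * I * t)

lemma ee_norm (t : ℝ) : ‖ee t‖ = 1 := by
  unfold ee
  have : (2 * Real.pi * I * t : ℂ) = ((2 * Real.pi * t : ℝ) : ℂ) * I := by push_cast; ring
  rw [this]
  exact Complex.norm_exp_ofReal_mul_I _

lemma ee_add (s t : ℝ) : ee (s + t) = ee s * ee t := by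
  unfold ee
  rw [← Complex.exp_add]
  congr 1
  push_cast
  ring

lemma ee_conj (t : ℝ) : (starRingEnd ℂ) (ee t) = ee (-t) := by
  unfold ee
  rw [← Complex.exp_conj]
  congr 1
  simp only [map_mul, Complex.conj_I, Complex.conj_ofReal, map_ofNat]
  push_cast
  ring

lemma ee_cont : Continuous ee := by
  unfold ee
  fun_prop

lemma fourier_ee (f : ℝ → ℂ) (x : ℝ) : 𝓕 f x = ∫ t : ℝ, f t * ee (-(t * x)) := by
  rw [Real.fourier_real_eq_integral_exp_smul]
  congr 1
  ext t
  unfold ee
  rw [smul_eq_mul, mul_comm]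
  congr 2
  push_cast
  ring

/-- Poisson-type lemma. -/
lemma poisson (q : ℝ → ℂ) (hq : Continuous q) (hq0 : ∀ t, t ≤ 1 ∨ 3 ≤ t → q t = 0)
    (C : ℝ) (hQ : ∀ x, ‖𝓕 q x‖ ≤ C * w x) (L : ℕ) (hL : 7 ≤ L) (y t : ℝ)
    (h : ∀ k : ℤ, k ≠ 0 → q (t + k * L) = 0) :
    HasSum (fun n : ℤ => 𝓕 q ((n - y) / L) * ee (n * t / L)) (L * q t * ee (y * t / L)) := by
  have hLr : (0:ℝ) < L := by
    have : 0 < L := by omega
    exact_mod_cast this
  have hL0 : 0 < L := by omega
  let f : ℝ → ℂ := fun s => q (L * s) * ee (y * s)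
  have hfc : Continuous f := by
    have := ee_cont
    fun_prop
  have hcs : HasCompactSupport f := by
    apply HasCompactSupport.intro (isCompact_Icc (a := (0:ℝ)) (b := 3))
    intro s hs
    simp only [f]
    rw [hq0 (L * s), zero_mul]
    rw [Set.mem_Icc, not_and_or, not_le, not_le] at hs
    have h7 : (7:ℝ) ≤ L := by exact_mod_cast hL
    rcases hs with hs | hs
    · left; nlinarith
    · right; nlinarith
  have hF : ∀ n : ℝ, 𝓕 f n = 1 / L * 𝓕 q ((n - y) / L) := by
    intro n
    rw [fourier_ee, fourier_ee]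
    have e1 : (fun s : ℝ => f s * ee (-(s * n))) = fun s : ℝ => q (L * s) * ee (-(L * s * ((n - y) / L))) := by
      funext s
      simp only [f]
      rw [mul_assoc, ← ee_add]
      congr 2
      field_simp
      ring
    rw [e1, Measure.integral_comp_mul_left (fun u : ℝ => q u * ee (-(u * ((n - y) / L)))) (L : ℝ)]
    rw [abs_of_pos (by positivity), Complex.real_smul]
    push_cast
    ring
  have hsum : Summable (fun n : ℤ => 𝓕 q (((n : ℝ) - y) / L)) := by
    have h2 : Summable (fun n : ℤ => C * w ((y - n) / L)) := (sum_w_scaled L hL0 y).1.mul_left C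
    refine Summable.of_norm_bounded h2 (fun n => ?_)
    refine (hQ _).trans (le_of_eq ?_)
    rw [← w_neg]
    congr 2
    ring
  have hFs : Summable (fun n : ℤ => 𝓕 f n) := by
    simp only [hF]
    exact hsum.mul_left _
  have key := Real.tsum_eq_tsum_fourier_of_rpow_decay_of_summable hfc one_lt_two
    (b := 2) (by
      have : f =ᶠ[Filter.cocompact ℝ] fun _ => (0:ℂ) := by
        have := hasCompactSupport_iff_eventuallyEq.mp hcs
        rwa [Filter.coclosedCompact_eq_cocompact] at this
      exact this.trans_isBigO (Asymptotics.isBigO_zero _ _)) hFs (t / L)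
  have hleft : ∑' n : ℤ, f (t / L + n) = q t * ee (y * t / L) := by
    rw [tsum_eq_single 0]
    · simp only [f]
      push_cast
      congr 2
      · field_simp
        ring
      · field_simp
        ring
    · intro k hk
      simp only [f]
      have e1 : (L : ℝ) * (t / L + k) = t + k * L := by field_simp
      rw [e1, h k hk, zero_mul]
  rw [hleft] at key
  have hterm : ∀ n : ℤ, 𝓕 q (((n : ℝ) - y) / L) * ee (n * t / L)
      = L * (𝓕 f n * fourier n ((t / L : ℝ) : UnitAddCircle)) := by
    intro n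
    rw [hF, fourier_coe_apply]
    have hLc : (L : ℂ) ≠ 0 := by exact_mod_cast hLr.ne'
    have e2 : Complex.exp (2 * Real.pi * I * n * ((t / L : ℝ) : ℂ) / ((1:ℝ) : ℂ)) = ee (n * t / L) := by
      unfold ee
      congr 1
      push_cast
      ring
    rw [e2]
    field_simp
  have hsum3 : Summable (fun n : ℤ => 𝓕 f n * fourier n ((t / L : ℝ) : UnitAddCircle)) := by
    refine Summable.of_norm ?_
    have h4 := hFs.norm
    refine h4.congr (fun n => ?_)
    rw [norm_mul]
    have : ‖fourier n ((t / L : ℝ) : UnitAddCircle)‖ = 1 := by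
      rw [fourier_apply]
      exact Circle.norm_coe _
    rw [this, mul_one]
  have hs4 := hsum3.hasSum.mul_left (L : ℂ)
  rw [← key] at hs4
  have e5 : (fun n : ℤ => 𝓕 q (((n : ℝ) - y) / L) * ee (n * t / L))
      = fun n : ℤ => (L : ℂ) * (𝓕 f n * fourier n ((t / L : ℝ) : UnitAddCircle)) := funext hterm
  have e6 : (L : ℂ) * q t * ee (y * t / L) = L * (q t * ee (y * t / L)) := by ring
  rw [e5, e6]
  exact hs4

/-- The convolution identity. -/
lemma conv_id (p q : ℝ → ℂ) (hp : Continuous p) (hp0 : ∀ t, t ≤ 1 ∨ 3 ≤ t → p t = 0)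
    (hq : Continuous q) (hq0 : ∀ t, t ≤ 1 ∨ 3 ≤ t → q t = 0)
    (C : ℝ) (hQ : ∀ x, ‖𝓕 q x‖ ≤ C * w x) (L : ℕ) (hL : 7 ≤ L) (x y : ℝ) :
    HasSum (fun n : ℤ => 𝓕 p ((x - n) / L) * ((2 * (𝓕 q ((n - y) / L)).re : ℝ) : ℂ))
      (L * 𝓕 (fun t => p t * q t) ((x - y) / L)) := by
  have hL7 : (7:ℝ) ≤ L := by exact_mod_cast hL
  have hLr : (0:ℝ) < L := by linarith
  have hL0 : 0 < L := by omega
  have hpint : Integrable p := by
    apply hp.integrable_of_hasCompactSupport
    apply HasCompactSupport.intro (isCompact_Icc (a := (1:ℝ)) (b := 3))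
    intro s hs
    apply hp0
    rw [Set.mem_Icc, not_and_or, not_le, not_le] at hs
    rcases hs with hs | hs
    · left; exact hs.le
    · right; exact hs.le
  obtain ⟨S, hS⟩ : ∃ S : ℤ → ℝ, S = fun (n : ℤ) => 2 * (𝓕 q (((n : ℝ) - y) / L)).re := ⟨_, rfl⟩
  have hSn : ∀ n, ((S n : ℝ) : ℂ) = 𝓕 q (((n : ℝ) - y) / L) + (starRingEnd ℂ) (𝓕 q (((n : ℝ) - y) / L)) := by
    intro n
    rw [hS, Complex.add_conj]
  have hSsum : Summable (fun n => |S n|) := by
    have h2 : Summable (fun n : ℤ => 2 * C * w ((y - n) / L)) := (sum_w_scaled L hL0 y).1.mul_left _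
    refine Summable.of_nonneg_of_le (fun _ => abs_nonneg _) (fun n => ?_) h2
    rw [hS]
    simp only
    rw [abs_mul, abs_two]
    have h3 := (Complex.abs_re_le_norm (𝓕 q (((n : ℝ) - y) / L))).trans (hQ _)
    have h4 : w (((n : ℝ) - y) / L) = w ((y - n) / L) := by
      rw [← w_neg]; congr 1; ring
    rw [h4] at h3
    nlinarith
  -- pointwise sum
  have hpt : ∀ t : ℝ, HasSum (fun n : ℤ => p t * ee (-(t * (x / L))) * (ee (n * t / L) * (S n : ℂ)))
      (p t * ee (-(t * (x / L))) * (L * q t * ee (y * t / L))) := by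
    intro t
    by_cases ht : t ≤ 1 ∨ 3 ≤ t
    · rw [hp0 t ht]
      simp
    · push Not at ht
      have h1 := poisson q hq hq0 C hQ L hL y t (by
        intro k hk
        apply hq0
        rcases lt_or_gt_of_ne hk with hk | hk
        · left
          have : (k:ℝ) ≤ -1 := by exact_mod_cast (by omega : k ≤ -1)
          nlinarith [ht.1, ht.2]
        · right
          have : (1:ℝ) ≤ k := by exact_mod_cast (by omega : 1 ≤ k)
          nlinarith [ht.1, ht.2])
      have h2 := poisson q hq hq0 C hQ L hL y (-t) (by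
        intro k hk
        apply hq0
        rcases lt_or_gt_of_ne hk with hk | hk
        · left
          have : (k:ℝ) ≤ -1 := by exact_mod_cast (by omega : k ≤ -1)
          nlinarith [ht.1, ht.2]
        · right
          have : (1:ℝ) ≤ k := by exact_mod_cast (by omega : 1 ≤ k)
          nlinarith [ht.1, ht.2])
      rw [hq0 (-t) (by left; linarith [ht.1])] at h2
      have h3 := h2.map (starRingEnd ℂ) Complex.continuous_conj
      have h4 := h1.add h3
      have h5 : HasSum (fun n : ℤ => ee (n * t / L) * (S n : ℂ)) (L * q t * ee (y * t / L)) := by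
        convert h4 using 1
        · funext n
          simp only [Function.comp_def, map_mul, ee_conj]
          rw [hSn]
          have : -((n : ℝ) * -t / L) = n * t / L := by ring
          rw [this]
          ring
        · simp
      exact h5.mul_left _
  have hmain := hasSum_integral_of_summable_integral_norm
    (F := fun (n : ℤ) (t : ℝ) => p t * ee (-(t * (x / L))) * (ee (n * t / L) * (S n : ℂ))) (μ := volume)
    (by
      intro n
      have hm : Continuous (fun t : ℝ => ee (-(t * (x / L))) * (ee (n * t / L) * (S n : ℂ))) := by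
        have := ee_cont
        fun_prop
      have h1 : Integrable (fun t : ℝ => p t * (ee (-(t * (x / L))) * (ee (n * t / L) * (S n : ℂ)))) := by
        refine hpint.mul_bdd (c := |S n|) hm.aestronglyMeasurable (Filter.Eventually.of_forall fun t => ?_)
        rw [norm_mul, norm_mul, ee_norm, ee_norm, Complex.norm_real, Real.norm_eq_abs]
        simp
      refine h1.congr (Filter.Eventually.of_forall fun t => ?_)
      simp only
      ring)
    (by
      have e1 : (fun n : ℤ => ∫ t : ℝ, ‖p t * ee (-(t * (x / L))) * (ee (n * t / L) * (S n : ℂ))‖)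
          = fun n : ℤ => (∫ t : ℝ, ‖p t‖) * |S n| := by
        funext n
        rw [← integral_mul_const]
        congr 1
        funext t
        rw [norm_mul, norm_mul, norm_mul, ee_norm, ee_norm, Complex.norm_real, Real.norm_eq_abs]
        ring
      rw [e1]
      exact hSsum.mul_left _)
  have hA : (fun n : ℤ => ∫ t : ℝ, p t * ee (-(t * (x / L))) * (ee (n * t / L) * (S n : ℂ)))
      = fun n : ℤ => 𝓕 p ((x - n) / L) * ((2 * (𝓕 q ((n - y) / L)).re : ℝ) : ℂ) := by
    funext n
    rw [fourier_ee p]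
    have e2 : ((2 * (𝓕 q (((n : ℝ) - y) / L)).re : ℝ) : ℂ) = (S n : ℂ) := by rw [hS]
    rw [e2, ← integral_mul_const]
    congr 1
    funext t
    have e3 : ee (-(t * ((x - n) / L))) = ee (-(t * (x / L))) * ee (n * t / L) := by
      rw [← ee_add]
      congr 1
      ring
    rw [e3]
    ring
  have hB : (∫ t : ℝ, ∑' n : ℤ, p t * ee (-(t * (x / L))) * (ee (n * t / L) * (S n : ℂ)))
      = L * 𝓕 (fun t => p t * q t) ((x - y) / L) := by
    rw [fourier_ee, ← integral_const_mul]
    congr 1
    funext t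
    rw [(hpt t).tsum_eq]
    have e3 : ee (-(t * ((x - y) / L))) = ee (-(t * (x / L))) * ee (y * t / L) := by
      rw [← ee_add]
      congr 1
      ring
    rw [e3]
    ring
  rw [← hA, ← hB]
  exact hmain

end Pool.Agent.LZ
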