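import Mathlib
import Pool.Agent.Helper37.LZ2
import Pool.Agent.Helper37.LZ3

set_option autoImplicit false
open scoped BigOperators FourierTransform ContDiff SchwartzMap
open MeasureTheory Complex

namespace Pool.Agent.LZ

lemma decay_of_smooth (g : ℝ → ℂ) (hs : ContDiff ℝ ∞ g) (hc : HasCompactSupport g) :
    ∃ C : ℝ, 0 ≤ C ∧ ∀ x, ‖𝓕 g x‖ ≤ C * w x := by
  let G : 𝓢(ℝ, ℂ) := hc.toSchwartzMap hs
  have hG : ∀ x, (𝓕 G) x = 𝓕 g x := by
    intro x
    rfl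
  obtain ⟨C0, h0⟩ := (𝓕 G).decay 0 0
  obtain ⟨C2, h2⟩ := (𝓕 G).decay 2 0
  refine ⟨C0 + C2, by linarith [h0.1, h2.1], fun x => ?_⟩
  have a := h0.2 x
  have b := h2.2 x
  rw [norm_iteratedFDeriv_zero, hG] at a b
  rw [pow_zero, one_mul] at a
  rw [Real.norm_eq_abs, sq_abs] at b
  unfold w
  rw [mul_one_div, le_div_iff₀ (by positivity)]
  nlinarith

/-- the cutoff, equal to 1 on [3/2, 5/2], supported in [1, 3] -/
noncomputable def chi : ContDiffBump (2 : ℝ) := ⟨1 / 2, 1, by norm_num, by norm_num⟩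
/-- the bump, supported in [3/2, 5/2] -/
noncomputable def bb : ContDiffBump (2 : ℝ) := ⟨1 / 4, 1 / 2, by norm_num, by norm_num⟩

lemma chi_zero (t : ℝ) (h : t ≤ 1 ∨ 3 ≤ t) : chi t = 0 := by
  apply chi.zero_of_le_dist
  show (1:ℝ) ≤ dist t 2
  rw [Real.dist_eq]
  rcases h with h | h
  · rw [abs_of_nonpos (by linarith)]; linarith
  · rw [abs_of_nonneg (by linarith)]; linarith

lemma bb_zero (t : ℝ) (h : t ≤ 3 / 2 ∨ 5 / 2 ≤ t) : bb t = 0 := by
  apply bb.zero_of_le_dist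
  show (1 / 2:ℝ) ≤ dist t 2
  rw [Real.dist_eq]
  rcases h with h | h
  · rw [abs_of_nonpos (by linarith)]; linarith
  · rw [abs_of_nonneg (by linarith)]; linarith

lemma chi_one (t : ℝ) (h1 : 3 / 2 ≤ t) (h2 : t ≤ 5 / 2) : chi t = 1 := by
  apply chi.one_of_mem_closedBall
  show t ∈ Metric.closedBall (2:ℝ) (1/2)
  rw [Metric.mem_closedBall, Real.dist_eq, abs_le]
  constructor <;> linarith

lemma bb_chi (t : ℝ) : bb t * chi t = bb t := by
  by_cases h : t ≤ 3 / 2 ∨ 5 / 2 ≤ t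
  · rw [bb_zero t h, zero_mul]
  · push Not at h
    rw [chi_one t h.1.le h.2.le, mul_one]

/-- the multiplier of differentiation -/
noncomputable def mm (t : ℝ) : ℂ := -2 * Real.pi * I * t

lemma mm_ne (t : ℝ) (ht : t ≠ 0) : mm t ≠ 0 := by
  unfold mm
  have h1 : (Real.pi : ℂ) ≠ 0 := by exact_mod_cast Real.pi_ne_zero
  have h2 : (t : ℂ) ≠ 0 := by exact_mod_cast ht
  have h3 : (I : ℂ) ≠ 0 := I_ne_zero
  simp [h1, h2, h3]

lemma mm_smooth : ContDiff ℝ ∞ mm := by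
  unfold mm
  have : ContDiff ℝ ∞ (fun t : ℝ => (t : ℂ)) := Complex.ofRealCLM.contDiff
  fun_prop

noncomputable def q0 (t : ℝ) : ℂ := (chi t : ℂ) / mm t
noncomputable def q1 (t : ℝ) : ℂ := (chi t : ℂ)
noncomputable def q2 (t : ℝ) : ℂ := mm t * (chi t : ℂ)
noncomputable def p0 (t : ℝ) : ℂ := (bb t : ℂ)
noncomputable def p1 (t : ℝ) : ℂ := mm t * (bb t : ℂ)

lemma q1_smooth : ContDiff ℝ ∞ q1 := by
  have h : ContDiff ℝ ∞ (fun t : ℝ => chi t) := chi.contDiff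
  exact Complex.ofRealCLM.contDiff.comp h

lemma p0_smooth : ContDiff ℝ ∞ p0 := by
  have h : ContDiff ℝ ∞ (fun t : ℝ => bb t) := bb.contDiff
  exact Complex.ofRealCLM.contDiff.comp h

lemma q2_smooth : ContDiff ℝ ∞ q2 := mm_smooth.mul q1_smooth
lemma p1_smooth : ContDiff ℝ ∞ p1 := mm_smooth.mul p0_smooth

lemma q0_smooth : ContDiff ℝ ∞ q0 := by
  rw [contDiff_iff_contDiffAt]
  intro t
  by_cases ht : t = 0
  · have : q0 =ᶠ[nhds t] fun _ => (0:ℂ) := by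
      rw [ht]
      filter_upwards [Iio_mem_nhds (by norm_num : (0:ℝ) < 1)] with s hs
      unfold q0
      rw [chi_zero s (Or.inl (le_of_lt hs))]
      simp
    exact contDiffAt_const.congr_of_eventuallyEq this
  · have h1 : ContDiffAt ℝ ∞ (fun t => q1 t * (mm t)⁻¹) t :=
      q1_smooth.contDiffAt.mul (mm_smooth.contDiffAt.inv (mm_ne t ht))
    exact h1

lemma cs_of (g : ℝ → ℂ) (h : ∀ t, t ≤ 1 ∨ 3 ≤ t → g t = 0) : HasCompactSupport g := by
  apply HasCompactSupport.intro (isCompact_Icc (a := (1:ℝ)) (b := 3))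
  intro s hs
  apply h
  rw [Set.mem_Icc, not_and_or, not_le, not_le] at hs
  rcases hs with hs | hs
  · left; exact hs.le
  · right; exact hs.le

lemma q0_zero (t : ℝ) (h : t ≤ 1 ∨ 3 ≤ t) : q0 t = 0 := by unfold q0; rw [chi_zero t h]; simp
lemma q1_zero (t : ℝ) (h : t ≤ 1 ∨ 3 ≤ t) : q1 t = 0 := by unfold q1; rw [chi_zero t h]; simp
lemma q2_zero (t : ℝ) (h : t ≤ 1 ∨ 3 ≤ t) : q2 t = 0 := by unfold q2; rw [chi_zero t h]; simp
lemma p0_zero (t : ℝ) (h : t ≤ 1 ∨ 3 ≤ t) : p0 t = 0 := by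
  unfold p0; rw [bb_zero t (by rcases h with h | h; (left; linarith); (right; linarith))]; simp
lemma p1_zero (t : ℝ) (h : t ≤ 1 ∨ 3 ≤ t) : p1 t = 0 := by
  unfold p1; rw [bb_zero t (by rcases h with h | h; (left; linarith); (right; linarith))]; simp

lemma mm_q0 (t : ℝ) : mm t * q0 t = q1 t := by
  by_cases ht : t = 0
  · rw [ht, q0_zero 0 (by norm_num), q1_zero 0 (by norm_num), mul_zero]
  · unfold q0 q1
    field_simp [mm_ne t ht]

lemma p1_q0 (t : ℝ) : p1 t * q0 t = p0 t := by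
  have h : p1 t * q0 t = (bb t : ℂ) * (mm t * q0 t) := by unfold p1; ring
  rw [h, mm_q0]
  unfold q1 p0
  exact_mod_cast bb_chi t

lemma p1_q1 (t : ℝ) : p1 t * q1 t = p1 t := by
  unfold p1 q1
  rw [mul_assoc]
  congr 1
  exact_mod_cast bb_chi t

lemma cont_int (g : ℝ → ℂ) (hg : Continuous g) (h : ∀ t, t ≤ 1 ∨ 3 ≤ t → g t = 0) : Integrable g :=
  hg.integrable_of_hasCompactSupport (cs_of g h)

lemma hasDeriv_fourier (g g' : ℝ → ℂ) (hg : Continuous g) (h : ∀ t, t ≤ 1 ∨ 3 ≤ t → g t = 0)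
    (hgg' : ∀ t, mm t * g t = g' t) (x : ℝ) : HasDerivAt (𝓕 g) (𝓕 g' x) x := by
  have h1 := cont_int g hg h
  have h2 : Integrable (fun t : ℝ => t • g t) := by
    apply cont_int
    · fun_prop
    · intro t ht; rw [h t ht, smul_zero]
  have h3 := Real.hasDerivAt_fourier h1 h2 x
  have h4 : (fun t : ℝ => (-2 * Real.pi * I * t) • g t) = g' := by
    funext t
    rw [← hgg']
    rfl
  rwa [h4] at h3

noncomputable def K (x : ℝ) : ℝ := 2 * (𝓕 q0 x).re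
noncomputable def K1 (x : ℝ) : ℝ := 2 * (𝓕 q1 x).re
noncomputable def K2 (x : ℝ) : ℝ := 2 * (𝓕 q2 x).re

lemma re_deriv (F : ℝ → ℂ) (F' : ℂ) (x : ℝ) (h : HasDerivAt F F' x) :
    HasDerivAt (fun x => 2 * (F x).re) (2 * F'.re) x := by
  have := Complex.reCLM.hasFDerivAt.comp_hasDerivAt x h
  exact this.const_mul 2

lemma K_deriv (x : ℝ) : HasDerivAt K (K1 x) x :=
  re_deriv _ _ _ (hasDeriv_fourier q0 q1 q0_smooth.continuous q0_zero mm_q0 x)

lemma K1_deriv (x : ℝ) : HasDerivAt K1 (K2 x) x :=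
  re_deriv _ _ _ (hasDeriv_fourier q1 q2 q1_smooth.continuous q1_zero (fun _ => rfl) x)

noncomputable def F0 (x : ℝ) : ℂ := 𝓕 p0 x
noncomputable def F1 (x : ℝ) : ℂ := 𝓕 p1 x

/-- all decay estimates with one constant -/
lemma bounds : ∃ C : ℝ, 0 ≤ C ∧ (∀ x, |K x| ≤ C * w x) ∧ (∀ x, |K1 x| ≤ C * w x) ∧
    (∀ x, |K2 x| ≤ C * w x) ∧ (∀ x, ‖F0 x‖ ≤ C * w x) ∧ (∀ x, ‖F1 x‖ ≤ C * w x) := by
  obtain ⟨c0, h0, b0⟩ := decay_of_smooth q0 q0_smooth (cs_of q0 q0_zero)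
  obtain ⟨c1, h1, b1⟩ := decay_of_smooth q1 q1_smooth (cs_of q1 q1_zero)
  obtain ⟨c2, h2, b2⟩ := decay_of_smooth q2 q2_smooth (cs_of q2 q2_zero)
  obtain ⟨d0, g0, a0⟩ := decay_of_smooth p0 p0_smooth (cs_of p0 p0_zero)
  obtain ⟨d1, g1, a1⟩ := decay_of_smooth p1 p1_smooth (cs_of p1 p1_zero)
  have key : ∀ (z : ℂ) (c x : ℝ), ‖z‖ ≤ c * w x → |2 * z.re| ≤ 2 * c * w x := by
    intro z c x hz
    rw [abs_mul, abs_two]
    have := Complex.abs_re_le_norm z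
    nlinarith
  have hle : ∀ (c x : ℝ), c ≤ 2 * c0 + 2 * c1 + 2 * c2 + d0 + d1 →
      c * w x ≤ (2 * c0 + 2 * c1 + 2 * c2 + d0 + d1) * w x := fun c x h =>
    mul_le_mul_of_nonneg_right h (w_nonneg x)
  refine ⟨2 * c0 + 2 * c1 + 2 * c2 + d0 + d1, by linarith, ?_, ?_, ?_, ?_, ?_⟩
  · intro x; exact (key _ c0 x (b0 x)).trans (hle _ x (by linarith))
  · intro x; exact (key _ c1 x (b1 x)).trans (hle _ x (by linarith))
  · intro x; exact (key _ c2 x (b2 x)).trans (hle _ x (by linarith))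
  · intro x; exact (a0 x).trans (hle _ x (by linarith))
  · intro x; exact (a1 x).trans (hle _ x (by linarith))

lemma idA (L : ℕ) (hL : 7 ≤ L) (x y : ℝ) :
    HasSum (fun n : ℤ => F1 ((x - n) / L) * (K ((n - y) / L) : ℂ)) (L * F0 ((x - y) / L)) := by
  obtain ⟨c0, h0, b0⟩ := decay_of_smooth q0 q0_smooth (cs_of q0 q0_zero)
  have := conv_id p1 q0 p1_smooth.continuous p1_zero q0_smooth.continuous q0_zero c0 b0 L hL x y
  have e : (fun t => p1 t * q0 t) = p0 := funext p1_q0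
  rw [e] at this
  exact this

lemma idB (L : ℕ) (hL : 7 ≤ L) (x y : ℝ) :
    HasSum (fun n : ℤ => F1 ((x - n) / L) * (K1 ((n - y) / L) : ℂ)) (L * F1 ((x - y) / L)) := by
  obtain ⟨c0, h0, b0⟩ := decay_of_smooth q1 q1_smooth (cs_of q1 q1_zero)
  have := conv_id p1 q1 p1_smooth.continuous p1_zero q1_smooth.continuous q1_zero c0 b0 L hL x y
  have e : (fun t => p1 t * q1 t) = p1 := funext p1_q1
  rw [e] at this
  exact this

lemma idC (L : ℕ) (hL : 7 ≤ L) (x : ℝ) :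
    HasSum (fun n : ℤ => F0 ((x - n) / L)) 0 := by
  obtain ⟨c0, h0, b0⟩ := decay_of_smooth p0 p0_smooth (cs_of p0 p0_zero)
  have hL7 : (7:ℝ) ≤ L := by exact_mod_cast hL
  have h1 := poisson p0 p0_smooth.continuous p0_zero c0 b0 L hL (-x) 0 (by
    intro k hk
    apply p0_zero
    rcases lt_or_gt_of_ne hk with hk | hk
    · left
      have : (k:ℝ) ≤ -1 := by exact_mod_cast (by omega : k ≤ -1)
      nlinarith
    · right
      have : (1:ℝ) ≤ k := by exact_mod_cast (by omega : 1 ≤ k)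
      nlinarith)
  rw [p0_zero 0 (by norm_num)] at h1
  have h2 := (Equiv.neg ℤ).hasSum_iff.mpr h1
  convert h2 using 1
  · funext n
    simp only [Function.comp_def, Equiv.neg_apply]
    unfold F0
    push_cast
    rw [mul_zero, zero_div]
    have e1 : ee 0 = 1 := by unfold ee; simp
    have e2 : (x - (n : ℝ)) / L = (-(n : ℝ) - -x) / L := by ring
    rw [e1, mul_one, e2]
  · simp

end Pool.Agent.LZ
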