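import Mathlib
import Pool.Agent.Helper37.LZ4

set_option autoImplicit false
open scoped BigOperators FourierTransform ContDiff SchwartzMap
open MeasureTheory Complex

namespace Pool.Agent.LZ

lemma fubini {ι : Type} (F : ℤ → ℂ) (k B : ℤ → ι → ℝ) (D : ℝ) (hF : Summable (fun n => ‖F n‖))
    (hk : ∀ n i, |k n i| ≤ B n i) (hB : ∀ n, Summable (B n)) (hD : ∀ n, ∑' i, B n i ≤ D) :
    Summable (fun n => F n * ((∑' i, k n i : ℝ) : ℂ)) ∧ Summable (fun i => ∑' n, F n * (k n i : ℂ)) ∧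
    ∑' n, F n * ((∑' i, k n i : ℝ) : ℂ) = ∑' i, ∑' n, F n * (k n i : ℂ) := by
  have hB0 : ∀ n i, 0 ≤ B n i := fun n i => (abs_nonneg _).trans (hk n i)
  obtain ⟨G, hG⟩ : ∃ G : ℤ × ι → ℝ, G = fun p => ‖F p.1‖ * B p.1 p.2 := ⟨_, rfl⟩
  have hG0 : 0 ≤ G := by
    intro p; rw [hG]; exact mul_nonneg (norm_nonneg _) (hB0 _ _)
  have hGs : Summable G := by
    rw [summable_prod_of_nonneg hG0]
    constructor
    · intro n
      simp only [hG]
      exact (hB n).mul_left _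
    · simp only [hG]
      have h1 : ∀ n : ℤ, ∑' i, ‖F n‖ * B n i ≤ D * ‖F n‖ := by
        intro n
        rw [tsum_mul_left, mul_comm D]
        exact mul_le_mul_of_nonneg_left (hD n) (norm_nonneg _)
      exact Summable.of_nonneg_of_le (fun n => tsum_nonneg (fun i => mul_nonneg (norm_nonneg _) (hB0 _ _)))
        h1 (hF.mul_left D)
  have hs : Summable (Function.uncurry (fun (n : ℤ) (i : ι) => F n * (k n i : ℂ))) := by
    refine Summable.of_norm_bounded hGs (fun p => ?_)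
    rw [hG]
    simp only [Function.uncurry]
    rw [norm_mul, Complex.norm_real, Real.norm_eq_abs]
    exact mul_le_mul_of_nonneg_left (hk _ _) (norm_nonneg _)
  have h2 : ∀ n, F n * ((∑' i, k n i : ℝ) : ℂ) = ∑' i, F n * (k n i : ℂ) := by
    intro n
    rw [Complex.ofReal_tsum, tsum_mul_left]
  have h3 : Summable (fun n => ∑' i, F n * (k n i : ℂ)) := hs.prod
  have hs' : Summable (Function.uncurry (fun (i : ι) (n : ℤ) => F n * (k n i : ℂ))) := by
    have := hs.prod_symm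
    exact this
  refine ⟨?_, ?_, ?_⟩
  · simp only [h2]
    exact h3
  · exact hs'.prod
  · simp only [h2]
    exact hs.tsum_comm.symm

theorem tiling_identity (C : ℝ) (hC : 0 ≤ C) (bK : ∀ x, |K x| ≤ C * w x)
    (bK2 : ∀ x, |K2 x| ≤ C * w x) (bF0 : ∀ x, ‖F0 x‖ ≤ C * w x)
    (bF1 : ∀ x, ‖F1 x‖ ≤ C * w x) (M : ℝ) (L : ℕ) (e : ℤ → ℝ) (hM : 0 < M) (h7 : 7 ≤ L)
    (hML : M + 1 ≤ L) (he : ∀ n, |e n| ≤ M)
    (hfix : ∀ n, e n = - AA K L e n + TT K K1 L e n) (x : ℝ) :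
    Summable (fun m : ℤ => ‖F0 ((x - (m + e m)) / L)‖) ∧
    ∑' m : ℤ, F0 ((x - (m + e m)) / L) = ∑' m : ℕ, F0 ((x - (((L : ℤ) * m : ℤ) + e ((L : ℤ) * m))) / L) := by
  have hL : 0 < L := by omega
  have hLr : (0:ℝ) < L := by exact_mod_cast hL
  have hLc : (L : ℂ) ≠ 0 := by exact_mod_cast hLr.ne'
  have hw : Summable (fun n : ℤ => w ((x - n) / L)) := (sum_w_scaled L hL x).1
  have hshift : ∀ (y s : ℝ), |s| ≤ M → w ((y - s) / L) ≤ 3 * w (y / L) := by
    intro y s hs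
    have h3 : |s / L| ≤ 1 := by
      rw [abs_div, abs_of_pos hLr, div_le_one hLr]
      linarith
    have := w_shift (y / L) (s / L) h3
    rwa [← sub_div] at this
  have hF1s : Summable (fun n : ℤ => ‖F1 ((x - n) / L)‖) :=
    Summable.of_nonneg_of_le (fun _ => norm_nonneg _) (fun n => bF1 _) (hw.mul_left C)
  have hF0s : Summable (fun m : ℤ => ‖F0 ((x - (m + e m)) / L)‖) := by
    refine Summable.of_nonneg_of_le (fun _ => norm_nonneg _) (fun m => ?_) (hw.mul_left (3 * C))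
    have e1 : (x - (m + e m)) / L = ((x - m) - e m) / L := by ring
    rw [e1]
    calc ‖F0 (((x - m) - e m) / L)‖ ≤ C * w (((x - m) - e m) / L) := bF0 _
      _ ≤ C * (3 * w ((x - m) / L)) := mul_le_mul_of_nonneg_left (hshift _ _ (he m)) hC
      _ = 3 * C * w ((x - m) / L) := by ring
  refine ⟨hF0s, ?_⟩
  -- first Fubini
  have hAfub := fubini (ι := ℕ) (fun n : ℤ => F1 ((x - n) / L))
    (fun n m => K (((n : ℝ) - L * m - e ((L : ℤ) * m)) / L))
    (fun n m => 3 * C * w (((n : ℝ) - L * m) / L)) (3 * C * W) hF1s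
    (fun n m => K_shift_bound K C hC bK M L hM.le hL hML _ _ (he _))
    (fun n => (sum_w_L L hL n).1.mul_left _)
    (fun n => by
      rw [tsum_mul_left]
      exact mul_le_mul_of_nonneg_left (sum_w_L L hL n).2 (by positivity))
  have hAin : ∀ m : ℕ, ∑' n : ℤ, F1 ((x - n) / L) * ((K (((n : ℝ) - L * m - e ((L : ℤ) * m)) / L) : ℝ) : ℂ)
      = L * F0 ((x - (((L : ℤ) * m : ℤ) + e ((L : ℤ) * m))) / L) := by
    intro m
    have := (idA L h7 x (((L : ℤ) * m : ℤ) + e ((L : ℤ) * m))).tsum_eq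
    rw [← this]
    apply tsum_congr
    intro n
    congr 3
    push_cast
    ring
  have hTfub := fubini (ι := ℤ) (fun n : ℤ => F1 ((x - n) / L))
    (fun n m => tt K K1 L ((n : ℝ) - m) (e m))
    (fun n m => 3 * C * M ^ 2 / L ^ 2 * w (((n : ℝ) - m) / L)) (3 * C * M ^ 2 / L ^ 2 * (L * W)) hF1s
    (fun n m => tt_bound K K1 K2 C hC K_deriv K1_deriv bK2 M L hM.le hL hML _ _ (he _))
    (fun n => (sum_w_scaled L hL n).1.mul_left _)
    (fun n => by
      rw [tsum_mul_left]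
      exact mul_le_mul_of_nonneg_left (sum_w_scaled L hL n).2 (by positivity))
  have hTin : ∀ m : ℤ, ∑' n : ℤ, F1 ((x - n) / L) * ((tt K K1 L ((n : ℝ) - m) (e m) : ℝ) : ℂ)
      = L * F0 ((x - (m + e m)) / L) - L * F0 ((x - m) / L) + e m * F1 ((x - m) / L) := by
    intro m
    have h1 := idA L h7 x (m + e m)
    have h2 := idA L h7 x m
    have h3 := (idB L h7 x m).mul_left ((e m / L : ℝ) : ℂ)
    have h4 := (h1.sub h2).add h3
    have h5 : (e m / L : ℝ) * (L * F1 ((x - m) / L)) = e m * F1 ((x - m) / L) := by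
      push_cast
      field_simp
    rw [h5] at h4
    rw [← h4.tsum_eq]
    apply tsum_congr
    intro n
    unfold tt
    have e1 : ((n : ℝ) - m - e m) / L = (n - (m + e m)) / L := by ring
    rw [e1]
    push_cast
    ring
  -- combine
  have hcomb : ∀ n : ℤ, F1 ((x - n) / L) * (e n : ℂ) =
      - (F1 ((x - n) / L) * ((∑' m : ℕ, K (((n : ℝ) - L * m - e ((L : ℤ) * m)) / L) : ℝ) : ℂ))
      + F1 ((x - n) / L) * ((∑' m : ℤ, tt K K1 L ((n : ℝ) - m) (e m) : ℝ) : ℂ) := by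
    intro n
    have h1 := hfix n
    unfold AA TT at h1
    have h2 : (e n : ℂ) = - ((∑' m : ℕ, K (((n : ℝ) - L * m - e ((L : ℤ) * m)) / L) : ℝ) : ℂ)
        + ((∑' m : ℤ, tt K K1 L ((n : ℝ) - m) (e m) : ℝ) : ℂ) := by
      exact_mod_cast h1
    rw [h2]
    ring
  have hsE : ∑' n : ℤ, F1 ((x - n) / L) * (e n : ℂ) =
      - ∑' m : ℕ, (L * F0 ((x - (((L : ℤ) * m : ℤ) + e ((L : ℤ) * m))) / L) : ℂ)
      + ∑' m : ℤ, (L * F0 ((x - (m + e m)) / L) - L * F0 ((x - m) / L) + e m * F1 ((x - m) / L)) := by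
    simp only [hcomb]
    rw [Summable.tsum_add hAfub.1.neg hTfub.1, tsum_neg, hAfub.2.2, hTfub.2.2]
    simp only [hAin, hTin]
  have hF0c : Summable (fun m : ℤ => (L : ℂ) * F0 ((x - (m + e m)) / L)) := (Summable.of_norm hF0s).mul_left _
  have hidC := idC L h7 x
  have hF0d : Summable (fun m : ℤ => (L : ℂ) * F0 ((x - m) / L)) := hidC.summable.mul_left _
  have hF1e : Summable (fun m : ℤ => (e m : ℂ) * F1 ((x - m) / L)) := by
    refine Summable.of_norm_bounded (hF1s.mul_left M) (fun m => ?_)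
    rw [norm_mul, Complex.norm_real, Real.norm_eq_abs]
    exact mul_le_mul_of_nonneg_right (he m) (norm_nonneg _)
  rw [Summable.tsum_add (hF0c.sub hF0d) hF1e, Summable.tsum_sub hF0c hF0d, tsum_mul_left, tsum_mul_left,
    tsum_mul_left, hidC.tsum_eq] at hsE
  have h6 : ∑' n : ℤ, F1 ((x - n) / L) * (e n : ℂ) = ∑' m : ℤ, (e m : ℂ) * F1 ((x - m) / L) :=
    tsum_congr (fun n => mul_comm _ _)
  rw [h6] at hsE
  have h7' : (L : ℂ) * (∑' m : ℤ, F0 ((x - (m + e m)) / L)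
      - ∑' m : ℕ, F0 ((x - (((L : ℤ) * m : ℤ) + e ((L : ℤ) * m))) / L)) = 0 := by
    linear_combination -hsE
  have h8 := (mul_eq_zero.mp h7').resolve_left hLc
  exact sub_eq_zero.mp h8

end Pool.Agent.LZ
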