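import Mathlib
import Pool.Agent.Helper37.LZ5

set_option autoImplicit false
open scoped BigOperators FourierTransform ContDiff SchwartzMap
open MeasureTheory Complex

namespace Pool.Agent.LZ

section counting
variable (e : ℤ → ℝ) (L N0 : ℕ) (he : ∀ n, |e n| ≤ N0)

/-- the index set: all integers except the nonnegative multiples of `L` -/
def II (L : ℕ) : Set ℤ := {n | ∀ m : ℕ, n ≠ (L : ℤ) * m}

noncomputable def lam (e : ℤ → ℝ) (n : ℤ) : ℝ := n + e n

include he in
lemma lam_near (n : ℤ) : lam e n - N0 ≤ n ∧ (n : ℝ) ≤ lam e n + N0 := by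
  have := abs_le.mp (he n)
  unfold lam
  constructor <;> linarith

include he in
lemma subset_image (x r : ℝ) (a b : ℤ) (ha : (a : ℝ) ≤ x - N0) (hb : x + r + N0 ≤ b) :
    (lam e '' II L) ∩ Set.Ico x (x + r) ⊆ ((Finset.Ico a b).image (lam e) : Finset ℝ) := by
  rintro _ ⟨⟨n, hn, rfl⟩, h1, h2⟩
  rw [Finset.coe_image]
  refine ⟨n, ?_, rfl⟩
  rw [Finset.coe_Ico, Set.mem_Ico]
  have h3 := lam_near e N0 he n
  constructor
  · have : (a : ℝ) ≤ n := by linarith [h3.1]
    exact_mod_cast this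
  · have : (n : ℝ) < b := by linarith [h3.2]
    exact_mod_cast this

include he in
lemma window_finite (x r : ℝ) : ((lam e '' II L) ∩ Set.Ico x (x + r)).Finite :=
  (Finset.finite_toSet _).subset
    (subset_image e L N0 he x r ⌊x - N0⌋ ⌈x + r + N0⌉ (Int.floor_le _) (Int.le_ceil _))

include he in
lemma bounded_density : ∃ B : ℕ, ∀ x : ℝ, ((lam e '' II L) ∩ Set.Ico x (x + 1)).encard ≤ (B : ℕ∞) := by
  refine ⟨2 * N0 + 2, fun x => ?_⟩
  have h1 := Int.floor_le x
  have h2 := Int.lt_floor_add_one x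
  have hs := subset_image e L N0 he x 1 (⌊x⌋ - N0) (⌊x⌋ + N0 + 2)
    (by push_cast; linarith) (by push_cast; linarith)
  refine (Set.encard_le_encard hs).trans ?_
  rw [Set.encard_coe_eq_coe_finsetCard]
  have h3 : ((Finset.Ico (⌊x⌋ - (N0 : ℤ)) (⌊x⌋ + N0 + 2)).image (lam e)).card ≤ 2 * N0 + 2 := by
    refine Finset.card_image_le.trans ?_
    rw [Int.card_Ico]
    omega
  exact_mod_cast h3

include he in
/-- many points far to the left -/
lemma left_count (hinj : Function.Injective (lam e)) (r : ℕ) :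
    ((r : ℝ) - 2 * N0) ≤ (((lam e '' II L) ∩ Set.Ico (-((r : ℝ) + N0)) (-((r : ℝ) + N0) + r)).ncard : ℝ) := by
  have hsub : ((Finset.Ico (-(r : ℤ)) (-2 * N0)).image (lam e) : Set ℝ) ⊆
      (lam e '' II L) ∩ Set.Ico (-((r : ℝ) + N0)) (-((r : ℝ) + N0) + r) := by
    intro y hy
    rw [Finset.coe_image, Finset.coe_Ico] at hy
    obtain ⟨n, hn, rfl⟩ := hy
    rw [Set.mem_Ico] at hn
    have h3 := lam_near e N0 he n
    have hn1 : (-(r : ℝ)) ≤ n := by exact_mod_cast hn.1
    have hn2 : (n : ℝ) < -2 * N0 := by exact_mod_cast hn.2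
    refine ⟨⟨n, ?_, rfl⟩, ?_, ?_⟩
    · intro m hm
      have h5 : (n : ℤ) < 0 := by omega
      have h6 : (0 : ℤ) ≤ (L : ℤ) * m := by positivity
      omega
    · linarith [h3.1, h3.2]
    · linarith [h3.1, h3.2]
  have h1 := Set.ncard_le_ncard hsub (window_finite e L N0 he _ _)
  have h2 : (lam e '' ((Finset.Ico (-(r : ℤ)) (-2 * N0) : Finset ℤ) : Set ℤ)).ncard
      = (Finset.Ico (-(r : ℤ)) (-2 * N0)).card := by
    rw [Set.ncard_image_of_injective _ hinj, Set.ncard_coe_finset]
  rw [Finset.coe_image, h2, Int.card_Ico] at h1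
  have h3 : ((r : ℤ) - 2 * N0) ≤ (((lam e '' II L) ∩ Set.Ico (-((r : ℝ) + N0)) (-((r : ℝ) + N0) + r)).ncard : ℤ) := by
    omega
  exact_mod_cast h3

include he in
/-- fewer points far to the right -/
lemma right_count (hL : 0 < L) (k : ℕ) :
    (((lam e '' II L) ∩ Set.Ico (N0 : ℝ) ((N0 : ℝ) + (L * k : ℕ))).ncard : ℝ) ≤ 2 * N0 + L * k - k := by
  obtain ⟨R, hR⟩ : ∃ R : ℕ, R = 2 * N0 + L * k := ⟨_, rfl⟩
  have hsub : (lam e '' II L) ∩ Set.Ico (N0 : ℝ) ((N0 : ℝ) + (L * k : ℕ)) ⊆
      (((Finset.range R).filter (fun n => ¬ L ∣ n)).image (fun n : ℕ => lam e n) : Finset ℝ) := by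
    rintro _ ⟨⟨n, hn, rfl⟩, h1, h2⟩
    have h3 := lam_near e N0 he n
    have h4 : (0 : ℝ) ≤ n := by linarith [h3.1]
    have h4' : (0 : ℤ) ≤ n := by exact_mod_cast h4
    have h5 : (n : ℝ) < (R : ℕ) := by
      rw [hR]
      push_cast
      push_cast at h2
      linarith [h3.2]
    have h5' : n < (R : ℤ) := by exact_mod_cast h5
    rw [Finset.coe_image]
    obtain ⟨m, rfl⟩ := Int.eq_ofNat_of_zero_le h4'
    refine ⟨m, ?_, rfl⟩
    rw [Finset.coe_filter]
    refine ⟨?_, ?_⟩
    · rw [Finset.mem_range]; omega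
    · rintro ⟨j, hj⟩
      apply hn j
      rw [hj]
      push_cast
      ring
  have h1 := Set.ncard_le_ncard hsub (Finset.finite_toSet _)
  rw [Set.ncard_coe_finset] at h1
  have h2 : (((Finset.range R).filter (fun n => ¬ L ∣ n)).image (fun n : ℕ => lam e n)).card
      ≤ ((Finset.range R).filter (fun n => ¬ L ∣ n)).card := Finset.card_image_le
  have h3 : ((Finset.range R).filter (fun n => L ∣ n)).card + ((Finset.range R).filter (fun n => ¬ L ∣ n)).card = R := by
    rw [Finset.card_filter_add_card_filter_not]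
    simp
  have h4 : k ≤ ((Finset.range R).filter (fun n => L ∣ n)).card := by
    have h5 : ((Finset.range k).image (fun j => L * j)) ⊆ (Finset.range R).filter (fun n => L ∣ n) := by
      intro n hn
      rw [Finset.mem_image] at hn
      obtain ⟨j, hj, rfl⟩ := hn
      rw [Finset.mem_range] at hj
      rw [Finset.mem_filter, Finset.mem_range]
      refine ⟨?_, Dvd.intro _ rfl⟩
      have : L * j < L * k := Nat.mul_lt_mul_of_pos_left hj hL
      omega
    have h6 := Finset.card_le_card h5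
    rw [Finset.card_image_of_injective _ (fun a b h => Nat.eq_of_mul_eq_mul_left hL h), Finset.card_range] at h6
    exact h6
  have h7 : ((((lam e '' II L) ∩ Set.Ico (N0 : ℝ) ((N0 : ℝ) + (L * k : ℕ))).ncard : ℕ) : ℤ) ≤ 2 * N0 + L * k - k := by
    have h8 : (R : ℤ) = 2 * N0 + L * k := by rw [hR]; push_cast; ring
    omega
  exact_mod_cast h7

end counting

theorem main : ∃ (f : ℝ → ℝ) (Λ : Set ℝ),
    Continuous f ∧ Integrable f volume ∧ ¬ (f =ᵐ[volume] 0) ∧ Λ.Nonempty ∧
    (∃ B : ℕ, ∀ x : ℝ, (Λ ∩ Set.Ico x (x + 1)).encard ≤ (B : ℕ∞)) ∧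
    (∀ x : ℝ, Summable (fun l : Λ => ‖f (x - (l : ℝ))‖) ∧ ∑' l : Λ, f (x - (l : ℝ)) = 0) ∧
    ¬ ∃ D : ℝ, ∀ ε : ℝ, 0 < ε → ∃ R : ℝ, 0 < R ∧ ∀ r : ℝ, R ≤ r → ∀ x : ℝ,
      |((Λ ∩ Set.Ico x (x + r)).ncard : ℝ) - D * r| ≤ ε * r := by
  obtain ⟨C, hC, bK, bK1, bK2, bF0, bF1⟩ := bounds
  obtain ⟨M, L, e, hM, h7, hML, he, hinc, hfix⟩ :=
    exists_displacement K K1 K2 C hC K_deriv K1_deriv bK bK1 bK2
  have hL : 0 < L := by omega
  have hLr : (0:ℝ) < L := by exact_mod_cast hL
  have htile := fun x => tiling_identity C hC bK bK2 bF0 bF1 M L e hM h7 hML he hfix x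
  have hmono : StrictMono (lam e) := by
    apply strictMono_int_of_lt_succ
    intro n
    have := (abs_lt.mp (hinc n)).1
    unfold lam
    push_cast
    linarith
  have hinj := hmono.injective
  have he' : ∀ n, |e n| ≤ (⌈M⌉₊ : ℕ) := fun n => (he n).trans (Nat.le_ceil M)
  have hF0c : Continuous F0 := by
    have : Continuous (fun x => 𝓕 p0 x) := by
      apply continuous_iff_continuousAt.mpr
      intro x
      exact (hasDeriv_fourier p0 p1 p0_smooth.continuous p0_zero (fun _ => rfl) x).continuousAt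
    exact this
  have hF00 : 0 < (F0 0).re := by
    have h1 : F0 0 = ((∫ t : ℝ, bb t : ℝ) : ℂ) := by
      unfold F0
      rw [fourier_ee, ← integral_complex_ofReal]
      congr 1
      funext t
      unfold p0
      have : ee (-(t * 0)) = 1 := by unfold ee; simp
      rw [this, mul_one]
    rw [h1, Complex.ofReal_re]
    exact bb.integral_pos
  have hdecay : ∀ x, ‖(F0 x).re‖ ≤ C * w x := fun x =>
    ((Complex.abs_re_le_norm _).trans (bF0 x))
  have hfc : Continuous (fun x : ℝ => (F0 (x / L)).re) :=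
    Complex.continuous_re.comp (hF0c.comp (continuous_id.div_const _))
  refine ⟨fun x => (F0 (x / L)).re, lam e '' II L, hfc, ?_, ?_, ?_, ?_, ?_, ?_⟩
  · -- integrable
    have h1 : Integrable (fun x : ℝ => (F0 x).re) := by
      have h2 : Integrable (fun x : ℝ => C * w x) := by
        have := (integrable_inv_one_add_sq).const_mul C
        refine this.congr (Filter.Eventually.of_forall fun x => ?_)
        simp [w]
      exact h2.mono' (Complex.continuous_re.comp hF0c).aestronglyMeasurable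
        (Filter.Eventually.of_forall hdecay)
    exact h1.comp_div hLr.ne'
  · intro h
    have h1 := (Continuous.ae_eq_iff_eq volume hfc continuous_zero).mp h
    have h2 := congrFun h1 0
    simp only [zero_div, Pi.zero_apply] at h2
    linarith
  · refine ⟨lam e (-1), -1, ?_, rfl⟩
    intro m hm
    have : (0:ℤ) ≤ (L : ℤ) * m := by positivity
    omega
  · exact bounded_density e L ⌈M⌉₊ he'
  · intro x
    have hx := htile x
    obtain ⟨g, hg⟩ : ∃ g : ℤ → ℂ, g = fun m => F0 ((x - (m + e m)) / L) := ⟨_, rfl⟩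
    have hgs : Summable g := by
      rw [hg]; exact Summable.of_norm hx.1
    have hinjL : Function.Injective (fun m : ℕ => (L : ℤ) * m) := by
      intro a b hab
      have h1 : (L : ℤ) ≠ 0 := by exact_mod_cast hL.ne'
      have := mul_left_cancel₀ h1 hab
      exact_mod_cast this
    have hrange : (II L)ᶜ = Set.range (fun m : ℕ => (L : ℤ) * m) := by
      ext n
      simp only [II, Set.mem_compl_iff, Set.mem_range]
      show ¬ (∀ m : ℕ, n ≠ (L : ℤ) * m) ↔ _
      push Not
      constructor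
      · rintro ⟨m, hm⟩; exact ⟨m, hm.symm⟩
      · rintro ⟨m, hm⟩; exact ⟨m, hm.symm⟩
    have h1 : ∑' m : (II L : Set ℤ), g m + ∑' m : ((II L)ᶜ : Set ℤ), g m = ∑' m, g m :=
      (hgs.subtype _).tsum_add_tsum_compl (hgs.subtype _)
    have h2 : ∑' m : ((II L)ᶜ : Set ℤ), g m = ∑' m : ℕ, g ((L : ℤ) * m) := by
      rw [hrange]
      exact tsum_range g hinjL
    have h3 : ∑' m : ℕ, g ((L : ℤ) * m) = ∑' m, g m := by
      rw [hg]
      exact hx.2.symm
    have h4 : ∑' m : (II L : Set ℤ), g m = 0 := by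
      rw [h2, h3] at h1
      exact add_eq_right.mp h1
    let E : (II L : Set ℤ) ≃ (lam e '' II L : Set ℝ) := Equiv.Set.image (lam e) (II L) hinj
    have hval : ∀ m : (II L : Set ℤ), F0 ((x - ((E m : (lam e '' II L : Set ℝ)) : ℝ)) / L) = g m := by
      intro m
      rw [hg]
      rfl
    constructor
    · have h5 : Summable (fun l : (lam e '' II L : Set ℝ) => ‖F0 ((x - (l : ℝ)) / L)‖) := by
        rw [← Equiv.summable_iff E]
        have h6 : Summable (fun m : (II L : Set ℤ) => ‖g m‖) := hgs.norm.subtype _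
        refine h6.congr (fun m => ?_)
        simp only [Function.comp_def]
        rw [hval]
      exact Summable.of_nonneg_of_le (fun _ => norm_nonneg _)
        (fun l => Complex.abs_re_le_norm _) h5
    · have h5 : ∑' l : (lam e '' II L : Set ℝ), F0 ((x - (l : ℝ)) / L) = 0 := by
        rw [← Equiv.tsum_eq E]
        simp only [hval]
        exact h4
      have h6 : Summable (fun l : (lam e '' II L : Set ℝ) => F0 ((x - (l : ℝ)) / L)) := by
        rw [← Equiv.summable_iff E]
        have h6 : Summable (fun m : (II L : Set ℤ) => g m) := hgs.subtype _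
        refine h6.congr (fun m => ?_)
        simp only [Function.comp_def]
        rw [hval]
      have h7 := Complex.reCLM.map_tsum h6
      rw [h5] at h7
      simpa using h7.symm
  · rintro ⟨D, hD⟩
    obtain ⟨R, hR, hDR⟩ := hD (1 / (4 * L)) (by positivity)
    obtain ⟨k, hk⟩ := exists_nat_gt (R + 8 * ⌈M⌉₊)
    have hk1 : R ≤ ((L * k : ℕ) : ℝ) := by
      push_cast
      have h1 : (1:ℝ) ≤ L := by exact_mod_cast hL
      have h2 : (0:ℝ) ≤ ⌈M⌉₊ := by positivity
      have h3 : (0:ℝ) ≤ k := by positivity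
      nlinarith
    have a1 := hDR _ hk1 (-(((L * k : ℕ) : ℝ) + ⌈M⌉₊))
    have a2 := hDR _ hk1 (⌈M⌉₊ : ℝ)
    have b1 := left_count e L ⌈M⌉₊ he' hinj (L * k)
    have b2 := right_count e L ⌈M⌉₊ he' hL k
    have c1 := (abs_le.mp a1).2
    have c2 := (abs_le.mp a2).1
    have h5 : 1 / (4 * (L : ℝ)) * ((L * k : ℕ) : ℝ) = k / 4 := by
      push_cast
      field_simp
    rw [h5] at c1 c2
    push_cast at b1 b2 c1 c2
    have h2 : (0:ℝ) ≤ ⌈M⌉₊ := by positivity
    linarith

end Pool.Agent.LZ
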